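import Pool.Agent.H73.S3.Al

/-!
# [H71 S3 SDP] computations in `S ⋊ P` (MP_b39724_nt, stage 3, chapter B)

* `cjl y u`: `y * il u * y⁻¹ = il (cjl y u)`; it preserves `gm S m`, and acts on the layers through the part of `y` in `P`.
* `dz τ z w`: `th (τ z) w = il (dz τ z w) * th τ w`, in `gam_(m+1)` if `z ∈ gam_(m+1)` (`gam_m` at the letters `pp`).
* `uz τ z j`: `vl (τ z) j = il (uz τ z j) * vl τ j`.
-/

set_option autoImplicit false

open scoped commutatorElement
open scoped Classical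

noncomputable section

namespace H71.S3

open H1.S3 H73.S3

section sd

variable {S P : Type} [Group S] [Group P] [MulDistribMulAction P S]

theorem il_mul (u v : S) : (il (u * v) : SP S P) = il u * il v := map_mul _ _ _
theorem il_one : (il (1 : S) : SP S P) = 1 := map_one _
theorem il_inv (u : S) : (il u⁻¹ : SP S P) = (il u)⁻¹ := map_inv _ _
theorem il_left (u : S) : (il u : SP S P).left = u := rfl
theorem il_right (u : S) : (il u : SP S P).right = 1 := rfl

theorem il_inj {u v : S} (h : (il u : SP S P) = il v) : u = v := congrArg SemidirectProduct.left h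

theorem il_of {x : SP S P} (h : x.right = 1) : x = il x.left := by
  ext
  · rfl
  · exact h

theorem sp_right (x y : SP S P) : (x * y).right = x.right * y.right := rfl
theorem sp_right_inv (x : SP S P) : (x⁻¹).right = (x.right)⁻¹ := rfl

/-- conjugation of an element of `S` -/
def cjl (y : SP S P) (u : S) : S := y.left * (y.right • u) * y.left⁻¹

theorem cjl_il (y : SP S P) (u : S) : y * il u * y⁻¹ = il (cjl y u) := by
  have h0 : y * il u = il (y.left * (y.right • u)) * SemidirectProduct.inr y.right := by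
    ext
    · show y.left * (y.right • u) = y.left * (y.right • u) * ((1 : P) • (1 : S))
      rw [smul_one, mul_one]
    · show y.right * 1 = 1 * y.right
      rw [mul_one, one_mul]
  have h1 : y = il y.left * SemidirectProduct.inr y.right := by
    ext
    · show y.left = y.left * ((1 : P) • (1 : S))
      rw [smul_one, mul_one]
    · show y.right = 1 * y.right
      rw [one_mul]
  have h2 : y⁻¹ = (SemidirectProduct.inr y.right)⁻¹ * (il y.left)⁻¹ := by
    conv_lhs => rw [h1]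
    rw [mul_inv_rev]
  rw [h0, h2]
  unfold cjl
  rw [il_mul (y.left * (y.right • u)) y.left⁻¹, il_inv]
  group

theorem cjl_mem (y : SP S P) {m : ℕ} {u : S} (hu : u ∈ gm S m) : cjl y u ∈ gm S m :=
  (gm_normal m).conj_mem _ (gm_smul y.right hu) y.left

theorem cjl_gk (y : SP S P) {m : ℕ} {u : S} (hu : u ∈ gm S m) :
    gk m (cjl y u) = y.right • gk m u := by
  unfold cjl
  rw [gk_conj (gm_smul y.right hu), smul_gk y.right hu]

theorem cj_one (u : S) : cj u (1 : SP S P) = 1 := by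
  unfold cj
  group

theorem cj_mul (u : S) (x y : SP S P) : cj u (x * y) = cj u x * cj u y := by
  unfold cj
  group

theorem cj_inv (u : S) (x : SP S P) : cj u x⁻¹ = (cj u x)⁻¹ := by
  unfold cj
  group

theorem cj_cj (u v : S) (x : SP S P) : cj u (cj v x) = cj (u * v) x := by
  unfold cj
  rw [il_mul]
  group

theorem cj_id (x : SP S P) : cj (1 : S) x = x := by
  unfold cj
  rw [il_one]
  group

theorem cj_comm (u : S) (x y : SP S P) : cj u ⁅x, y⁆ = ⁅cj u x, cj u y⁆ := by
  rw [commutatorElement_def, commutatorElement_def, cj_mul, cj_mul, cj_mul, cj_inv, cj_inv]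

theorem cj_right (u : S) (x : SP S P) : (cj u x).right = x.right := by
  unfold cj
  rw [sp_right, sp_right, sp_right_inv, il_right, one_mul, inv_one, mul_one]

theorem cj_prod (u : S) (l : List (SP S P)) : cj u l.prod = (l.map (cj u)).prod := by
  induction l with
  | nil => exact cj_one u
  | cons x l ih => rw [List.prod_cons, cj_mul, ih, List.map_cons, List.prod_cons]

theorem cj_wd {I : Type} (u : S) (a d : I → SP S P) (l : List I) :
    cj u (wd a d l) = wd (fun i => cj u (a i)) (fun i => cj u (d i)) l := by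
  unfold wd
  rw [cj_prod, List.map_map]
  congr 1
  apply List.map_congr_left
  intro i _
  exact cj_comm u _ _

theorem cj_il (u v : S) : (cj u (il v) : SP S P) = il (u * v * u⁻¹) := by
  unfold cj
  rw [il_mul, il_mul, il_inv]

end sd

section fr

variable {S P : Type} [Group S] [Group P] [MulDistribMulAction P S] {J V : Type} (X : AD S P J V)

theorem th_of (τ : V → S) (j : J) : X.th τ (FreeGroup.of j) = cj (τ (X.pj j)) (X.t j) := by
  unfold AD.th
  rw [FreeGroup.lift_apply_of]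

theorem ph_of (j : J) : X.ph (FreeGroup.of j) = (X.t j).right := by
  unfold AD.ph
  rw [FreeGroup.lift_apply_of]

theorem th_rt (τ : V → S) (w : FreeGroup J) : (X.th τ w).right = X.ph w := by
  have h : (SemidirectProduct.rightHom.comp (X.th τ) : FreeGroup J →* P) = X.ph := by
    refine FreeGroup.ext_hom _ _ fun j => ?_
    rw [MonoidHom.comp_apply, th_of, ph_of]
    exact cj_right _ _
  exact DFunLike.congr_fun h w

theorem vl_rt (τ : V → S) (j : J) : (X.vl τ j).right = X.ph (X.W j) := by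
  unfold AD.vl
  rw [cj_right, th_rt]

/-- the change of the evaluation -/
def dz (τ z : V → S) (w : FreeGroup J) : S :=
  (X.th (fun v => τ v * z v) w * (X.th τ w)⁻¹).left

theorem dz_il (τ z : V → S) (w : FreeGroup J) :
    X.th (fun v => τ v * z v) w = il (dz X τ z w) * X.th τ w := by
  have h1 : (X.th (fun v => τ v * z v) w * (X.th τ w)⁻¹).right = 1 := by
    rw [sp_right, sp_right_inv, th_rt, th_rt, mul_inv_cancel]
  rw [← inv_mul_cancel_right (X.th (fun v => τ v * z v) w) (X.th τ w)]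
  conv_lhs => rw [il_of h1]
  rfl

theorem dz_mul (τ z : V → S) (a b : FreeGroup J) :
    dz X τ z (a * b) = dz X τ z a * cjl (X.th τ a) (dz X τ z b) := by
  apply il_inj (P := P)
  have h1 := dz_il X τ z (a * b)
  rw [map_mul, map_mul, dz_il, dz_il X τ z b] at h1
  rw [il_mul, ← cjl_il]
  have h2 : (il (dz X τ z (a * b)) : SP S P) = (il (dz X τ z a) * X.th τ a *
      (il (dz X τ z b) * X.th τ b)) * (X.th τ a * X.th τ b)⁻¹ := by
    rw [h1]
    group
  rw [h2]
  group

theorem dz_of (τ z : V → S) (j : J) : dz X τ z (FreeGroup.of j) =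
    τ (X.pj j) * (z (X.pj j) * cjl (X.t j) (z (X.pj j))⁻¹) * (τ (X.pj j))⁻¹ := by
  apply il_inj (P := P)
  have h1 := dz_il X τ z (FreeGroup.of j)
  rw [th_of, th_of] at h1
  rw [il_mul, il_mul, il_mul, ← cjl_il, il_inv, il_inv]
  have h2 : (il (dz X τ z (FreeGroup.of j)) : SP S P) =
      cj (τ (X.pj j) * z (X.pj j)) (X.t j) * (cj (τ (X.pj j)) (X.t j))⁻¹ := by
    rw [h1]
    group
  rw [h2]
  unfold cj
  rw [il_mul]
  group

theorem dz_one (τ z : V → S) : dz X τ z 1 = 1 := by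
  have h := dz_mul X τ z 1 1
  rw [mul_one, map_one] at h
  have h1 : ∀ u : S, cjl (1 : SP S P) u = u := by
    intro u
    unfold cjl
    show (1 : S) * ((1 : P) • u) * (1 : S)⁻¹ = u
    rw [one_smul, one_mul, inv_one, mul_one]
  rw [h1] at h
  exact left_eq_mul.mp h

/-- the conjugators which do not change `H (m+1)` -/
def Zok (m : ℕ) (z : V → S) : Prop := ∀ j ∈ X.Jf, z (X.pj j) ∈ gm S (if X.pp j then m else m + 1)

theorem dz_of_mem {p k Mw q c : ℕ} {P' : Type} [Group P'] {Pi : SP S P →* P'}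
    (hX : X.Ok p k Mw q c Pi) {m : ℕ} {τ z : V → S} (hz : Zok X m z) (j : J) :
    dz X τ z (FreeGroup.of j) ∈ gm S (m + 1) ∧ gk (m + 1) (dz X τ z (FreeGroup.of j)) =
      if j ∈ X.Jf then (if X.pp j then -br m (X.y j) (gk m (z (X.pj j))) else
        gk (m + 1) (z (X.pj j)) - X.ph (FreeGroup.of j) • gk (m + 1) (z (X.pj j))) else 0 := by
  have key : ∀ u : S, u ∈ gm S (m + 1) → τ (X.pj j) * u * (τ (X.pj j))⁻¹ ∈ gm S (m + 1) ∧
      gk (m + 1) (τ (X.pj j) * u * (τ (X.pj j))⁻¹) = gk (m + 1) u := fun u hu =>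
    ⟨(gm_normal (m + 1)).conj_mem _ hu _, gk_conj hu _⟩
  by_cases hj : j ∈ X.Jf
  · rw [if_pos hj, dz_of]
    have hz' := hz j hj
    by_cases hp : X.pp j
    · rw [if_pos hp] at hz' ⊢
      have ht := hX.pt j hj hp
      have h1 : z (X.pj j) * cjl (X.t j) (z (X.pj j))⁻¹ = ⁅X.y j, z (X.pj j)⁆⁻¹ := by
        rw [ht]
        unfold cjl
        rw [il_left, il_right, one_smul, commutatorElement_def]
        group
      have h2 : ⁅X.y j, z (X.pj j)⁆ ∈ gm S (m + 1) := gm_comm' m hz'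
      rw [h1]
      obtain ⟨h3, h4⟩ := key _ (inv_mem h2)
      refine ⟨h3, ?_⟩
      rw [h4, gk_inv h2, br_gk _ hz']
    · rw [if_neg hp] at hz' ⊢
      have h1 : z (X.pj j) * cjl (X.t j) (z (X.pj j))⁻¹ ∈ gm S (m + 1) :=
        mul_mem hz' (cjl_mem _ (inv_mem hz'))
      obtain ⟨h3, h4⟩ := key _ h1
      refine ⟨h3, ?_⟩
      rw [h4, gk_mul hz' (cjl_mem _ (inv_mem hz')), cjl_gk _ (inv_mem hz'), gk_inv hz', smul_neg,
        ph_of, ← sub_eq_add_neg]
  · rw [if_neg hj, dz_of, hX.t1 j hj]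
    have h1 : z (X.pj j) * cjl (1 : SP S P) (z (X.pj j))⁻¹ = 1 := by
      unfold cjl
      show z (X.pj j) * ((1 : S) * ((1 : P) • (z (X.pj j))⁻¹) * (1 : S)⁻¹) = 1
      rw [one_smul, one_mul, inv_one, mul_one, mul_inv_cancel]
    rw [h1, mul_one, mul_inv_cancel]
    exact ⟨one_mem _, gk_one _⟩

theorem dz_mem {p k Mw q c : ℕ} {P' : Type} [Group P'] {Pi : SP S P →* P'}
    (hX : X.Ok p k Mw q c Pi) {m : ℕ} {τ z : V → S} (hz : Zok X m z) (w : FreeGroup J) :
    dz X τ z w ∈ gm S (m + 1) := by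
  refine FreeGroup.induction_on w ?_ ?_ ?_ ?_
  · rw [dz_one]
    exact one_mem _
  · intro j
    exact (dz_of_mem X hX hz j).1
  · intro j h
    have h1 := dz_mul X τ z (FreeGroup.of j) (FreeGroup.of j)⁻¹
    rw [mul_inv_cancel, dz_one] at h1
    have h2 : cjl (X.th τ (FreeGroup.of j)) (dz X τ z (FreeGroup.of j)⁻¹) =
        (dz X τ z (FreeGroup.of j))⁻¹ := (inv_eq_of_mul_eq_one_right h1.symm).symm
    have h3 : (il (dz X τ z (FreeGroup.of j)⁻¹) : SP S P) =
        il (cjl (X.th τ (FreeGroup.of j))⁻¹ (dz X τ z (FreeGroup.of j))⁻¹) := by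
      rw [← cjl_il, ← h2, ← cjl_il]
      group
    rw [il_inj h3]
    exact cjl_mem _ (inv_mem (dz_of_mem X hX hz j).1)
  · intro a b ha hb
    rw [dz_mul]
    exact mul_mem ha (cjl_mem _ hb)

/-- the classes form a crossed homomorphism -/
theorem dz_ch {p k Mw q c : ℕ} {P' : Type} [Group P'] {Pi : SP S P →* P'}
    (hX : X.Ok p k Mw q c Pi) {m : ℕ} {τ z : V → S} (hz : Zok X m z) :
    X.CHp fun w => gk (m + 1) (dz X τ z w) := by
  intro a b
  show gk (m + 1) (dz X τ z (a * b)) = _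
  rw [dz_mul, gk_mul (dz_mem X hX hz a) (cjl_mem _ (dz_mem X hX hz b)),
    cjl_gk _ (dz_mem X hX hz b), th_rt]

/-- the change of the values -/
def uz (τ z : V → S) (j : J) : S :=
  (z (X.pj j))⁻¹ * ((τ (X.pj j))⁻¹ * dz X τ z (X.W j) * τ (X.pj j)) *
    cjl (X.vl τ j) (z (X.pj j))

theorem uz_il (τ z : V → S) (j : J) :
    X.vl (fun v => τ v * z v) j = il (uz X τ z j) * X.vl τ j := by
  unfold uz
  rw [il_mul, ← cjl_il, il_mul, il_mul, il_mul, il_inv, il_inv]
  unfold AD.vl cj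
  rw [dz_il]
  simp only [il_mul, il_inv, mul_inv_rev, inv_inv]
  group

theorem uz_mem {p k Mw q c : ℕ} {P' : Type} [Group P'] {Pi : SP S P →* P'}
    (hX : X.Ok p k Mw q c Pi) {m : ℕ} {τ z : V → S} (hz : Zok X m z) {j : J} (hj : j ∈ X.Jf) :
    uz X τ z j ∈ gm S (m + 1) ∧ (¬ X.pp j → gk (m + 1) (uz X τ z j) =
      gk (m + 1) (dz X τ z (X.W j)) -
        (gk (m + 1) (z (X.pj j)) - X.ph (X.W j) • gk (m + 1) (z (X.pj j)))) := by
  have hz' := hz j hj
  have hd := dz_mem X hX (τ := τ) hz (X.W j)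
  have hd' : (τ (X.pj j))⁻¹ * dz X τ z (X.W j) * τ (X.pj j) ∈ gm S (m + 1) := by
    have := (gm_normal (m + 1)).conj_mem _ hd (τ (X.pj j))⁻¹
    rwa [inv_inv] at this
  have hd2 : gk (m + 1) ((τ (X.pj j))⁻¹ * dz X τ z (X.W j) * τ (X.pj j)) =
      gk (m + 1) (dz X τ z (X.W j)) := by
    have := gk_conj hd (τ (X.pj j))⁻¹
    rwa [inv_inv] at this
  by_cases hp : X.pp j
  · rw [if_pos hp] at hz'
    refine ⟨?_, fun h => absurd hp h⟩
    have hx : (X.vl τ j).right = 1 := by rw [vl_rt, hX.pw j hj hp]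
    have h1 : cjl (X.vl τ j) (z (X.pj j)) =
        (X.vl τ j).left * z (X.pj j) * ((X.vl τ j).left)⁻¹ := by
      unfold cjl
      rw [hx, one_smul]
    unfold uz
    rw [h1]
    have h2 : (z (X.pj j))⁻¹ * ((τ (X.pj j))⁻¹ * dz X τ z (X.W j) * τ (X.pj j)) *
        ((X.vl τ j).left * z (X.pj j) * ((X.vl τ j).left)⁻¹) =
        ((z (X.pj j))⁻¹ * ((τ (X.pj j))⁻¹ * dz X τ z (X.W j) * τ (X.pj j)) *
          ((z (X.pj j))⁻¹)⁻¹) * ⁅(z (X.pj j))⁻¹, (X.vl τ j).left⁆ := by
      rw [commutatorElement_def]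
      group
    rw [h2]
    exact mul_mem ((gm_normal (m + 1)).conj_mem _ hd' _) (gm_comm m (inv_mem hz'))
  · rw [if_neg hp] at hz'
    refine ⟨mul_mem (mul_mem (inv_mem hz') hd') (cjl_mem _ hz'), fun _ => ?_⟩
    unfold uz
    rw [gk_mul (mul_mem (inv_mem hz') hd') (cjl_mem _ hz'), gk_mul (inv_mem hz') hd',
      cjl_gk _ hz', gk_inv hz', hd2, vl_rt]
    abel

end fr

end H71.S3
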