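import Pool.Agent.H71.S3.Trf

/-!
# [H71 S3 TVZ] averaging with conjugations at the good places; the exact formula of stage 1

`gd`: the good letters (not bad, at a good place of `l`), `β j` the additive map `z ↦ [z, s_j]` (values of the crossed homomorphism at the good letters).
* `gd_sum`: sums over the good places.
* `avZ`: the sum over `x`, `m` is `0` unless `k (W_b) = 0` for all bad places and `e (B (k (d j)) (d j β_j u)) = 1` for all good letters `j` and all `u`.
* `hon`: the values at the bad letters of the crossed homomorphisms `k` with `k (W_b) = 0`. `one_ex`: the exact formula for the number of `m` with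
  `c (d j) - (1 - d j) m = δ j` for all bad letters.
-/

set_option autoImplicit false

open scoped commutatorElement
open scoped Classical

noncomputable section

namespace H71.S3

open H1.S3

/-- the sum over the good letters -/
theorem gd_sum {J W G : Type} [AddCommMonoid G] {bd : J → Prop} {bw : W → Prop} {pj : J → W}
    {bl : W → List J} {l : List W} (hf : Frm bd bw pj bl l) (gd : J → Prop)
    [Fintype {j // gd j}] (hgd : ∀ j, gd j → pj j ∈ l ∧ ¬ bw (pj j) ∧ bl (pj j) = [j])
    (hpl : ∀ v ∈ l, ∀ j ∈ bl v, pj j = v) (f : J → G) (h0 : ∀ j, ¬ gd j → f j = 0) :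
    ((l.filter fun v => ¬ bw v).map fun v => ((bl v).map f).sum).sum =
      ∑ j : {j // gd j}, f j.1 := by
  have key : ∀ ks : List W, ks.Nodup → (∀ v ∈ ks, v ∈ l ∧ ¬ bw v) →
      (ks.map fun v => ((bl v).map f).sum).sum =
        ∑ j ∈ Finset.univ.filter fun j : {j // gd j} => pj j.1 ∈ ks, f j.1 := by
    intro ks
    induction ks with
    | nil => intro _ _; simp
    | cons v ks ih =>
      intro h1 h2
      obtain ⟨h3, h4⟩ := List.nodup_cons.1 h1
      rw [List.map_cons, List.sum_cons, ih h4 fun i hi => h2 i (List.mem_cons_of_mem _ hi)]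
      obtain ⟨h5, h6⟩ := h2 v List.mem_cons_self
      by_cases hg : ∃ j, gd j ∧ pj j = v
      · obtain ⟨j, hg, hpj⟩ := hg
        have hj2 : bl v = [j] := hpj ▸ (hgd j hg).2.2
        have h7 : ((bl v).map f).sum = f j := by
          rw [hj2, List.map_cons, List.map_nil, List.sum_cons, List.sum_nil, add_zero]
        have h8 : ∀ j' : {j // gd j}, pj j'.1 = v → j'.1 = j := by
          intro j' h
          have h9 := (hgd j'.1 j'.2).2.2
          rw [h, hj2] at h9
          simpa using h9.symm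
        rw [h7]
        have h9 : (Finset.univ.filter fun j : {j // gd j} => pj j.1 ∈ v :: ks) =
            insert ⟨j, hg⟩ (Finset.univ.filter fun j : {j // gd j} => pj j.1 ∈ ks) := by
          ext j'
          simp only [Finset.mem_filter, Finset.mem_univ, true_and, List.mem_cons,
            Finset.mem_insert]
          constructor
          · rintro (h | h)
            · exact Or.inl (Subtype.ext (h8 j' h))
            · exact Or.inr h
          · rintro (h | h)
            · exact Or.inl (by rw [h]; exact hpj)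
            · exact Or.inr h
        rw [h9, Finset.sum_insert]
        rw [Finset.mem_filter, hpj]
        exact fun h => h3 h.2
      · have h7 : ((bl v).map f).sum = 0 := by
          refine List.sum_eq_zero ?_
          intro x hx
          obtain ⟨j, hj, rfl⟩ := List.mem_map.1 hx
          exact h0 j fun h => hg ⟨j, h, hpl v h5 j hj⟩
        rw [h7, zero_add]
        refine Finset.sum_congr ?_ fun _ _ => rfl
        ext j'
        simp only [Finset.mem_filter, Finset.mem_univ, true_and, List.mem_cons]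
        constructor
        · exact fun h => Or.inr h
        · rintro (h | h)
          · exact absurd ⟨j'.1, j'.2, h⟩ hg
          · exact h
  rw [key _ (hf.nd.filter _) (fun v hv => by
    rw [List.mem_filter] at hv
    exact ⟨hv.1, by simpa using hv.2⟩)]
  refine Finset.sum_congr ?_ fun _ _ => rfl
  ext j
  simp only [Finset.mem_filter, Finset.mem_univ, true_and, iff_true, List.mem_filter]
  exact ⟨(hgd j.1 j.2).1, by simpa using (hgd j.1 j.2).2.1⟩

section main

variable {J W : Type} {M N A : Type} [AddCommGroup M] [AddCommGroup N] [AddCommGroup A]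
  [DistribMulAction (FreeGroup J) M] [DistribMulAction (FreeGroup J) N] {B : N →+ M →+ A}

/-- THE AVERAGING with conjugations at the good places -/
theorem avZ [Finite M] (bd : J → Prop) (bw : W → Prop) (pj : J → W) [Fintype {j // bd j}]
    [Fintype {v // bw v}] [Fintype ({v // bw v} → M)] (bl : W → List J) (l : List W)
    (hf : Frm bd bw pj bl l) (hB : Ivt (FreeGroup J) B) (Φ : Fil (FreeGroup J) M)
    {k : FreeGroup J → N} (hk : CH k) (hkt : ∀ j, ¬ bd j → k (FreeGroup.of j) = 0)
    (htN : ∀ j, ¬ bd j → ∀ n : N, (FreeGroup.of j : FreeGroup J) • n = n)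
    (htM : ∀ j, ¬ bd j → ∀ m : M, (FreeGroup.of j : FreeGroup J) • m = m)
    (d : J → FreeGroup J)
    (hW : ∀ v, bw v → ∀ y : M, wd FreeGroup.of d (bl v) • y = y) (ok : J → Prop)
    (hok : ∀ j, bd j → ok j)
    (hrel : ∀ (c : FreeGroup J → M) (z : FreeGroup J → A), CH c →
      (∀ j, ¬ ok j → c (FreeGroup.of j) = 0) → Zf B k c z → (∀ j, z (FreeGroup.of j) = 0) →
      z (l.map fun v => wd FreeGroup.of d (bl v)).prod = 0)
    (e : AddChar A ℂ) (hnd : ∀ n : N, n ≠ 0 → ∃ m : M, e (B n m) ≠ 1)
    (gd : J → Prop) [Fintype {j // gd j}]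
    (hgd : ∀ j, gd j → pj j ∈ l ∧ ¬ bw (pj j) ∧ bl (pj j) = [j])
    (hpl : ∀ v ∈ l, ∀ j ∈ bl v, pj j = v) (hgo : ∀ j, gd j → ok j) {U : Type}
    [AddCommGroup U] [Fintype ({j // gd j} → U)] (β : J → U →+ M)
    (h : ¬ ((∀ v, bw v → k (wd FreeGroup.of d (bl v)) = 0) ∧
      ∀ j, gd j → ∀ u, e (B (k (d j)) (d j • β j u)) = 1)) :
    ∑ x : {j // gd j} → U, ∑ m : {v // bw v} → M,
      e (∑ j : {j // bd j}, B (zeta k FreeGroup.of d (bl (pj j.1)) j.1)
        (cV bd bw pj (fun j => β j (exb gd x j)) m (d j.1) -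
          dm (exb bw m (pj j.1)) (d j.1))) = 0 := by
  have hnb : ∀ j, gd j → ¬ bd j := fun j hj hb => (hgd j hj).2.1 (hf.bdw j hb)
  have h1 := fun x : {j // gd j} → U => avU bd bw pj bl l hf hB Φ hk hkt htN htM d hW ok hok hrel
    e hnd (fun j => β j (exb gd x j)) (fun j hj => by
      rw [exb_no gd x fun hg => hj (hgo j hg), map_zero])
  simp_rw [h1]
  by_cases hh : ∀ v, bw v → k (wd FreeGroup.of d (bl v)) = 0
  · simp_rw [if_pos hh]
    rw [← Finset.mul_sum]
    have h2 : ∀ x : {j // gd j} → U, ((l.filter fun v => ¬ bw v).map fun v =>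
            ((bl v).map fun j => B (k (d j)) (d j • β j (exb gd x j))).sum).sum -
            ∑ j : {j // bd j}, B (zet' k FreeGroup.of d (bl (pj j.1)) j.1)
              (β j.1 (exb gd x j.1)) =
        ∑ j : {j // gd j}, ((B (k (d j.1))).comp
          ((DistribSMul.toAddMonoidHom M (d j.1)).comp (β j.1))) (x j) := by
      intro x
      have h3 : ∑ j : {j // bd j}, B (zet' k FreeGroup.of d (bl (pj j.1)) j.1)
              (β j.1 (exb gd x j.1)) = 0 := by
        refine Finset.sum_eq_zero fun j _ => ?_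
        rw [exb_no gd x fun hg => hnb j.1 hg j.2, map_zero, map_zero]
      rw [h3, sub_zero, gd_sum hf gd hgd hpl (fun j => B (k (d j)) (d j • β j (exb gd x j)))
        (fun j hj => by rw [exb_no gd x hj, map_zero, smul_zero, map_zero])]
      refine Finset.sum_congr rfl fun j _ => ?_
      rw [exb_of]
      rfl
    simp_rw [h2]
    rw [lin_sum e, mul_zero]
    have h4 : ¬ ∀ j, gd j → ∀ u, e (B (k (d j)) (d j • β j u)) = 1 := fun h5 => h ⟨hh, h5⟩
    push Not at h4
    obtain ⟨j, hj, u, hu⟩ := h4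
    exact ⟨⟨j, hj⟩, u, hu⟩
  · simp_rw [if_neg hh]
    rw [Finset.sum_const_zero]

/-- the values at the bad letters of the crossed homomorphisms with `k (W_b) = 0` -/
def Hon (N : Type) [AddCommGroup N] [DistribMulAction (FreeGroup J) N] (bd : J → Prop)
    (bw : W → Prop) (d : J → FreeGroup J) (bl : W → List J) (f : {j // bd j} → N) : Prop :=
  ∀ v, bw v → chl (exb bd f) (wd FreeGroup.of d (bl v)) = 0

theorem ach_sum {ι A : Type} [AddCommGroup A] [Fintype ι] (e : AddChar A ℂ) (f : ι → A) :
    e (∑ i, f i) = ∏ i, e (f i) := by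
  have h : ∀ s : Finset ι, e (∑ i ∈ s, f i) = ∏ i ∈ s, e (f i) := by
    intro s
    induction s using Finset.induction_on with
    | empty => rw [Finset.sum_empty, Finset.prod_empty, AddChar.map_zero_eq_one]
    | insert i s hi ih => rw [Finset.sum_insert hi, Finset.prod_insert hi,
        AddChar.map_add_eq_mul, ih]
  exact h _

/-- Fourier inversion -/
theorem fou_ind [Fintype N] (e : AddChar A ℂ) (hnd' : ∀ m : M, m ≠ 0 → ∃ n : N, e (B n m) ≠ 1)
    (x : M) : ∑ n : N, e (B n x) = if x = 0 then (Fintype.card N : ℂ) else 0 := by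
  split_ifs with h
  · rw [h]
    simp
  · obtain ⟨n, hn⟩ := hnd' x h
    have h3 : e.compAddMonoidHom (B.flip x) ≠ 0 := by
      intro h1
      apply hn
      have := DFunLike.congr_fun h1 n
      rwa [AddChar.compAddMonoidHom_apply, AddChar.zero_apply] at this
    exact AddChar.sum_eq_zero_iff_ne_zero.mpr h3

/-- THE EXACT FORMULA OF STAGE 1 -/
theorem one_ex [Finite M] [Finite N] (bd : J → Prop) (bw : W → Prop) (pj : J → W)
    [Fintype {j // bd j}] [Fintype {v // bw v}] [Fintype ({v // bw v} → M)]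
    [Fintype ({j // bd j} → N)] (bl : W → List J) (l : List W)
    (hf : Frm bd bw pj bl l) (hB : Ivt (FreeGroup J) B) (Φ : Fil (FreeGroup J) M)
    (Φ' : Fil (FreeGroup J) N)
    (htN : ∀ j, ¬ bd j → ∀ n : N, (FreeGroup.of j : FreeGroup J) • n = n)
    (htM : ∀ j, ¬ bd j → ∀ m : M, (FreeGroup.of j : FreeGroup J) • m = m)
    (d : J → FreeGroup J)
    (hW : ∀ v, bw v → ∀ y : M, wd FreeGroup.of d (bl v) • y = y) (ok : J → Prop)
    (hok : ∀ j, bd j → ok j)
    (hrel : ∀ (k : FreeGroup J → N) (c : FreeGroup J → M) (z : FreeGroup J → A), CH k →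
      (∀ j, ¬ bd j → k (FreeGroup.of j) = 0) → CH c →
      (∀ j, ¬ ok j → c (FreeGroup.of j) = 0) → Zf B k c z → (∀ j, z (FreeGroup.of j) = 0) →
      z (l.map fun v => wd FreeGroup.of d (bl v)).prod = 0)
    (e : AddChar A ℂ) (hnd : ∀ n : N, n ≠ 0 → ∃ m : M, e (B n m) ≠ 1)
    (hnd' : ∀ m : M, m ≠ 0 → ∃ n : N, e (B n m) ≠ 1) (g : J → M)
    (hg : ∀ j, ¬ ok j → g j = 0) (δ : {j // bd j} → M) :
    (Nat.card N : ℂ) ^ Fintype.card {j // bd j} *
      (Nat.card {m : {v // bw v} → M // ∀ j : {j // bd j},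
        cV bd bw pj g m (d j.1) - dm (exb bw m (pj j.1)) (d j.1) = δ j} : ℂ) =
      (Nat.card M : ℂ) ^ Fintype.card {v // bw v} *
      ∑ f ∈ Finset.univ.filter (fun f : {j // bd j} → N => Hon N bd bw d bl f),
        e (((l.filter fun v => ¬ bw v).map fun v => ((bl v).map fun j =>
            B (chl (exb bd f) (d j)) (d j • g j)).sum).sum -
          ∑ j : {j // bd j}, B (zet' (chl (exb bd f)) FreeGroup.of d (bl (pj j.1)) j.1) (g j.1) -
          ∑ j : {j // bd j}, B (zeta (chl (exb bd f)) FreeGroup.of d (bl (pj j.1)) j.1) (δ j)) := by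
  have hFN : Fintype N := Fintype.ofFinite N
  set kf : ({j // bd j} → N) → FreeGroup J → N := fun f => chl (exb bd f) with hkf
  have hkc : ∀ f, CH (kf f) := fun f => chl_ch _
  have hkt : ∀ f j, ¬ bd j → kf f (FreeGroup.of j) = 0 := fun f j hj => by
    rw [hkf]
    show chl (exb bd f) (FreeGroup.of j) = 0
    rw [chl_of, exb_no bd _ hj]
  set y : ({v // bw v} → M) → {j // bd j} → M := fun m j =>
    cV bd bw pj g m (d j.1) - dm (exb bw m (pj j.1)) (d j.1) with hy
  set Z : ({j // bd j} → N) ≃ ({j // bd j} → N) := Equiv.ofBijective _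
    (zbijU bd Φ' d fun j => bl (pj j)) with hZ
  have hZa : ∀ f j, Z f j = zeta (kf f) FreeGroup.of d (bl (pj j.1)) j.1 := fun _ _ => rfl
  have h1 : ∀ m : {v // bw v} → M, (if ∀ j, y m j = δ j then
      (Nat.card N : ℂ) ^ Fintype.card {j // bd j} else 0) =
      ∑ f : {j // bd j} → N, e (∑ j, B (Z f j) (y m j - δ j)) := by
    intro m
    rw [Z.sum_comp fun ξ : {j // bd j} → N => e (∑ j, B (ξ j) (y m j - δ j))]
    have h2 : ∀ ξ : {j // bd j} → N, e (∑ j, B (ξ j) (y m j - δ j)) =
        ∏ j, e (B (ξ j) (y m j - δ j)) := fun ξ => ach_sum e _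
    simp_rw [h2]
    have h3 := (Finset.prod_univ_sum (fun _ : {j // bd j} => (Finset.univ : Finset N))
      (fun j n => e (B n (y m j - δ j)))).symm
    rw [Fintype.piFinset_univ] at h3
    have h4 : ∑ ξ : {j // bd j} → N, ∏ j, e (B (ξ j) (y m j - δ j)) =
        ∏ j, ∑ n : N, e (B n (y m j - δ j)) := by
      have hk : ∀ (i1 i2 : Fintype ({j // bd j} → N)) (F : ({j // bd j} → N) → ℂ),
          @Finset.sum _ _ _ (@Finset.univ _ i1) F = @Finset.sum _ _ _ (@Finset.univ _ i2) F :=
        fun i1 i2 F => by rw [Subsingleton.elim i1 i2]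
      exact (hk _ _ _).trans h3
    rw [h4]
    simp_rw [fou_ind e hnd']
    by_cases hh : ∀ j, y m j = δ j
    · rw [if_pos hh, Finset.prod_congr rfl fun j _ => if_pos (sub_eq_zero.2 (hh j)),
        Finset.prod_const, Finset.card_univ, Nat.card_eq_fintype_card]
    · rw [if_neg hh]
      push Not at hh
      obtain ⟨j, hj⟩ := hh
      exact (Finset.prod_eq_zero (Finset.mem_univ j) (if_neg (sub_ne_zero.2 hj))).symm
  have h5 : (Nat.card N : ℂ) ^ Fintype.card {j // bd j} *
      (Nat.card {m : {v // bw v} → M // ∀ j : {j // bd j}, y m j = δ j} : ℂ) =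
      ∑ m : {v // bw v} → M, ∑ f : {j // bd j} → N, e (∑ j, B (Z f j) (y m j - δ j)) := by
    rw [← Finset.sum_congr rfl fun m _ => h1 m, ← Finset.sum_filter, Finset.sum_const,
      nsmul_eq_mul, mul_comm]
    congr 1
    rw [Nat.card_eq_fintype_card, Fintype.card_subtype]
  show (Nat.card N : ℂ) ^ Fintype.card {j // bd j} *
      (Nat.card {m : {v // bw v} → M // ∀ j : {j // bd j}, y m j = δ j} : ℂ) = _
  rw [h5, Finset.sum_comm, Finset.mul_sum, Finset.sum_filter]
  refine Finset.sum_congr rfl fun f _ => ?_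
  have h6 : ∀ m : {v // bw v} → M, e (∑ j, B (Z f j) (y m j - δ j)) =
      e (∑ j : {j // bd j}, B (zeta (kf f) FreeGroup.of d (bl (pj j.1)) j.1)
        (cV bd bw pj g m (d j.1) - dm (exb bw m (pj j.1)) (d j.1))) *
      e (-∑ j : {j // bd j}, B (Z f j) (δ j)) := by
    intro m
    rw [← AddChar.map_add_eq_mul]
    congr 1
    rw [← sub_eq_add_neg, ← Finset.sum_sub_distrib]
    refine Finset.sum_congr rfl fun j _ => ?_
    rw [map_sub, hZa]
  simp_rw [h6]
  rw [← Finset.sum_mul, avU bd bw pj bl l hf hB Φ (hkc f) (hkt f) htN htM d hW ok hok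
    (fun c z hc h0 hz hz0 => hrel (kf f) c z (hkc f) (hkt f) hc h0 hz hz0) e hnd g hg]
  have h7 : (Fintype.card ({v // bw v} → M) : ℂ) =
      (Nat.card M : ℂ) ^ Fintype.card {v // bw v} := by
    rw [← Nat.card_eq_fintype_card, Nat.card_fun, Nat.card_eq_fintype_card (α := {v // bw v})]
    push_cast
    rfl
  unfold Hon
  split_ifs with hh
  · rw [h7, mul_assoc, ← AddChar.map_add_eq_mul, ← sub_eq_add_neg]
    rfl
  · rw [zero_mul]

end main

end H71.S3
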