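import Pool.Agent.H73.S3.Fou
import Pool.Agent.H71.S3.Sdp
import Pool.Agent.H71.S3.Tvz

/-!
# [H71 S3 TVA] preparations for the averaging (MP_b39724_nt, stage 3, chapter B)

* `sml_c`: small groups. `rr_vl'`: the relation for the actual values.
* `gr_pow`, `du_pow`: cardinalities are powers of `p`. `filD`, `filG`: filtrations. `kx_ex'`: existence of `k` with `Kx η k`.
* `hz_rel`: the pairing function of the relation is `0`.
* `Bd`, `Bw`, `Gdl`: bad letters, bad places, good letters of `AD`. `frm_ok`: the frame `Frm`.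
-/

set_option autoImplicit false

open scoped commutatorElement
open scoped Classical

noncomputable section

namespace H71.S3

open H1.S3 H73.S3

attribute [local instance 50] Fintype.ofFinite

theorem sml_c {p k Mw : ℕ} (hp : p.Prime) (hk : Mw ≤ p ^ k) {H : Type} [Group H] [Finite H]
    (hH : IsPGroup p H) (hM : Nat.card H ≤ Mw) : H77.S3.Sml p k Mw H := by
  have := Fact.mk hp
  refine ⟨hH, hM, fun h => ?_⟩
  obtain ⟨r, hr⟩ := (IsPGroup.iff_card).mp hH
  have h1 : r ≤ k := by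
    have h2 : p ^ r ≤ p ^ k := by
      rw [← hr]
      exact hM.trans hk
    exact (Nat.pow_le_pow_iff_right hp.one_lt).1 h2
  obtain ⟨s, hs⟩ := pow_dvd_pow p h1
  rw [hs, pow_mul, ← hr, pow_card_eq_one', one_pow]

theorem wd_congr {I F : Type} [Group F] {a d a' d' : I → F} {l : List I}
    (h : ∀ i ∈ l, a i = a' i ∧ d i = d' i) : wd a d l = wd a' d' l := by
  unfold wd
  congr 1
  apply List.map_congr_left
  intro i hi
  rw [(h i hi).1, (h i hi).2]

theorem map_wd {I F F' : Type} [Group F] [Group F'] (f : F →* F') (a d : I → F) (l : List I) :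
    f (wd a d l) = wd (fun i => f (a i)) (fun i => f (d i)) l := by
  unfold wd
  rw [map_list_prod, List.map_map]
  congr 1
  apply List.map_congr_left
  intro i _
  exact map_commutatorElement f _ _

section fr

variable {S P : Type} [Group S] [Group P] [MulDistribMulAction P S] {J V : Type}

theorem sp_card [Finite S] [Finite P] : Nat.card (SP S P) = Nat.card S * Nat.card P := by
  rw [← Nat.card_prod]
  exact Nat.card_congr ⟨fun x => (x.left, x.right), fun x => ⟨x.1, x.2⟩, fun _ => rfl, fun _ => rfl⟩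

theorem sp_finite [Finite S] [Finite P] : Finite (SP S P) :=
  Finite.of_injective (fun x : SP S P => (x.left, x.right)) fun x y h => by
    simp only [Prod.mk.injEq] at h
    exact SemidirectProduct.ext h.1 h.2

theorem rr_vl' [Fintype S] (X : AD S P J V) {p k Mw q c : ℕ} [NeZero q] {P' : Type} [Group P']
    [Finite P] {Pi : SP S P →* P'} (hp : p.Prime) (hX : X.Ok p k Mw q c Pi) (τ : V → S) :
    X.RR τ (X.vl τ) = 1 := by
  have hf : Finite (SP S P) := sp_finite
  have hq : 1 ≤ q := Nat.one_le_iff_ne_zero.2 (NeZero.ne q)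
  have hS : 1 ≤ Nat.card S := Nat.card_pos
  have hsm : H77.S3.Sml p k Mw (SP S P) := by
    refine sml_c hp hX.kM hX.pg (le_trans ?_ hX.mx)
    rw [sp_card, mul_comm (Nat.card S), mul_assoc]
    refine Nat.mul_le_mul_left _ ?_
    nlinarith
  have h1 := hX.rel (SP S P) hsm (X.th τ) (fun j hj => by rw [th_of, hX.t1 j hj, cj_one])
  rw [← h1]
  unfold AD.RR
  congr 1
  apply List.map_congr_left
  intro v _
  unfold AD.bk
  rw [cj_wd]
  refine wd_congr fun i hi => ?_
  have h2 := hX.bp v i hi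
  rw [th_of, h2]
  refine ⟨rfl, ?_⟩
  unfold AD.vl
  rw [cj_cj, h2, mul_inv_cancel, cj_id]

theorem pg_S {p : ℕ} (h : IsPGroup p (SP S P)) : IsPGroup p S :=
  h.of_injective (SemidirectProduct.inl : S →* SP S P) SemidirectProduct.inl_injective

theorem pg_P {p : ℕ} (h : IsPGroup p (SP S P)) : IsPGroup p P :=
  h.of_surjective (SemidirectProduct.rightHom : SP S P →* P) SemidirectProduct.rightHom_surjective

omit [MulDistribMulAction P S] [Group P] in
theorem gr_card_eq (m : ℕ) : Nat.card (Gr S m) =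
    Nat.card (gm S m ⧸ (gm S (m + 1)).subgroupOf (gm S m)) := rfl

omit [MulDistribMulAction P S] [Group P] in
theorem gr_pow [Finite S] {p : ℕ} (hp : p.Prime) (h : IsPGroup p S) (m : ℕ) :
    ∃ r, Nat.card (Gr S m) = p ^ r := by
  have := Fact.mk hp
  rw [gr_card_eq]
  exact (IsPGroup.iff_card).mp ((h.to_subgroup _).to_quotient _)

omit [MulDistribMulAction P S] [Group P] in
theorem gr_le [Finite S] (m : ℕ) : Nat.card (Gr S m) ≤ Nat.card S := by
  rw [gr_card_eq]
  exact (Nat.card_le_card_of_surjective _ (QuotientGroup.mk_surjective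
    (s := (gm S (m + 1)).subgroupOf (gm S m)))).trans
    (Nat.card_le_card_of_injective _ (Subgroup.subtype_injective (gm S m)))

/-- the filtrations -/
theorem filG [Finite S] [Finite P] {p : ℕ} (hp : p.Prime) (h : IsPGroup p (SP S P)) (m : ℕ) :
    Nonempty (Fil P (Gr S m)) := by
  have := Fact.mk hp
  exact fil_p (pg_P h) (gr_pow hp (pg_S h) m)

theorem filD [Finite S] [Finite P] {p q : ℕ} [NeZero q] (hp : p.Prime)
    (h : IsPGroup p (SP S P)) (hq : ∀ s : S, s ^ q = 1) (m : ℕ) :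
    Nonempty (Fil P (Du S q m)) := by
  have := Fact.mk hp
  refine fil_p (pg_P h) ?_
  rw [du_card hq]
  exact gr_pow hp (pg_S h) m

/-- the action of the free group -/
abbrev fact {F Q M : Type} [Group F] [Group Q] [AddCommGroup M] [DistribMulAction Q M]
    (ρ : F →* Q) : DistribMulAction F M := DistribMulAction.compHom M ρ

theorem kx_ex' [Fintype S] (X : AD S P J V) {p k Mw q c : ℕ} [NeZero q] {P' : Type} [Group P']
    [Finite P] {Pi : SP S P →* P'} (hp : p.Prime) (hX : X.Ok p k Mw q c Pi) (m : ℕ)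
    (η : X.Jf → Du S q m × Du S q (m + 1)) : ∃ k, X.Kx η k := by
  let iN : DistribMulAction (FreeGroup J) (Du S q (m + 1)) := fact X.ph
  obtain ⟨Φ₀⟩ := filD (P := P) hp hX.pg hX.qe (m + 1)
  have Φ : Fil (FreeGroup J) (Du S q (m + 1)) := Φ₀.map X.ph fun x n => rfl
  set bd : J → Prop := fun j => j ∈ X.Jf ∧ ¬ X.pp j with hbd
  have hfin : Finite {j // bd j} := Finite.of_injective
    (fun j : {j // bd j} => (⟨j.1, j.2.1⟩ : X.Jf)) fun _ _ h => Subtype.ext (congrArg (·.1) h)
  obtain ⟨f, hf⟩ := (zbijU bd Φ X.W fun j => X.bl (X.pj j)).2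
    fun j : {j // bd j} => (η ⟨j.1, j.2.1⟩).2
  refine ⟨chl (exb bd f), chl_ch _, fun j hj => ?_, fun j hj => ?_⟩
  · rw [chl_of, exb_no bd f hj]
  · exact congrFun hf ⟨j.1, j.2, hj⟩

/-- the pairing -/
def bil (S : Type) [Group S] (q m : ℕ) : Du S q m →+ Gr S m →+ ZMod q where
  toFun χ := χ.ap
  map_zero' := rfl
  map_add' _ _ := rfl

theorem bil_ap (q m : ℕ) (χ : Du S q m) (a : Gr S m) : bil S q m χ a = χ.ap a := rfl

theorem bil_ivt (q m : ℕ) : Ivt P (bil S q m) := by
  intro x n a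
  rw [bil_ap, bil_ap, ap_smul, inv_smul_smul]

/-- the pairing function of the relation -/
theorem hz_rel [Fintype S] (X : AD S P J V) {p k Mw q c : ℕ} [NeZero q] {P' : Type} [Group P']
    [Finite P] {Pi : SP S P →* P'} (hp : p.Prime) (hX : X.Ok p k Mw q c Pi) (m : ℕ)
    (kk : FreeGroup J → Du S q m) (hk : X.CHp kk)
    (hk0 : ∀ j, j ∉ X.Jf → kk (FreeGroup.of j) = 0) (cc : FreeGroup J → Gr S m)
    (hc : X.CHp cc) (hc0 : ∀ j, j ∉ X.Jf → cc (FreeGroup.of j) = 0) (z : FreeGroup J → ZMod q)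
    (hz : ∀ x y, z (x * y) = z x + z y + (kk x).ap (X.ph x • cc y))
    (hz0 : ∀ j, z (FreeGroup.of j) = 0) :
    z (X.l.map fun v => wd FreeGroup.of X.W (X.bl v)).prod = 0 := by
  have hpf := Fact.mk hp
  have hI : Fact (Ivt P (bil S q m)) := ⟨bil_ivt q m⟩
  let iN : DistribMulAction (FreeGroup J) (Du S q m) := fact X.ph
  let iM : DistribMulAction (FreeGroup J) (Gr S m) := fact X.ph
  let θ : FreeGroup J →* Hz (bil S q m) P := hz_hom (B := bil S q m) X.ph
    (fun x m => rfl) (fun x n => rfl) (k := kk) (c := cc) (z := z) hk hc hz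
  have hfin : Finite (Hz (bil S q m) P) := hz_finite
  have hcard : Nat.card (Hz (bil S q m) P) =
      Nat.card P * Nat.card (Du S q m) * Nat.card (Gr S m) * q := by
    rw [hz_card, Nat.card_zmod]
  have hpg : IsPGroup p (Hz (bil S q m) P) := by
    rw [IsPGroup.iff_card]
    obtain ⟨a, ha⟩ := (IsPGroup.iff_card).mp (pg_P hX.pg)
    obtain ⟨b, hb⟩ := gr_pow hp (pg_S hX.pg) m
    obtain ⟨r, hr⟩ := hX.qp
    exact ⟨a + b + b + r, by rw [hcard, du_card hX.qe, ha, hb, hr, pow_add, pow_add, pow_add]⟩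
  have hsm : H77.S3.Sml p k Mw (Hz (bil S q m) P) := by
    refine sml_c hp hX.kM hpg (le_trans ?_ hX.mx)
    rw [hcard, du_card hX.qe, mul_assoc (Nat.card P), sq]
    exact Nat.mul_le_mul_right _ (Nat.mul_le_mul_left _ (Nat.mul_le_mul (gr_le m) (gr_le m)))
  have h1 := hX.rel (Hz (bil S q m) P) hsm θ (fun j hj => by
    have h2 : θ (FreeGroup.of j) = ⟨X.ph (FreeGroup.of j), kk (FreeGroup.of j),
      cc (FreeGroup.of j), z (FreeGroup.of j)⟩ := rfl
    rw [h2, hk0 j hj, hc0 j hj, hz0, ph_of, hX.t1 j hj]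
    rfl)
  have h2 : (X.l.map fun v => wd (fun j => θ (FreeGroup.of j)) (fun j => θ (X.W j))
      (X.bl v)).prod = θ (X.l.map fun v => wd FreeGroup.of X.W (X.bl v)).prod := by
    rw [map_list_prod, List.map_map]
    congr 1
    apply List.map_congr_left
    intro v _
    exact (map_wd θ _ _ _).symm
  rw [h2] at h1
  have h3 := congrArg (fun x : Hz (bil S q m) P => x.a) h1
  exact h3

/-- bad letters -/
def Bd (X : AD S P J V) (j : J) : Prop := j ∈ X.Jf ∧ ¬ X.pp j

/-- bad places -/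
def Bw (X : AD S P J V) (v : V) : Prop := ∃ j, Bd X j ∧ X.pj j = v

/-- good letters -/
def Gdl (X : AD S P J V) (j : J) : Prop := j ∈ X.Jf ∧ X.pp j

theorem bd_fin (X : AD S P J V) : Finite {j // Bd X j} := Finite.of_injective
    (fun j : {j // Bd X j} => (⟨j.1, j.2.1⟩ : X.Jf)) fun _ _ h => Subtype.ext (congrArg (·.1) h)

theorem gd_fin (X : AD S P J V) : Finite {j // Gdl X j} := Finite.of_injective
    (fun j : {j // Gdl X j} => (⟨j.1, j.2.1⟩ : X.Jf)) fun _ _ h => Subtype.ext (congrArg (·.1) h)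

theorem bw_fin (X : AD S P J V) : Finite {v // Bw X v} := by
  have := bd_fin X
  refine Finite.of_surjective (fun j : {j // Bd X j} => (⟨X.pj j.1, j.1, j.2, rfl⟩ : {v // Bw X v}))
    ?_
  rintro ⟨v, j, hj, rfl⟩
  exact ⟨⟨j, hj⟩, rfl⟩

theorem bw_pp {X : AD S P J V} {p k Mw q c : ℕ} {P' : Type} [Group P'] {Pi : SP S P →* P'}
    (hX : X.Ok p k Mw q c Pi) {j : J} (hj : j ∈ X.Jf) (hp : X.pp j) : ¬ Bw X (X.pj j) := by
  rintro ⟨i, ⟨hi1, hi2⟩, hi3⟩
  have h1 := (hX.jl i hi1).2
  rw [hi3, hX.pb j hj hp, List.mem_singleton] at h1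
  exact hi2 (h1 ▸ hp)

theorem frm_ok {X : AD S P J V} {p k Mw q c : ℕ} {P' : Type} [Group P'] {Pi : SP S P →* P'}
    (hX : X.Ok p k Mw q c Pi) : Frm (Bd X) (Bw X) X.pj X.bl X.l where
  nd := hX.nd
  bn := by
    rintro v ⟨j, hj, rfl⟩
    exact hX.bn _ (hX.jl j hj.1).1
  bdw := fun j hj => ⟨j, hj, rfl⟩
  bwl := by
    rintro v ⟨j, hj, rfl⟩
    exact (hX.jl j hj.1).1
  mem := by
    rintro v ⟨j, hj, rfl⟩ i
    constructor
    · intro hi
      have h1 := hX.bp _ i hi
      have h2 := hX.al j hj.1 i hi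
      refine ⟨h1, h2, fun hpi => ?_⟩
      have h3 := hX.pb i h2 hpi
      have h4 := (hX.jl j hj.1).2
      rw [← h1, h3, List.mem_singleton] at h4
      exact hj.2 (h4 ▸ hpi)
    · rintro ⟨h1, h2⟩
      rw [← h1]
      exact (hX.jl i h2.1).2
  good := by
    intro v hv hnb j hj hbd
    exact hnb ⟨j, hbd, hX.bp v j hj⟩

end fr

end H71.S3
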