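import Pool.Agent.H73.S3.Nnx
import Pool.Agent.H71.S3.Tva

/-!
# [H71 S3 TVB] averaging over the conjugations (MP_b39724_nt, stage 3, chapter B)

* `h_jf`: `H m` depends only on the values at `Jf`. `hh_mv`: the change of the Fourier coefficients.
* `Zg`: the group of the conjugators which do not change `H (m+1)`; `clz`: their classes. `sum_hom`.
-/

set_option autoImplicit false

open scoped commutatorElement
open scoped Classical

noncomputable section

namespace H71.S3

open H1.S3 H73.S3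

attribute [local instance 50] Fintype.ofFinite

variable {S P : Type} [Group S] [Group P] [MulDistribMulAction P S] {J V : Type}

/-- `H m` depends only on the values at `Jf` -/
theorem h_jf [Fintype S] (X : AD S P J V) {p k Mw q c : ℕ} {P' : Type} [Group P']
    {Pi : SP S P →* P'} (hX : X.Ok p k Mw q c Pi) (m : ℕ) (τ : V → S) {x x' : J → SP S P}
    (h : ∀ j ∈ X.Jf, x j = x' j) : X.H m τ x = X.H m τ x' := by
  have h1 : ∀ u : X.Jf → S, ∀ j ∈ X.Jf, X.mv u x j = X.mv u x' j := by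
    intro u j hj
    unfold AD.mv
    rw [dif_pos hj, dif_pos hj, h j hj]
  have h2 : ∀ x x' : J → SP S P, (∀ j ∈ X.Jf, x j = x' j) → X.RR τ x = X.RR τ x' := by
    intro x x' h
    unfold AD.RR
    congr 1
    apply List.map_congr_left
    intro v _
    congr 1
    unfold AD.bk wd
    congr 1
    apply List.map_congr_left
    intro i _
    by_cases hi : i ∈ X.Jf
    · rw [h i hi]
    · rw [hX.t1 i hi, commutatorElement_one_left, commutatorElement_one_left]
  have h5 : (X.Cg m).filter (fun u => X.G (X.mv u x) ∧ X.RR τ (X.mv u x) = 1) =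
      (X.Cg m).filter (fun u => X.G (X.mv u x') ∧ X.RR τ (X.mv u x') = 1) := by
    refine Finset.filter_congr fun u _ => ?_
    rw [h2 _ _ (h1 u)]
    constructor
    · rintro ⟨h3, h4⟩
      exact ⟨hX.gi _ _ (fun j hj => by rw [h1 u j hj]) h3, h4⟩
    · rintro ⟨h3, h4⟩
      exact ⟨hX.gi _ _ (fun j hj => by rw [h1 u j hj]) h3, h4⟩
  unfold AD.H
  rw [h5]

theorem mv_right (X : AD S P J V) (u : X.Jf → S) (x : J → SP S P) (j : J) :
    (X.mv u x j).right = (x j).right := by
  unfold AD.mv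
  split_ifs
  · rw [sp_right, il_right, one_mul]
  · rfl

theorem mv_mv (X : AD S P J V) (w u : X.Jf → S) (x : J → SP S P) :
    X.mv w (X.mv u x) = X.mv (w * u) x := by
  funext j
  unfold AD.mv
  split_ifs
  · rw [Pi.mul_apply, il_mul, mul_assoc]
  · rfl

theorem cg_mul [Fintype S] (X : AD S P J V) {m : ℕ} {w u : X.Jf → S} (hu : u ∈ X.Cg m) :
    w * u ∈ X.Cg m ↔ w ∈ X.Cg m := by
  unfold AD.Cg at hu ⊢
  rw [Finset.mem_filter] at hu
  rw [Finset.mem_filter, Finset.mem_filter]
  constructor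
  · rintro ⟨-, h⟩
    refine ⟨Finset.mem_univ _, fun j => ?_⟩
    have := mul_mem (h j) (inv_mem (hu.2 j))
    rwa [Pi.mul_apply, mul_inv_cancel_right] at this
  · rintro ⟨-, h⟩
    exact ⟨Finset.mem_univ _, fun j => mul_mem (h j) (hu.2 j)⟩

theorem pr_mul [Fintype S] (X : AD S P J V) {q m : ℕ} (η : X.Jf → Du S q m × Du S q (m + 1))
    {w u : X.Jf → S} (hw : w ∈ X.Cg m) (hu : u ∈ X.Cg m) :
    X.pr η (w * u) = X.pr η w + X.pr η u := by
  unfold AD.Cg at hw hu
  rw [Finset.mem_filter] at hw hu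
  unfold AD.pr
  rw [← Finset.sum_add_distrib]
  refine Finset.sum_congr rfl fun j _ => ?_
  have h1 := hw.2 j
  have h2 := hu.2 j
  split_ifs with hp
  · rw [if_pos hp] at h1 h2
    rw [Pi.mul_apply, gk_mul h1 h2, map_add]
  · rw [if_neg hp] at h1 h2
    rw [Pi.mul_apply, gk_mul h1 h2, map_add]

/-- the change of the Fourier coefficients -/
theorem hh_mv [Fintype S] (X : AD S P J V) {q m : ℕ} [NeZero q] (τ : V → S) (x : J → SP S P)
    (η : X.Jf → Du S q m × Du S q (m + 1)) {u : X.Jf → S} (hu : u ∈ X.Cg m) :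
    X.Hh m τ (X.mv u x) η = H63.MA.ep q (X.pr η u) * X.Hh m τ x η := by
  unfold AD.Hh
  rw [← mul_div_assoc, Finset.mul_sum]
  congr 1
  refine Finset.sum_equiv (Equiv.mulRight u) (fun w => ?_) fun w hw => ?_
  · rw [Equiv.coe_mulRight, cg_mul X hu]
  · rw [Equiv.coe_mulRight, mv_mv, pr_mul X η hw hu, H63.MA.rayc_std, H63.MA.rayc_std,
      H63.MA.rayc_std, mul_left_comm, ← AddChar.map_add_eq_mul]
    congr 2
    abel

/-- the group of the conjugators which do not change `H (m+1)` -/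
def Zg (X : AD S P J V) (m : ℕ) : Subgroup (X.Vf → S) where
  carrier := {z | ∀ v : X.Vf, z v ∈ gm S (if ∃ j ∈ X.Jf, X.pp j ∧ X.pj j = v.1 then m else m + 1)}
  mul_mem' := fun ha hb v => mul_mem (ha v) (hb v)
  one_mem' := fun _ => one_mem _
  inv_mem' := fun ha v => inv_mem (ha v)

theorem ex_of (X : AD S P J V) (z : X.Vf → S) {j : J} (hj : j ∈ X.Jf) :
    X.ex z (X.pj j) = z ⟨X.pj j, Finset.mem_image_of_mem _ hj⟩ :=
  dif_pos (Finset.mem_image_of_mem _ hj)

theorem ex_mul (X : AD S P J V) (τ z : X.Vf → S) : X.ex (τ * z) = fun v => X.ex τ v * X.ex z v := by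
  funext v
  unfold AD.ex
  split_ifs
  · rfl
  · rw [mul_one]

theorem zg_ok (X : AD S P J V) {p k Mw q c : ℕ} {P' : Type} [Group P'] {Pi : SP S P →* P'}
    (hX : X.Ok p k Mw q c Pi) {m : ℕ} {z : X.Vf → S} (hz : z ∈ Zg X m) :
    Zok X m (X.ex z) := by
  intro j hj
  rw [ex_of X z hj]
  have h1 := hz ⟨X.pj j, Finset.mem_image_of_mem _ hj⟩
  by_cases hp : X.pp j
  · rw [if_pos hp]
    rwa [if_pos ⟨j, hj, hp, rfl⟩] at h1
  · rw [if_neg hp]
    rwa [if_neg] at h1
    rintro ⟨i, hi, hpi, hij⟩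
    exact bw_pp hX hi hpi (hij ▸ ⟨j, ⟨hj, hp⟩, rfl⟩)

/-- the classes -/
def clz (X : AD S P J V) {p k Mw q c : ℕ} {P' : Type} [Group P'] {Pi : SP S P →* P'}
    (hX : X.Ok p k Mw q c Pi) (m : ℕ) : Zg X m →*
      Multiplicative (({j // Gdl X j} → Gr S m) × ({v // Bw X v} → Gr S (m + 1))) where
  toFun z := Multiplicative.ofAdd (fun j => gk m (X.ex z.1 (X.pj j.1)),
    fun v => gk (m + 1) (X.ex z.1 v.1))
  map_one' := by
    have h1 : ∀ v, X.ex (1 : X.Vf → S) v = 1 := by
      intro v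
      unfold AD.ex
      split_ifs <;> rfl
    rw [← ofAdd_zero]
    congr 1
    refine Prod.ext (funext fun j => ?_) (funext fun v => ?_)
    · show gk m (X.ex (1 : X.Vf → S) (X.pj j.1)) = 0
      rw [h1, gk_one]
    · show gk (m + 1) (X.ex (1 : X.Vf → S) v.1) = 0
      rw [h1, gk_one]
  map_mul' := by
    intro z z'
    rw [← ofAdd_add]
    congr 1
    have h2 := zg_ok X hX z.2
    have h3 := zg_ok X hX z'.2
    refine Prod.ext (funext fun j => ?_) (funext fun v => ?_)
    · show gk m (X.ex (z.1 * z'.1) (X.pj j.1)) = gk m (X.ex z.1 (X.pj j.1)) +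
        gk m (X.ex z'.1 (X.pj j.1))
      rw [ex_mul]
      have h4 := h2 j.1 j.2.1
      have h5 := h3 j.1 j.2.1
      rw [if_pos j.2.2] at h4 h5
      exact gk_mul h4 h5
    · obtain ⟨v, j, hj, rfl⟩ := v
      show gk (m + 1) (X.ex (z.1 * z'.1) (X.pj j)) = gk (m + 1) (X.ex z.1 (X.pj j)) +
        gk (m + 1) (X.ex z'.1 (X.pj j))
      rw [ex_mul]
      have h4 := h2 j hj.1
      have h5 := h3 j hj.1
      rw [if_neg hj.2] at h4 h5
      exact gk_mul h4 h5

theorem clz_surj (X : AD S P J V) {p k Mw q c : ℕ} {P' : Type} [Group P'] {Pi : SP S P →* P'}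
    (hX : X.Ok p k Mw q c Pi) (m : ℕ) : Function.Surjective (clz X hX m) := by
  intro a
  obtain ⟨⟨x, mm⟩, rfl⟩ : ∃ b, Multiplicative.ofAdd b = a := ⟨Multiplicative.toAdd a, rfl⟩
  choose ux hux1 hux2 using fun j => gk_surj m (x j)
  choose um hum1 hum2 using fun v => gk_surj (m + 1) (mm v)
  have hpp : ∀ v : V, (∃ j ∈ X.Jf, X.pp j ∧ X.pj j = v) → ¬ Bw X v := by
    rintro v ⟨j, hj, hp, rfl⟩
    exact bw_pp hX hj hp
  set z : X.Vf → S := fun v => if h : ∃ j, Gdl X j ∧ X.pj j = v.1 then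
      ux ⟨h.choose, h.choose_spec.1⟩ else if h : Bw X v.1 then um ⟨v.1, h⟩ else 1 with hz
  have hz1 : ∀ j (hj : Gdl X j), X.ex z (X.pj j) = ux ⟨j, hj⟩ := by
    intro j hj
    rw [ex_of X z hj.1, hz]
    have h : ∃ i, Gdl X i ∧ X.pj i = X.pj j := ⟨j, hj, rfl⟩
    show (if h : ∃ i, Gdl X i ∧ X.pj i = X.pj j then ux ⟨h.choose, h.choose_spec.1⟩
      else _) = _
    rw [dif_pos h]
    have h1 : h.choose = j := by
      have h2 := h.choose_spec
      have h3 := (hX.jl h.choose h2.1.1).2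
      rw [h2.2, hX.pb j hj.1 hj.2, List.mem_singleton] at h3
      exact h3
    congr 1
    exact Subtype.ext h1
  have hz2 : ∀ v (hv : Bw X v), X.ex z v = um ⟨v, hv⟩ := by
    rintro v ⟨j, hj, rfl⟩
    have hv : Bw X (X.pj j) := ⟨j, hj, rfl⟩
    rw [ex_of X z hj.1, hz]
    have h : ¬ ∃ i, Gdl X i ∧ X.pj i = X.pj j := by
      rintro ⟨i, hi, hij⟩
      exact hpp _ ⟨i, hi.1, hi.2, hij⟩ hv
    show (if h : ∃ i, Gdl X i ∧ X.pj i = X.pj j then ux ⟨h.choose, h.choose_spec.1⟩
      else if h : Bw X (X.pj j) then um ⟨X.pj j, h⟩ else 1) = _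
    rw [dif_neg h, dif_pos hv]
  have hzm : z ∈ Zg X m := by
    intro v
    obtain ⟨j, hj, hjv⟩ := Finset.mem_image.1 v.2
    obtain ⟨v, hv⟩ := v
    obtain rfl : X.pj j = v := hjv
    rw [← ex_of X z hj]
    by_cases hp : X.pp j
    · rw [if_pos ⟨j, hj, hp, rfl⟩, hz1 j ⟨hj, hp⟩]
      exact hux1 _
    · have hb : Bw X (X.pj j) := ⟨j, ⟨hj, hp⟩, rfl⟩
      rw [if_neg fun h => hpp _ h hb, hz2 _ hb]
      exact hum1 _
  refine ⟨⟨z, hzm⟩, ?_⟩
  show Multiplicative.ofAdd _ = Multiplicative.ofAdd _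
  congr 1
  refine Prod.ext (funext fun j => ?_) (funext fun v => ?_)
  · show gk m (X.ex z (X.pj j.1)) = x j
    rw [hz1 j.1 j.2, hux2]
  · show gk (m + 1) (X.ex z v.1) = mm v
    rw [hz2 v.1 v.2, hum2]

/-- sums over a group through a surjective homomorphism -/
theorem sum_hom {G C : Type} [Group G] [Group C] [Fintype G] [Fintype C] (f : G →* C)
    (hf : Function.Surjective f) (F : C → ℂ) (h : ∑ c, F c = 0) : ∑ g, F (f g) = 0 := by
  have h1 : ∀ c : C, (Finset.univ.filter fun g => f g = c).card =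
      (Finset.univ.filter fun g => f g = 1).card := fun c =>
    MonoidHom.card_fiber_eq_of_mem_range f (hf c) (hf 1)
  rw [← Finset.sum_fiberwise Finset.univ f fun g => F (f g)]
  have h2 : ∀ c : C, ∑ g ∈ Finset.univ.filter (fun g => f g = c), F (f g) =
      ((Finset.univ.filter fun g => f g = 1).card : ℂ) * F c := by
    intro c
    rw [Finset.sum_congr rfl fun g hg => by rw [(Finset.mem_filter.1 hg).2], Finset.sum_const,
      nsmul_eq_mul, h1]
  rw [Finset.sum_congr rfl fun c _ => h2 c, ← Finset.mul_sum, h, mul_zero]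

/-- the change of the Fourier coefficients at the actual values -/
theorem hh_z [Fintype S] (X : AD S P J V) {p k Mw q c : ℕ} [NeZero q] {P' : Type} [Group P']
    {Pi : SP S P →* P'} (hX : X.Ok p k Mw q c Pi) {m : ℕ}
    (η : X.Jf → Du S q m × Du S q (m + 1)) (τ : V → S) {z : V → S} (hz : Zok X m z) :
    X.Hh m (fun v => τ v * z v) (X.vl fun v => τ v * z v) η =
      H63.MA.ep q (X.pr η fun j => uz X τ z j.1) * X.Hh m τ (X.vl τ) η := by
  have hu : (fun j : X.Jf => uz X τ z j.1) ∈ X.Cg m := by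
    unfold AD.Cg
    rw [Finset.mem_filter]
    refine ⟨Finset.mem_univ _, fun j => ?_⟩
    have h1 := (uz_mem X hX (τ := τ) hz j.2).1
    split_ifs
    · exact gm_anti m h1
    · exact h1
  rw [← hh_mv X τ (X.vl τ) η hu]
  unfold AD.Hh
  congr 1
  refine Finset.sum_congr rfl fun w _ => ?_
  congr 1
  have h2 : ∀ j ∈ X.Jf, X.mv w (X.vl fun v => τ v * z v) j =
      X.mv w (X.mv (fun j : X.Jf => uz X τ z j.1) (X.vl τ)) j := by
    intro j hj
    unfold AD.mv
    rw [dif_pos hj, dif_pos hj, dif_pos hj, uz_il]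
  rw [h_jf X hX (m + 1) _ h2]
  refine (nnx X hX (m + 1) (Nat.le_add_left 1 m) τ (fun v => τ v * z v) (fun j hj => ?_) _
    fun j hj => ?_).symm
  · show (τ (X.pj j))⁻¹ * (τ (X.pj j) * z (X.pj j)) ∈ _
    rw [inv_mul_cancel_left, Nat.add_sub_cancel]
    exact hz j hj
  · rw [mv_right, mv_right, vl_rt]

/-- AVERAGING KILLS EVERYTHING OUTSIDE `Hk` -/
theorem tvk' [Fintype S] (X : AD S P J V) {p k Mw q c : ℕ} [NeZero q] {P' : Type} [Group P']
    [Finite P] {Pi : SP S P →* P'} (hp : p.Prime) (hX : X.Ok p k Mw q c Pi) (m : ℕ)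
    (η : X.Jf → Du S q m × Du S q (m + 1)) (hk : ¬X.Hk η) :
    X.Mn (fun τ => X.Hh m τ (X.vl τ) η) = 0 := by
  obtain ⟨kk, hkk⟩ := kx_ex' X hp hX m η
  let iN : DistribMulAction (FreeGroup J) (Du S q (m + 1)) := fact X.ph
  let iM : DistribMulAction (FreeGroup J) (Gr S (m + 1)) := fact X.ph
  obtain ⟨Φ₀⟩ := filG (P := P) hp hX.pg (m + 1)
  have Φ : Fil (FreeGroup J) (Gr S (m + 1)) := Φ₀.map X.ph fun x n => rfl
  have f1 : Finite {j // Bd X j} := bd_fin X
  have f2 : Finite {v // Bw X v} := bw_fin X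
  have f3 : Finite {j // Gdl X j} := gd_fin X
  have i1 : Fintype {j // Bd X j} := Fintype.ofFinite _
  have i2 : Fintype {v // Bw X v} := Fintype.ofFinite _
  have i3 : Fintype {j // Gdl X j} := Fintype.ofFinite _
  have i4 : Fintype ({v // Bw X v} → Gr S (m + 1)) := Fintype.ofFinite _
  have i5 : Fintype ({j // Gdl X j} → Gr S m) := Fintype.ofFinite _
  have htr : ∀ j, ¬ Bd X j → X.ph (FreeGroup.of j) = 1 := by
    intro j hj
    rw [ph_of]
    by_cases hj' : j ∈ X.Jf
    · have hpp : X.pp j := by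
        by_contra h
        exact hj ⟨hj', h⟩
      rw [hX.pt j hj' hpp, il_right]
    · rw [hX.t1 j hj']
      rfl
  have hk0 : ∀ j, ¬ Bd X j → kk (FreeGroup.of j) = 0 := fun j hj => hkk.of j hj
  set β : J → Gr S m →+ Gr S (m + 1) := fun j => -br m (X.y j) with hβ
  set e : AddChar (ZMod q) ℂ := ZMod.stdAddChar with he
  have hnd : ∀ n : Du S q (m + 1), n ≠ 0 → ∃ a : Gr S (m + 1), e (bil S q (m + 1) n a) ≠ 1 := by
    intro n hn
    by_contra h
    push Not at h
    apply hn
    refine du_ext fun a => ?_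
    have h1 := h a
    rw [bil_ap] at h1
    have h2 : Function.Injective (ZMod.stdAddChar (N := q)) := ZMod.injective_stdAddChar
    have h3 : e (n.ap a) = e 0 := by rw [h1, AddChar.map_zero_eq_one]
    exact h2 h3
  -- the average over the classes
  have hav := avZ (Bd X) (Bw X) X.pj X.bl X.l (frm_ok hX) (B := bil S q (m + 1))
    (ivt_to X.ph (fun _ _ => rfl) (fun _ _ => rfl) (bil_ivt q (m + 1))) Φ (k := kk) hkk.ch hk0
    (fun j hj n => by
      show X.ph (FreeGroup.of j) • n = n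
      rw [htr j hj, one_smul])
    (fun j hj n => by
      show X.ph (FreeGroup.of j) • n = n
      rw [htr j hj, one_smul])
    X.W
    (fun v hv y => by
      show X.ph (wd FreeGroup.of X.W (X.bl v)) • y = y
      obtain ⟨j, hj, rfl⟩ := hv
      rw [hX.hb _ (hX.jl j hj.1).1, one_smul])
    (fun j => j ∈ X.Jf) (fun j hj => hj.1)
    (fun cc z hc hc0 hz hz0 => hz_rel X hp hX (m + 1) kk hkk.ch
      (fun j hj => hk0 j fun h => hj h.1) cc hc hc0 z hz hz0)
    e hnd (Gdl X)
    (fun j hj => ⟨(hX.jl j hj.1).1, bw_pp hX hj.1 hj.2, hX.pb j hj.1 hj.2⟩)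
    (fun v _ j hj => hX.bp v j hj) (fun j hj => hj.1) β (by
      rintro ⟨h1, h2⟩
      apply hk
      refine ⟨kk, hkk, fun v hv => ?_, fun j hj hpj a => ?_⟩
      · by_cases hb : Bw X v
        · exact h1 v hb
        · have h3 : ∀ ks : List J, (∀ i ∈ ks, ¬ Bd X i) → kk (wd FreeGroup.of X.W ks) = 0 := by
            intro ks
            induction ks with
            | nil =>
              intro _
              exact CH.one (F := FreeGroup J) hkk.ch
            | cons i ks ih =>
              intro hks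
              have h4 := hks i List.mem_cons_self
              have h5 := ih fun i' hi' => hks i' (List.mem_cons_of_mem _ hi')
              have h6 : wd FreeGroup.of X.W (i :: ks) =
                  ⁅(FreeGroup.of i : FreeGroup J), X.W i⁆ * wd FreeGroup.of X.W ks := by
                rw [wd, List.map_cons, List.prod_cons]
                rfl
              have h7 : kk ⁅(FreeGroup.of i : FreeGroup J), X.W i⁆ = 0 := by
                rw [CH.comm (F := FreeGroup J) hkk.ch, hk0 i h4, smul_zero]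
                have h8 : ∀ n : Du S q (m + 1), (FreeGroup.of i : FreeGroup J) • n = n := by
                  intro n
                  show X.ph (FreeGroup.of i) • n = n
                  rw [htr i h4, one_smul]
                have h9 : ∀ n : Du S q (m + 1), ⁅(FreeGroup.of i : FreeGroup J), X.W i⁆ • n = n := by
                  intro n
                  show X.ph ⁅(FreeGroup.of i : FreeGroup J), X.W i⁆ • n = n
                  rw [map_commutatorElement, htr i h4, commutatorElement_one_left, one_smul]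
                rw [h8, h9]
                abel
              rw [h6, hkk.ch, h7, h5, smul_zero, add_zero]
          exact h3 _ fun i hi hbi => hb ⟨i, hbi, hX.bp v i hi⟩
      · have h3 := h2 j ⟨hj, hpj⟩ a
        have h4 : (X.W j • β j a : Gr S (m + 1)) = -br m (X.y j) a := by
          show X.ph (X.W j) • (-br m (X.y j)) a = _
          rw [hX.pw j hj hpj, one_smul]
          rfl
        rw [h4, map_neg] at h3
        have h5 : Function.Injective (ZMod.stdAddChar (N := q)) := ZMod.injective_stdAddChar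
        have h6 : e (-(bil S q (m + 1) (kk (X.W j))) (br m (X.y j) a)) = e 0 := by
          rw [h3, AddChar.map_zero_eq_one]
        have h7 := h5 h6
        rw [neg_eq_zero] at h7
        exact h7)
  -- the exponent
  set F : ({j // Gdl X j} → Gr S m) → ({v // Bw X v} → Gr S (m + 1)) → ZMod q := fun x mm =>
    ∑ j : {j // Bd X j}, bil S q (m + 1) (zeta kk FreeGroup.of X.W (X.bl (X.pj j.1)) j.1)
      (cV (Bd X) (Bw X) X.pj (fun j => β j (exb (Gdl X) x j)) mm (X.W j.1) -
        dm (exb (Bw X) mm (X.pj j.1)) (X.W j.1)) with hF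
  have hpr : ∀ (τ : V → S) (z : V → S), Zok X m z → X.pr η (fun j => uz X τ z j.1) =
      F (fun j => gk m (z (X.pj j.1))) fun v => gk (m + 1) (z v.1) := by
    intro τ z hz
    have h1 : (fun w => gk (m + 1) (dz X τ z w)) = cV (Bd X) (Bw X) X.pj
        (fun j => β j (exb (Gdl X) (fun j : {j // Gdl X j} => gk m (z (X.pj j.1))) j))
        fun v => gk (m + 1) (z v.1) := by
      refine ch_ext (dz_ch X hX hz) (cv_ch _ _ _ _ _) fun j => ?_
      rw [cv_of]
      refine (dz_of_mem X hX hz j).2.trans ?_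
      by_cases hj : j ∈ X.Jf
      · rw [if_pos hj]
        by_cases hpj : X.pp j
        · have hg : Gdl X j := ⟨hj, hpj⟩
          have hb : ¬ Bd X j := fun h => h.2 hpj
          rw [if_pos hpj, if_neg hb, add_zero]
          have h2 := exb_of (Gdl X) (fun j : {j // Gdl X j} => gk m (z (X.pj j.1))) ⟨j, hg⟩
          rw [h2]
          rfl
        · have hg : ¬ Gdl X j := fun h => hpj h.2
          have hb : Bd X j := ⟨hj, hpj⟩
          rw [if_neg hpj, if_pos hb, exb_no (Gdl X) _ hg, map_zero, zero_add]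
          have h2 := exb_of (Bw X) (fun v : {v // Bw X v} => gk (m + 1) (z v.1))
            ⟨X.pj j, j, hb, rfl⟩
          rw [h2]
          rfl
      · have hg : ¬ Gdl X j := fun h => hj h.1
        have hb : ¬ Bd X j := fun h => hj h.1
        rw [if_neg hj, if_neg hb, exb_no (Gdl X) _ hg, map_zero, zero_add]
    have h3 : ∀ j : {j // Bd X j}, bil S q (m + 1) (zeta kk FreeGroup.of X.W
        (X.bl (X.pj j.1)) j.1) (cV (Bd X) (Bw X) X.pj (fun j => β j (exb (Gdl X)
          (fun j : {j // Gdl X j} => gk m (z (X.pj j.1))) j))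
        (fun v => gk (m + 1) (z v.1)) (X.W j.1) -
        dm (exb (Bw X) (fun v : {v // Bw X v} => gk (m + 1) (z v.1)) (X.pj j.1)) (X.W j.1)) =
        (η ⟨j.1, j.2.1⟩).2.ap (gk (m + 1) (uz X τ z j.1)) := by
      intro j
      have h4 := (uz_mem X hX (τ := τ) hz j.2.1).2 j.2.2
      have h2 := exb_of (Bw X) (fun v : {v // Bw X v} => gk (m + 1) (z v.1))
            ⟨X.pj j.1, j.1, j.2, rfl⟩
      rw [← h1, h2, bil_ap, hkk.ze ⟨j.1, j.2.1⟩ j.2.2, h4]
      rfl
    rw [hF]
    show X.pr η (fun j => uz X τ z j.1) = ∑ j : {j // Bd X j}, _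
    rw [Finset.sum_congr rfl fun j _ => h3 j]
    unfold AD.pr
    have h5 : ∀ j : X.Jf, (if X.pp j then (η j).1.ap (gk m (uz X τ z j.1)) else
        (η j).2.ap (gk (m + 1) (uz X τ z j.1))) = if ¬ X.pp j then
        (η j).2.ap (gk (m + 1) (uz X τ z j.1)) else 0 := by
      intro j
      by_cases hpj : X.pp j
      · rw [if_pos hpj, if_neg (not_not.2 hpj), (gk_zero (gm_anti m
          (uz_mem X hX (τ := τ) hz j.2).1)).2 (uz_mem X hX (τ := τ) hz j.2).1, map_zero]
      · rw [if_neg hpj, if_pos hpj]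
    rw [Finset.sum_congr rfl fun j _ => h5 j, ← Finset.sum_filter]
    refine Finset.sum_bij' (fun j hj => (⟨j.1, j.2, (Finset.mem_filter.1 hj).2⟩ : {j // Bd X j}))
      (fun j _ => (⟨j.1, j.2.1⟩ : X.Jf)) (fun j hj => Finset.mem_univ _) (fun j _ => ?_)
      (fun j _ => rfl) (fun j _ => rfl) fun j _ => rfl
    rw [Finset.mem_filter]
    exact ⟨Finset.mem_univ _, j.2.2⟩
  -- the sum over the group
  have hsum : ∀ τ : X.Vf → S, ∑ z : Zg X m, X.Hh m (X.ex (τ * z.1)) (X.vl (X.ex (τ * z.1))) η = 0 := by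
    intro τ
    have h1 : ∀ z : Zg X m, X.Hh m (X.ex (τ * z.1)) (X.vl (X.ex (τ * z.1))) η =
        (fun a : Multiplicative (({j // Gdl X j} → Gr S m) × ({v // Bw X v} → Gr S (m + 1))) =>
          e (F (Multiplicative.toAdd a).1 (Multiplicative.toAdd a).2) *
            X.Hh m (X.ex τ) (X.vl (X.ex τ)) η) (clz X hX m z) := by
      intro z
      have hz := zg_ok X hX z.2
      rw [ex_mul, hh_z X hX η (X.ex τ) hz, hpr (X.ex τ) (X.ex z.1) hz, H63.MA.rayc_std]
      rfl
    rw [Finset.sum_congr rfl fun z _ => h1 z]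
    have i6 : Finite (Multiplicative (({j // Gdl X j} → Gr S m) × ({v // Bw X v} → Gr S (m + 1)))) :=
      Finite.of_equiv _ Multiplicative.ofAdd
    have i7 : Fintype (Multiplicative (({j // Gdl X j} → Gr S m) × ({v // Bw X v} → Gr S (m + 1)))) :=
      Fintype.ofFinite _
    have h8 : ∑ a : Multiplicative (({j // Gdl X j} → Gr S m) × ({v // Bw X v} → Gr S (m + 1))),
        (fun a : Multiplicative (({j // Gdl X j} → Gr S m) × ({v // Bw X v} → Gr S (m + 1))) =>
          e (F (Multiplicative.toAdd a).1 (Multiplicative.toAdd a).2) *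
            X.Hh m (X.ex τ) (X.vl (X.ex τ)) η) a = 0 → ∑ z : Zg X m,
      (fun a : Multiplicative (({j // Gdl X j} → Gr S m) × ({v // Bw X v} → Gr S (m + 1))) =>
          e (F (Multiplicative.toAdd a).1 (Multiplicative.toAdd a).2) *
            X.Hh m (X.ex τ) (X.vl (X.ex τ)) η) (clz X hX m z) = 0 := fun h =>
      sum_hom (clz X hX m) (clz_surj X hX m) _ h
    apply h8
    show ∑ a : Multiplicative (({j // Gdl X j} → Gr S m) × ({v // Bw X v} → Gr S (m + 1))),
          e (F (Multiplicative.toAdd a).1 (Multiplicative.toAdd a).2) *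
            X.Hh m (X.ex τ) (X.vl (X.ex τ)) η = 0
    rw [← Finset.sum_mul]
    have h2 : ∑ a : Multiplicative (({j // Gdl X j} → Gr S m) × ({v // Bw X v} → Gr S (m + 1))),
        e (F (Multiplicative.toAdd a).1 (Multiplicative.toAdd a).2) =
        ∑ a : ({j // Gdl X j} → Gr S m) × ({v // Bw X v} → Gr S (m + 1)), e (F a.1 a.2) :=
      Fintype.sum_equiv Multiplicative.toAdd _ _ fun _ => rfl
    rw [h2, Fintype.sum_prod_type, hav, zero_mul]
  -- the mean
  unfold AD.Mn
  have h3 : (Fintype.card (Zg X m) : ℂ) * ∑ τ : X.Vf → S, X.Hh m (X.ex τ) (X.vl (X.ex τ)) η = 0 := by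
    have h4 : ∀ z : Zg X m, ∑ τ : X.Vf → S, X.Hh m (X.ex τ) (X.vl (X.ex τ)) η =
        ∑ τ : X.Vf → S, X.Hh m (X.ex (τ * z.1)) (X.vl (X.ex (τ * z.1))) η := fun z =>
      (Fintype.sum_equiv (Equiv.mulRight z.1) _ _ fun τ => rfl).symm
    rw [← nsmul_eq_mul, ← Finset.card_univ, ← Finset.sum_const,
      Finset.sum_congr rfl fun z _ => h4 z, Finset.sum_comm]
    exact Finset.sum_eq_zero fun τ _ => hsum τ
  have h5 : (Fintype.card (Zg X m) : ℂ) ≠ 0 := by
    rw [Nat.cast_ne_zero]
    exact Fintype.card_ne_zero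
  rw [(mul_eq_zero.1 h3).resolve_left h5, zero_div]

end H71.S3
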