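import Pool.Agent.H73.S3.Enr
import Pool.Agent.H71.S3.Tvb

/-!
# H71-S3-ODF: stage 1 and the main term (MP_b39724_nt, stage 3, chapter B; thinks 1688, 1707): definitions

One configuration (`X : AD S P J V`, `Pi : S ⋊ P → P'`), `N = ker Pi ∩ S`:
* `Nk Pi = N`, `AN Pi = N / [N, S]` (additive), `nk u` the class of `u ∈ N` (`0` for the other `u`).
* `x1 j`: the value `(1, ph (W j))`. `sg κ : FreeGroup J → Du S q 1 ⋊ P`, `ck κ` its first component: the crossed homomorphism with the values `κ j` at the letters `j ∈ Jf`, `0` at the other ones.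
* `K1`: the `κ` with `κ j = 0` at the letters `pp` and `ck κ (W_v) = 0` for all places.
* `pz k u = ∑ ζ_j(k) (u j)`, `phs k = ∑_(pp) k (W j) (y j) - ∑_(not pp) ζ'_j(k) (y j)`.
* `F1 k`: the mean over all `u : Jf → S` of `H 1 (mv u x1) ep (- pz k u)`. `T0 k ψ`: the mean over `u` of `[G] ψ (∑_v class of the block of v) ep (- pz k u)`.
Frame of chapter B (`G : SG c S`, `B`, `X : FD A P S`, `W : WF A`):
* `La = Px c × Du S q 1`: labels with the value of `k`. `l1`: the letters. `kv`: the values.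
* `sgE κ₀ h`: the homomorphism `FW A → Du S q 1 ⋊ P` with the values `κ₀` at the letters `J0` (bad places), `kv h` at the other ones, `φ` in the second component. `Kc κ₀ h`: all relations hold.
* `qf ψ s g χ = (1/|S|) ∑_u [s commutes with pi u g] ψ (class of ⁅y s, u g⁆) ep (- χ u)`. `w1 ψ s g χ ξ = ep (ξ (g y s)) qf ψ s g χ`.
* `Q1 ψ k a d`: the factor of the bad places, `a j`, `d j` in any group `F`, `k : F → Du S q 1`.
* `MN`, `NG`: the main part (`kv h = 0`) and the rest. `ZH`: the honest crossed homomorphisms `Γ → Du S q 1`, unramified outside `S0`, `E`.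
-/

set_option autoImplicit false

open scoped NumberField commutatorElement
open IsDedekindDomain
open scoped Classical

noncomputable section

namespace H71.S3

open H63.MA H38.BB H38.BG H57.PC H57.BRA H77.WD H77.WE H77.PC3 H35.CF H35.UB H77.S3 H1.S3 H73.S3

attribute [local instance 50] Fintype.ofFinite

section ker

variable {S P P' : Type} [Group S] [Group P] [MulDistribMulAction P S] [Group P']

/-- the kernel of `Pi` on `S` -/
def Nk (Pi : SP S P →* P') : Subgroup S := (Pi.comp SemidirectProduct.inl).ker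

theorem mem_nk {Pi : SP S P →* P'} {u : S} : u ∈ Nk Pi ↔ Pi (il u) = 1 := MonoidHom.mem_ker

instance nk_normal (Pi : SP S P →* P') : (Nk Pi).Normal := MonoidHom.normal_ker _

/-- the commutator subgroup `[N, S]` -/
def NS (Pi : SP S P →* P') : Subgroup S := ⁅Nk Pi, (⊤ : Subgroup S)⁆

instance ns_normal (Pi : SP S P →* P') : (NS Pi).Normal := by
  unfold NS
  infer_instance

/-- the group `N / [N, S]` -/
def AN (Pi : SP S P →* P') : Type := Additive (Nk Pi ⧸ (NS Pi).subgroupOf (Nk Pi))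

instance an_group (Pi : SP S P →* P') : AddGroup (AN Pi) := by
  unfold AN
  infer_instance

instance an_comm (Pi : SP S P →* P') : AddCommGroup (AN Pi) :=
  { an_group Pi with
    add_comm := by
      intro a b
      induction a using QuotientGroup.induction_on with
      | _ a =>
        induction b using QuotientGroup.induction_on with
        | _ b =>
          refine (QuotientGroup.eq (s := (NS Pi).subgroupOf (Nk Pi))).2 ?_
          rw [Subgroup.mem_subgroupOf]
          have h : ⁅((b : S))⁻¹, ((a : S))⁻¹⁆ ∈ NS Pi :=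
            Subgroup.commutator_mem_commutator ((Nk Pi).inv_mem b.2) (Subgroup.mem_top _)
          have h2 : (((a * b)⁻¹ * (b * a) : Nk Pi) : S) = ⁅(b : S)⁻¹, (a : S)⁻¹⁆ := by
            simp only [Subgroup.coe_mul, Subgroup.coe_inv, commutatorElement_def]
            group
          rw [h2]
          exact h }

instance an_finite [Finite S] (Pi : SP S P →* P') : Finite (AN Pi) := by
  unfold AN
  infer_instance

/-- the class of an element of `N` -/
def nmk (Pi : SP S P →* P') (u : Nk Pi) : AN Pi :=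
  (Additive.ofMul (QuotientGroup.mk u) : Additive (Nk Pi ⧸ (NS Pi).subgroupOf (Nk Pi)))

/-- the class of an element -/
def nk (Pi : SP S P →* P') (u : S) : AN Pi := if h : u ∈ Nk Pi then nmk Pi ⟨u, h⟩ else 0

theorem nk_of {Pi : SP S P →* P'} {u : S} (hu : u ∈ Nk Pi) : nk Pi u = nmk Pi ⟨u, hu⟩ := dif_pos hu

theorem nk_mul {Pi : SP S P →* P'} {u v : S} (hu : u ∈ Nk Pi) (hv : v ∈ Nk Pi) :
    nk Pi (u * v) = nk Pi u + nk Pi v := by
  rw [nk_of hu, nk_of hv, nk_of (mul_mem hu hv)]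
  rfl

theorem nk_zero {Pi : SP S P →* P'} {u : S} (hu : u ∈ Nk Pi) : nk Pi u = 0 ↔ u ∈ NS Pi := by
  rw [nk_of hu]
  have h := QuotientGroup.eq_one_iff (N := (NS Pi).subgroupOf (Nk Pi)) (⟨u, hu⟩ : Nk Pi)
  rw [Subgroup.mem_subgroupOf] at h
  exact h

theorem nk_one (Pi : SP S P →* P') : nk Pi (1 : S) = 0 := (nk_zero (one_mem _)).2 (one_mem _)

end ker

section ad

variable {S P : Type} [Group S] [Group P] [MulDistribMulAction P S] {J V : Type} (X : AD S P J V)
  {q : ℕ}

/-- the values `(1, ph (W j))` -/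
def x1 (j : J) : SP S P := SemidirectProduct.inr (X.ph (X.W j))

/-- the homomorphism with the values `κ j` -/
def sg (κ : X.Jf → Du S q 1) : FreeGroup J →* Sd P (Du S q 1) :=
  FreeGroup.lift fun j => ⟨if h : j ∈ X.Jf then κ ⟨j, h⟩ else 0, (X.t j).right⟩

/-- the crossed homomorphism with the values `κ j` -/
def ck (κ : X.Jf → Du S q 1) (w : FreeGroup J) : Du S q 1 := (sg X κ w).n

variable (q) in
/-- the families of values -/
def K1 [Fintype S] [NeZero q] : Finset (X.Jf → Du S q 1) := Finset.univ.filter fun κ =>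
  (∀ j : X.Jf, X.pp j → κ j = 0) ∧ ∀ v ∈ X.l, ck X κ (wd FreeGroup.of X.W (X.bl v)) = 0

/-- the sum of the `ζ_j(k) (u j)` -/
def pz (k : FreeGroup J → Du S q 1) (u : X.Jf → S) : ZMod q :=
  ∑ j : X.Jf, if X.pp j then 0 else
    (zeta k FreeGroup.of X.W (X.bl (X.pj j)) j.1).ap (gk 1 (u j))

/-- the phase -/
def phs (k : FreeGroup J → Du S q 1) : ZMod q :=
  ∑ j : X.Jf, if X.pp j then (k (X.W j)).ap (gk 1 (X.y j)) else
    -(zet' k FreeGroup.of X.W (X.bl (X.pj j)) j.1).ap (gk 1 (X.y j))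

/-- the Fourier coefficient of `H 1` -/
def F1 [Fintype S] (k : FreeGroup J → Du S q 1) : ℂ :=
  (∑ u : X.Jf → S, X.H 1 (fun _ => 1) (X.mv u (x1 X)) * ep q (-pz X k u)) /
    (Fintype.card S : ℂ) ^ X.Jf.card

/-- the mean without the relation -/
def T0 [Fintype S] {P' : Type} [Group P'] (Pi : SP S P →* P') (k : FreeGroup J → Du S q 1)
    (ψ : AddChar (AN Pi) ℂ) : ℂ :=
  (∑ u : X.Jf → S, if X.G (X.mv u (x1 X)) then
      ψ ((X.l.map fun v => nk Pi (X.bk (X.mv u (x1 X)) v).left).sum) * ep q (-pz X k u) else 0) /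
    (Fintype.card S : ℂ) ^ X.Jf.card

end ad

section nt

variable {K : Type} [Field K] [NumberField K] {Ω : Type} [Field Ω] [Algebra K Ω]
  {p N : ℕ} {ζ : K} {D : RD0 K p ζ} {Q : DP K Ω} {A : GS D Ω} {P : Type} [Group P]
  {c : CL p N P} {S : Type} [Group S] [MulDistribMulAction P S] {q : ℕ}

variable (c S q) in
/-- labels with the value of the crossed homomorphism -/
abbrev La : Type := Px c × Du S q 1

/-- the letters -/
def l1 (h : Pl K → Option (La c S q)) (v : Pl K) : Option (Px c) := (h v).map fun a => a.1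

/-- the values -/
def kv (h : Pl K → Option (La c S q)) (v : Pl K) : Du S q 1 := (h v).elim 0 fun a => a.2

/-- the letters of a place -/
def blA (B : SD D Q A) (v : Pl K) : List (Pl K ⊕ Fin A.g) :=
  if v ∈ D.S0 then ((List.finRange A.g).filter fun i => B.pl i = v).map Sum.inr
    else [Sum.inl v]

variable (G : SG c S) (B : SD D Q A) (X : FD A P S) (W : WF A)

/-- the values of the labels at the letters `J0` -/
def t0 : Pl K ⊕ Fin A.g → SP S P :=
  Sum.elim (fun v => ⟨X.sv v, X.φ (W.L.t v)⟩) fun i => ⟨X.si i, X.φ (A.a i)⟩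

/-- the values of the words at the letters `J0`, changed by `u` -/
def x0 (u : J0 X → S) (j : Pl K ⊕ Fin A.g) : SP S P :=
  if h : j ∈ J0 X then il (u ⟨j, h⟩) *
    SemidirectProduct.inr (Sum.elim (fun v => X.φ (W.Fr.F v)) (fun i => X.φ (B.b i)) j) else 1

/-- the homomorphism with given values at the letters -/
def sgE (κ₀ : J0 X → Du S q 1) (h : Pl K → Option (La c S q)) : FW A →* Sd P (Du S q 1) :=
  FreeGroup.lift fun j => ⟨if hj : j ∈ J0 X then κ₀ ⟨j, hj⟩ else Sum.elim (kv h) (fun _ => 0) j,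
    Sum.elim (fun v => if v ∈ X.E then X.φ (W.L.t v) else 1) (fun i => X.φ (A.a i)) j⟩

/-- the relations -/
def Kc (κ₀ : J0 X → Du S q 1) (h : Pl K → Option (La c S q)) : Prop :=
  ∀ v ∈ W.l, (sgE X W κ₀ h (wd FreeGroup.of (Sum.elim W.Wv W.Wi) (blA B v))).n = 0

/-- the local factor without the phase -/
def qf [Fintype S] (ψ : AddChar (AN G.Pi) ℂ) (s : Px c) (g : P) (χ : Du S q 1) : ℂ :=
  (∑ u : S, if Commute s.1 (G.pi u * g) then
      ψ (nk G.Pi (⁅(il (G.y s) : SP S P), il u * SemidirectProduct.inr g⁆).left) *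
        ep q (-χ.ap (gk 1 u)) else 0) / (Fintype.card S : ℂ)

/-- the local factor -/
def w1 [Fintype S] (ψ : AddChar (AN G.Pi) ℂ) (s : Px c) (g : P) (χ ξ : Du S q 1) : ℂ :=
  ep q (ξ.ap (g • gk 1 (G.y s))) * qf G ψ s g χ

/-- the summand of the factor of the bad places -/
def b1 {F : Type} [Group F] (ψ : AddChar (AN G.Pi) ℂ) (k : F → Du S q 1)
    (a d : Pl K ⊕ Fin A.g → F) (u : J0 X → S) : ℂ :=
  ψ (∑ v ∈ BB D X.E, nk G.Pi (wd (t0 X W) (x0 B X W u) (blA B v)).left) *
    ep q (-(∑ j : J0 X, (zet' k a d (blA B (Sum.elim id B.pl j.1)) j.1).ap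
        (gk 1 (t0 X W j.1).left)) -
      ∑ j : J0 X, (zeta k a d (blA B (Sum.elim id B.pl j.1)) j.1).ap (gk 1 (u j)))

/-- the conditions at the bad places -/
def G0 (u : J0 X → S) : Prop :=
  (∀ v ∈ X.E, G.Pi (x0 B X W u (Sum.inl v)) = X.l.F v) ∧
    ∀ i, G.Pi (x0 B X W u (Sum.inr i)) = X.l.b i

/-- the factor of the bad places -/
def Q1 [Fintype S] {F : Type} [Group F] (ψ : AddChar (AN G.Pi) ℂ) (k : F → Du S q 1)
    (a d : Pl K ⊕ Fin A.g → F) : ℂ :=
  (∑ u : J0 X → S, if G0 G B X W u then b1 G B X W ψ k a d u else 0) /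
    (Fintype.card S : ℂ) ^ (J0 X).card

/-- the summand of an enriched configuration -/
def sm [Fintype S] (Zc : Finset (Pl K)) (wt : (Pl K → Option (Px c)) → ℂ)
    (ψ : AddChar (AN G.Pi) ℂ) (κ₀ : J0 X → Du S q 1) (h : Pl K → Option (La c S q)) : ℂ :=
  if Kc B X W κ₀ h then
    wt (l1 h) * om Zc (fun v a => w1 G ψ a.1 (X.φ (W.Fr.F v)) a.2 (sgE X W κ₀ h (W.Wv v)).n) h *
      Q1 G B X W ψ (fun w => (sgE X W κ₀ h w).n) FreeGroup.of (Sum.elim W.Wv W.Wi) else 0

variable (q) in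
/-- the main part -/
def MN [Fintype S] [NeZero q] [Fintype P] (Zc : Finset (Pl K)) (wt : (Pl K → Option (Px c)) → ℂ) :
    ℂ :=
  ∑ ψ : AddChar (AN G.Pi) ℂ, ∑ κ₀ : J0 X → Du S q 1,
    ∑ f ∈ Cf Zc (Px c), sm G B X W Zc wt ψ κ₀ fun v => (f v).map fun s => (s, 0)

variable (q) in
/-- the rest -/
def NG [Fintype S] [NeZero q] [Fintype P] (T : ℝ) (Zc : Finset (Pl K))
    (wt : (Pl K → Option (Px c)) → ℂ) : ℂ :=
  ∑ ψ : AddChar (AN G.Pi) ℂ, ∑ κ₀ : J0 X → Du S q 1,
    ∑ h ∈ (Cf Zc (La c S q)).filter (fun h => (∀ v ∈ sp Zc h, PPc X W T v → kv h v = 0) ∧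
      ∃ v ∈ Zc, kv h v ≠ 0), sm G B X W Zc wt ψ κ₀ h

end nt

end H71.S3
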