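import Pool.Agent.H71.S3.Odf
import Pool.Agent.H73.S3.Nnx
import Mathlib.Analysis.Fourier.FiniteAbelian.PontryaginDuality

/-!
# [H71 S3 OB] the Fourier coefficients of `H 1` and the group `N / [N, S]` (MP_b39724_nt, stage 3, chapter B)

`f1_nin`: `F1 k = |gam_2| / |N| * ∑_ψ T0 k ψ`, `ψ` over the characters of `AN Pi = N / [N, S]`. `one_ad`: the exact formula of stage 1 for one configuration.
Proof of `f1_nin`. `F1 k` is a mean over `u : Jf → S` and `w ∈ Cg 1` (definition of `H 1`); `mv w (mv u x) = mv (w * u) x`, `pz k (w * u) = pz k u` (`w j ∈ gam_2` at the letters not `pp`);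
so `F1 k = |gam_2| E_u [G ∧ RR 1 = 1] ep (- pz k u)` at `mv u x1`. By `h_cnt` (H73/S3/Nnx, Lemma 5 = H1/S3/Nin) for every `mv u₀ x1`, `m = 1`: the condition `RR = 1` may be replaced by
`|[N, S]|⁻¹ [∏_v bk_v ∈ [N, S]]` (`(mv u x1) j` has the right part `ph (W j)`, `gb`: all `bk_v` are in `N`), which is `|N|⁻¹ ∑_ψ ψ (∑_v nk (bk_v))` (`AddChar.sum_apply_eq_ite`, `|N| = |[N, S]| |AN|`).
-/

set_option autoImplicit false

open scoped NumberField commutatorElement
open IsDedekindDomain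
open scoped Classical

noncomputable section

namespace H71.S3

open H63.MA H1.S3 H73.S3

attribute [local instance 50] Fintype.ofFinite

section an

variable {S P P' : Type} [Group S] [Group P] [MulDistribMulAction P S] [Group P']
  {Pi : SP S P →* P'}

theorem ns_le : NS Pi ≤ Nk Pi := Subgroup.commutator_le_left _ _

/-- conjugation does not change the class -/
theorem nk_conj {u : S} (hu : u ∈ Nk Pi) (t : S) : nk Pi (t * u * t⁻¹) = nk Pi u := by
  have h1 : t * u * t⁻¹ = u * ⁅u⁻¹, t⁆ := by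
    rw [commutatorElement_def]
    group
  have h2 : ⁅u⁻¹, t⁆ ∈ NS Pi :=
    Subgroup.commutator_mem_commutator ((Nk Pi).inv_mem hu) (Subgroup.mem_top _)
  rw [h1, nk_mul hu (ns_le h2), (nk_zero (ns_le h2)).2 h2, add_zero]

/-- the class of a product -/
theorem nk_prod {V : Type} (f : V → S) (l : List V) (h : ∀ v ∈ l, f v ∈ Nk Pi) :
    nk Pi (l.map f).prod = (l.map fun v => nk Pi (f v)).sum := by
  induction l with
  | nil =>
    rw [List.map_nil, List.map_nil, List.prod_nil, List.sum_nil, nk_one]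
  | cons a l ih =>
    have h1 : ∀ v ∈ l, f v ∈ Nk Pi := fun v hv => h v (List.mem_cons_of_mem _ hv)
    rw [List.map_cons, List.map_cons, List.prod_cons, List.sum_cons,
      nk_mul (h a List.mem_cons_self) (Subgroup.list_prod_mem _ ?_), ih h1]
    intro x hx
    obtain ⟨v, hv, rfl⟩ := List.mem_map.1 hx
    exact h1 v hv

/-- the number of the classes -/
theorem card_an [Finite S] : Nat.card (AN Pi) * Nat.card (NS Pi) = Nat.card (Nk Pi) := by
  have h1 := Subgroup.card_eq_card_quotient_mul_card_subgroup ((NS Pi).subgroupOf (Nk Pi))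
  rw [Nat.card_congr (Subgroup.subgroupOfEquivOfLe (ns_le (Pi := Pi))).toEquiv] at h1
  exact h1.symm

/-- orthogonality -/
theorem sum_an [Finite S] {r : S} (hr : r ∈ Nk Pi) :
    ∑ ψ : AddChar (AN Pi) ℂ, ψ (nk Pi r) = if r ∈ NS Pi then
      (Nat.card (Nk Pi) : ℂ) / (Nat.card (NS Pi) : ℂ) else 0 := by
  have hc : (Nat.card (NS Pi) : ℂ) ≠ 0 := by
    exact_mod_cast Nat.card_pos.ne'
  have h2 : (Nat.card (Nk Pi) : ℂ) / (Nat.card (NS Pi) : ℂ) = (Nat.card (AN Pi) : ℂ) := by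
    rw [div_eq_iff hc]
    exact_mod_cast (card_an (Pi := Pi)).symm
  rw [AddChar.sum_apply_eq_ite, h2, Nat.card_eq_fintype_card]
  simp only [nk_zero hr]

end an

section one

variable {S P P' : Type} [Group S] [Group P] [MulDistribMulAction P S] [Group P'] {J V : Type}
  {Pi : SP S P →* P'}

/-- the value of `H 1` -/
theorem h1_val [Fintype S] (X : AD S P J V) {p k Mw q c : ℕ}
    (hX : X.Ok p k Mw q c Pi) (τ : V → S) (x : J → SP S P)
    (hx : ∀ j ∈ X.Jf, (x j).right = X.ph (X.W j)) :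
    X.H 1 τ x = (Nat.card (gm S 2) : ℂ) / (Nat.card (Nk Pi) : ℂ) *
      ∑ ψ : AddChar (AN Pi) ℂ, (∑ u ∈ X.Cg 1, if X.G (X.mv u x) then
        ψ ((X.l.map fun v => nk Pi (X.bk (X.mv u x) v).left).sum) else 0) /
          ((X.Cg 1).card : ℂ) := by
  have hNk : Nks Pi = Nk Pi := rfl
  have hgm : Nks Pi ⊓ gm S 1 = Nk Pi := by
    rw [gm_one, inf_top_eq, hNk]
  have h1 := h_cnt X hX 1 τ x hx
  rw [hgm] at h1
  have hNS : (⁅Nk Pi, (⊤ : Subgroup S)⁆ : Subgroup S) = NS Pi := rfl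
  rw [hNS] at h1
  have hcN : (Nat.card (Nk Pi) : ℂ) ≠ 0 := by exact_mod_cast Nat.card_pos.ne'
  have hc : (Nat.card (NS Pi) : ℂ) ≠ 0 := by exact_mod_cast Nat.card_pos.ne'
  have h2 : ∑ ψ : AddChar (AN Pi) ℂ, (∑ u ∈ X.Cg 1, if X.G (X.mv u x) then
        ψ ((X.l.map fun v => nk Pi (X.bk (X.mv u x) v).left).sum) else 0) =
      (Nat.card (Nk Pi) : ℂ) / (Nat.card (NS Pi) : ℂ) *
        (((X.Cg 1).filter fun u => X.G (X.mv u x) ∧
        (X.l.map fun v => τ v * (X.bk (X.mv u x) v).left * (τ v)⁻¹).prod ∈ NS Pi).card : ℂ) := by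
    rw [Finset.sum_comm, Finset.card_filter, Nat.cast_sum, Finset.mul_sum]
    refine Finset.sum_congr rfl fun u _ => ?_
    by_cases hG : X.G (X.mv u x)
    · have hb : ∀ v ∈ X.l, (X.bk (X.mv u x) v).left ∈ Nk Pi := fun v hv =>
        blk_nks X hX hx hG hv
      have hm : ∀ v ∈ X.l, τ v * (X.bk (X.mv u x) v).left * (τ v)⁻¹ ∈ Nk Pi := fun v hv =>
        (nk_normal Pi).conj_mem _ (hb v hv) (τ v)
      have hr : (X.l.map fun v => τ v * (X.bk (X.mv u x) v).left * (τ v)⁻¹).prod ∈ Nk Pi := by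
        refine Subgroup.list_prod_mem _ fun y hy => ?_
        obtain ⟨v, hv, rfl⟩ := List.mem_map.1 hy
        exact hm v hv
      have h3 : ∀ ψ : AddChar (AN Pi) ℂ, (if X.G (X.mv u x) then
          ψ ((X.l.map fun v => nk Pi (X.bk (X.mv u x) v).left).sum) else 0) =
          ψ (nk Pi (X.l.map fun v => τ v * (X.bk (X.mv u x) v).left * (τ v)⁻¹).prod) := by
        intro ψ
        rw [if_pos hG, nk_prod _ X.l hm]
        congr 2
        exact List.map_congr_left fun v hv => (nk_conj (hb v hv) _).symm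
      rw [Finset.sum_congr rfl fun ψ _ => h3 ψ, sum_an hr]
      by_cases h4 : (X.l.map fun v => τ v * (X.bk (X.mv u x) v).left * (τ v)⁻¹).prod ∈ NS Pi
      · rw [if_pos h4, if_pos ⟨hG, h4⟩, Nat.cast_one, mul_one]
      · rw [if_neg h4, if_neg fun h => h4 h.2, Nat.cast_zero, mul_zero]
    · rw [if_neg fun h => hG h.1, Nat.cast_zero, mul_zero]
      exact Finset.sum_eq_zero fun ψ _ => if_neg hG
  rw [← Finset.sum_div, h2]
  unfold AD.H
  have h3 : (((X.Cg 1).filter fun u => X.G (X.mv u x) ∧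
        (X.l.map fun v => τ v * (X.bk (X.mv u x) v).left * (τ v)⁻¹).prod ∈ NS Pi).card : ℂ) =
      (Nat.card (NS Pi) : ℂ) *
        (((X.Cg 1).filter fun u => X.G (X.mv u x) ∧ X.RR τ (X.mv u x) = 1).card : ℂ) := by
    exact_mod_cast h1.symm
  rw [h3]
  field_simp

/-- two changes -/
theorem mv_mul (X : AD S P J V) (w u : X.Jf → S) (x : J → SP S P) :
    X.mv w (X.mv u x) = X.mv (fun j => w j * u j) x := by
  funext j
  unfold AD.mv
  by_cases h : j ∈ X.Jf
  · rw [dif_pos h, dif_pos h, dif_pos h, ← mul_assoc]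
    congr 1
    exact (map_mul (SemidirectProduct.inl : S →* SP S P) _ _).symm
  · rw [dif_neg h, dif_neg h, dif_neg h]

/-- changes in `gam_2` -/
theorem pz_mul [Fintype S] (X : AD S P J V) {q : ℕ} (kk : FreeGroup J → Du S q 1) {w : X.Jf → S}
    (hw : w ∈ X.Cg 1) (u : X.Jf → S) : pz X kk (fun j => w j * u j) = pz X kk u := by
  unfold pz
  refine Finset.sum_congr rfl fun j _ => ?_
  by_cases hj : X.pp j
  · rw [if_pos hj, if_pos hj]
  · rw [if_neg hj, if_neg hj]
    unfold AD.Cg at hw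
    have h1 := (Finset.mem_filter.1 hw).2 j
    rw [if_neg hj] at h1
    have h2 : w j ∈ gm S 1 := by
      rw [gm_one]
      exact Subgroup.mem_top _
    have h3 : u j ∈ gm S 1 := by
      rw [gm_one]
      exact Subgroup.mem_top _
    rw [gk_mul h2 h3, (gk_zero h2).2 h1, zero_add]

end one

theorem f1_nin {S P : Type} [Group S] [Group P] [MulDistribMulAction P S] {J V : Type} [Fintype S]
    (X : AD S P J V) {p k Mw q c : ℕ} [NeZero q] {P' : Type} [Group P'] [Finite P]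
    {Pi : SP S P →* P'} (hp : p.Prime) (hX : X.Ok p k Mw q c Pi)
    (kk : FreeGroup J → Du S q 1) :
    F1 X kk = (Nat.card (gm S 2) : ℂ) / (Nat.card (Nk Pi) : ℂ) *
      ∑ ψ : AddChar (AN Pi) ℂ, T0 X Pi kk ψ := by
  obtain ⟨cc, hcc⟩ : ∃ cc, cc = (Nat.card (gm S 2) : ℂ) / (Nat.card (Nk Pi) : ℂ) := ⟨_, rfl⟩
  rw [← hcc]
  have hC : ((X.Cg 1).card : ℂ) ≠ 0 := by
    have h1 : (fun _ => 1 : X.Jf → S) ∈ X.Cg 1 := by
      unfold AD.Cg
      rw [Finset.mem_filter]
      exact ⟨Finset.mem_univ _, fun _ => one_mem _⟩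
    exact_mod_cast (Finset.card_pos.2 ⟨_, h1⟩).ne'
  have hx : ∀ u : X.Jf → S, ∀ j ∈ X.Jf, (X.mv u (x1 X) j).right = X.ph (X.W j) := by
    intro u j hj
    unfold AD.mv
    rw [dif_pos hj, SemidirectProduct.mul_right]
    show 1 * X.ph (X.W j) = _
    rw [one_mul]
  -- the shift by `w`
  have hw : ∀ w ∈ X.Cg 1, ∀ ψ : AddChar (AN Pi) ℂ,
      (∑ u : X.Jf → S, (if X.G (X.mv w (X.mv u (x1 X))) then
        ψ ((X.l.map fun v => nk Pi (X.bk (X.mv w (X.mv u (x1 X))) v).left).sum) else 0) *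
          ep q (-pz X kk u)) =
      ∑ u : X.Jf → S, if X.G (X.mv u (x1 X)) then
      ψ ((X.l.map fun v => nk Pi (X.bk (X.mv u (x1 X)) v).left).sum) * ep q (-pz X kk u)
        else 0 := by
    intro w hw ψ
    refine Fintype.sum_equiv (Equiv.mulLeft w) _ _ fun u => ?_
    have e : (Equiv.mulLeft w) u = fun j => w j * u j := rfl
    rw [e, mv_mul X w u (x1 X), pz_mul X kk hw u]
    by_cases hG : X.G (X.mv (fun j => w j * u j) (x1 X))
    · rw [if_pos hG, if_pos hG]
    · rw [if_neg hG, if_neg hG, zero_mul]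
  unfold F1 T0
  rw [← Finset.sum_div, ← mul_div_assoc]
  congr 1
  have h1 : ∀ u : X.Jf → S, X.H 1 (fun _ => 1) (X.mv u (x1 X)) * ep q (-pz X kk u) =
      cc * (∑ ψ : AddChar (AN Pi) ℂ, ∑ w ∈ X.Cg 1, (if X.G (X.mv w (X.mv u (x1 X))) then
        ψ ((X.l.map fun v => nk Pi (X.bk (X.mv w (X.mv u (x1 X))) v).left).sum) else 0) *
          ep q (-pz X kk u)) / ((X.Cg 1).card : ℂ) := by
    intro u
    rw [h1_val X hX (fun _ => 1) (X.mv u (x1 X)) (hx u), ← hcc, ← Finset.sum_div,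
      mul_div_assoc, mul_assoc, div_mul_eq_mul_div]
    congr 2
    rw [Finset.sum_mul]
    refine Finset.sum_congr rfl fun ψ _ => ?_
    rw [Finset.sum_mul]
  rw [Finset.sum_congr rfl fun u _ => h1 u, ← Finset.sum_div, ← Finset.mul_sum, mul_div_assoc]
  congr 1
  rw [Finset.sum_comm, Finset.sum_div]
  refine Finset.sum_congr rfl fun ψ _ => ?_
  rw [Finset.sum_comm, Finset.sum_congr rfl fun w hw' => hw w hw' ψ, Finset.sum_const,
    nsmul_eq_mul, mul_div_assoc]
  exact mul_div_cancel₀ _ hC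

end H71.S3
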