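import Pool.Agent.H71.S3.Oa
import Pool.Agent.H71.S3.Ob
import Pool.Agent.H73.S3.Adf
import Pool.Agent.H1.S3.Ocy

/-!
# [H71 S3 OC] stage 1 in the frame of chapter B: product form (MP_b39724_nt, stage 3, chapter B)

`one_adf`: `Mm 1 = |gam_2| / |N| * (MN + NG)` (exact).
Proof. For `f` with `wt f ≠ 0`: `Ok`, so `mn_one` and `f1_nin` for `Y = adf f`. Families `κ : Y.Jf → Du S q 1` with `κ = 0` at `pp` ↔ pairs (`κ₀ : J0 → Du S q 1`, `h` with `l1 h = f` and `kv h v = 0` for `PPc v`);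
`sg Y κ = sgE κ₀ h`. For `v ∈ sp f`, `k = ck κ`, `a = of (inl v)`, `d = Wv v`, `k ⁅a, d⁆ = 0`: `zeta k = k a = kv h v` (`ph a = 1`; `zeta_fix` / `zeta_one` of H1/S3/Zon), `zet' k = k (d⁻¹) = - d⁻¹ k d`, so the phase
is `(k d) (φ (F v) y)` (`ph d = φ (F v)`: `ph_v`; `φ (F v) = 1` for `pp`). `T0` is a product over the letters: `Y.G` is a conjunction (`G.Pi (il u * inr g) = pi u * g`), the list `W.l` runs over `Z` and `S0`
(nodup), the places outside `sp f`, `E`, `S0` have `t = 1`, block `1`; a place of `sp f`, `E` has one letter; the sum over `u : Jf → S` is the product of the sums over the `u v`, `v ∈ sp f`, and the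
sum over `u : J0 → S` (`Finset.prod_univ_sum`, `Jf = (sp f ∪ E).disjSum univ`).
-/

set_option autoImplicit false

open scoped NumberField commutatorElement
open IsDedekindDomain
open scoped Classical

noncomputable section

namespace H71.S3

open H63.MA H38.BB H38.BG H57.PC H57.BRA H77.WD H77.WE H77.PC3 H35.CF H35.UB H77.S3 H1.S3 H73.S3

attribute [local instance 50] Fintype.ofFinite

section sums

variable {K : Type} [Field K] [NumberField K] {Ω : Type} [Field Ω] [Algebra K Ω]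
  {p N : ℕ} {ζ : K} {D : RD0 K p ζ} {Q : DP K Ω} {A : GS D Ω} {P : Type} [Group P]
  {c : CL p N P} {S : Type} [Group S] [MulDistribMulAction P S] [Fintype S] {q : ℕ} [NeZero q]
  (G : SG c S) (B : SD D Q A) (X : FD A P S) (W : WF A)

/-- the enriched configurations over `f` -/
def Hf [Fintype P] (T : ℝ) (Zc : Finset (Pl K)) (f : Pl K → Option (Px c)) :
    Finset (Pl K → Option (La c S q)) :=
  (Cf Zc (La c S q)).filter fun h => l1 h = f ∧ ∀ v ∈ sp Zc h, PPc X W T v → kv h v = 0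

theorem sum_kap [Fintype P] (T : ℝ) (Zc : Finset (Pl K)) (hZ : Disjoint Zc X.E)
    (f : Pl K → Option (Px c)) (hf : f ∈ Cf Zc (Px c))
    (F : ((adf G B X W T Zc f).Jf → Du S q 1) → ℂ)
    (F' : (J0 X → Du S q 1) → (Pl K → Option (La c S q)) → ℂ)
    (hF : ∀ κ κ₀ h, h ∈ Hf (q := q) X W T Zc f → Kc B X W κ₀ h →
      (∀ j : (adf G B X W T Zc f).Jf, κ j = kap X κ₀ h j) → F κ = F' κ₀ h) :
    ∑ κ ∈ K1 (adf G B X W T Zc f) q, F κ =
      ∑ κ₀ : J0 X → Du S q 1, ∑ h ∈ Hf (q := q) X W T Zc f, if Kc B X W κ₀ h then F' κ₀ h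
        else 0 := by
  have hfn : ∀ v, v ∉ Zc → f v = none := mem_cf.1 hf
  -- membership in `K1`
  have hK1 : ∀ κ : (adf G B X W T Zc f).Jf → Du S q 1, κ ∈ K1 (adf G B X W T Zc f) q ↔
      (∀ j : (adf G B X W T Zc f).Jf, (adf G B X W T Zc f).pp j → κ j = 0) ∧
      ∀ v ∈ W.l, ck (adf G B X W T Zc f) κ
        (wd FreeGroup.of (Sum.elim W.Wv W.Wi) (blA B v)) = 0 := by
    intro κ
    unfold K1
    simp only [Finset.mem_filter, Finset.mem_univ, true_and]
    exact Iff.rfl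
  have hJ : ∀ j, j ∈ (adf G B X W T Zc f).Jf ↔ j ∈ (sp Zc f ∪ X.E).disjSum Finset.univ :=
    fun j => Iff.rfl
  have hJv : ∀ v, Sum.inl v ∈ (adf G B X W T Zc f).Jf ↔ v ∈ sp Zc f ∨ v ∈ X.E := by
    intro v
    rw [hJ, Finset.inl_mem_disjSum, Finset.mem_union]
  have hJ0 : ∀ j, j ∈ J0 X → j ∈ (adf G B X W T Zc f).Jf := by
    rintro (v | i) hj
    · exact (hJv v).2 (Or.inr ((mem_j0 X v).1 hj))
    · exact (hJ _).2 (Finset.inr_mem_disjSum.2 (Finset.mem_univ i))
  -- the maps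
  obtain ⟨toH, htoH⟩ : ∃ toH : ((adf G B X W T Zc f).Jf → Du S q 1) →
      (Pl K → Option (La c S q)), ∀ κ v, toH κ v = (f v).map fun s =>
        (s, if hv : Sum.inl v ∈ (adf G B X W T Zc f).Jf then κ ⟨Sum.inl v, hv⟩ else 0) :=
    ⟨fun κ v => (f v).map fun s =>
        (s, if hv : Sum.inl v ∈ (adf G B X W T Zc f).Jf then κ ⟨Sum.inl v, hv⟩ else 0),
      fun _ _ => rfl⟩
  have hl1 : ∀ κ, l1 (toH κ) = f := by
    intro κ
    funext v
    unfold l1
    rw [htoH, Option.map_map]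
    show (f v).map (fun s => s) = f v
    cases f v <;> rfl
  have hcf : ∀ κ, toH κ ∈ Cf Zc (La c S q) := by
    intro κ
    rw [mem_cf]
    intro v hv
    rw [htoH, hfn v hv]
    rfl
  have hkv : ∀ κ v, ∀ hv : v ∈ sp Zc f, kv (toH κ) v = κ ⟨Sum.inl v, (hJv v).2 (Or.inl hv)⟩ := by
    intro κ v hv
    obtain ⟨s, hs⟩ : ∃ s, f v = some s := by
      rw [← Option.ne_none_iff_exists']
      exact (mem_sp.1 hv).2
    unfold kv
    rw [htoH, hs, Option.map_some, Option.elim_some, dif_pos ((hJv v).2 (Or.inl hv))]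
  have hkap : ∀ (κ : (adf G B X W T Zc f).Jf → Du S q 1) j,
      κ j = kap X (fun j => κ ⟨j, hJ0 j j.2⟩) (toH κ) j := by
    rintro κ ⟨j, hj⟩
    by_cases hj0 : j ∈ J0 X
    · rw [kap_pos X _ _ hj0]
    · rw [kap_neg X _ _ hj0]
      rcases j with v | i
      · have hv : v ∈ sp Zc f := ((hJv v).1 hj).resolve_right fun h => hj0 ((mem_j0 X v).2 h)
        rw [Sum.elim_inl, hkv κ v hv]
      · exact absurd (mem_j0' X i) hj0
  have hHf : ∀ h, h ∈ Hf (q := q) X W T Zc f ↔ h ∈ Cf Zc (La c S q) ∧ l1 h = f ∧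
      ∀ v ∈ sp Zc h, PPc X W T v → kv h v = 0 := by
    intro h
    unfold Hf
    rw [Finset.mem_filter]
  have hpp : ∀ v, (adf G B X W T Zc f).pp (Sum.inl v) ↔ v ∈ sp Zc f ∧ PPc X W T v :=
    fun v => Iff.rfl
  have hpp' : ∀ i, ¬(adf G B X W T Zc f).pp (Sum.inr i) := fun i h => h
  have hmem : ∀ κ, κ ∈ K1 (adf G B X W T Zc f) q → toH κ ∈ Hf (q := q) X W T Zc f ∧
      Kc B X W (fun j => κ ⟨j, hJ0 j j.2⟩) (toH κ) := by
    intro κ hκ
    obtain ⟨h1, h2⟩ := (hK1 κ).1 hκ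
    refine ⟨(hHf _).2 ⟨hcf κ, hl1 κ, fun v hv hp => ?_⟩, fun v hv => ?_⟩
    · have hv' : v ∈ sp Zc f := by
        rw [← hl1 κ, sp_l1]
        exact hv
      rw [hkv κ v hv']
      exact h1 ⟨Sum.inl v, _⟩ ((hpp v).2 ⟨hv', hp⟩)
    · have h3 := h2 v hv
      unfold ck at h3
      rw [sg_eq G B X W T Zc f (fun j => κ ⟨j, hJ0 j j.2⟩) (toH κ)
        (mem_cf.1 (hcf κ)) (hl1 κ) κ (hkap κ)] at h3
      exact h3
  have hback : ∀ κ₀ h, h ∈ Hf (q := q) X W T Zc f → Kc B X W κ₀ h →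
      (fun j : (adf G B X W T Zc f).Jf => kap X κ₀ h j) ∈ K1 (adf G B X W T Zc f) q := by
    intro κ₀ h hh hK
    obtain ⟨h1, h2, h3⟩ := (hHf h).1 hh
    rw [hK1]
    refine ⟨?_, fun v hv => ?_⟩
    · rintro ⟨v | i, hj⟩ hp
      · have hv := (hpp v).1 hp
        have hE : v ∉ X.E := fun hE => Finset.disjoint_left.1 hZ (mem_sp.1 hv.1).1 hE
        show kap X κ₀ h (Sum.inl v) = 0
        rw [kap_neg X κ₀ h fun h4 => hE ((mem_j0 X v).1 h4), Sum.elim_inl]
        refine h3 v ?_ hv.2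
        rw [← sp_l1, h2]
        exact hv.1
      · exact absurd hp (hpp' i)
    · unfold ck
      rw [sg_eq G B X W T Zc f κ₀ h (mem_cf.1 h1) h2 _ fun j => rfl]
      exact hK v hv
  have hleft : ∀ κ₀ h, h ∈ Hf (q := q) X W T Zc f →
      (fun j : J0 X => kap X κ₀ h j) = κ₀ ∧
      toH (fun j : (adf G B X W T Zc f).Jf => kap X κ₀ h j) = h := by
    intro κ₀ h hh
    obtain ⟨h1, h2, h3⟩ := (hHf h).1 hh
    refine ⟨funext fun j => kap_pos X κ₀ h j.2, funext fun v => ?_⟩
    rw [htoH]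
    cases hhv : h v with
    | none =>
      have hfv : f v = none := by
        rw [← h2]
        exact l1_none.2 hhv
      rw [hfv]
      rfl
    | some b =>
      have hfv : f v = some b.1 := by
        rw [← h2]
        exact l1_some hhv
      have hvZ : v ∈ Zc := by
        by_contra h4
        rw [mem_cf.1 h1 v h4] at hhv
        cases hhv
      have hv : v ∈ sp Zc f := mem_sp.2 ⟨hvZ, by rw [hfv]; exact Option.some_ne_none _⟩
      have hE : v ∉ X.E := fun hE => Finset.disjoint_left.1 hZ hvZ hE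
      rw [hfv, Option.map_some, dif_pos ((hJv v).2 (Or.inl hv)),
        kap_neg X κ₀ h fun h4 => hE ((mem_j0 X v).1 h4), Sum.elim_inl]
      unfold kv
      rw [hhv]
      rfl
  have h0 : (∑ κ₀ : J0 X → Du S q 1, ∑ h ∈ Hf (q := q) X W T Zc f, if Kc B X W κ₀ h then F' κ₀ h
        else 0) = ∑ x ∈ ((Finset.univ : Finset (J0 X → Du S q 1)) ×ˢ
          Hf (q := q) X W T Zc f).filter (fun x => Kc B X W x.1 x.2), F' x.1 x.2 := by
    rw [Finset.sum_filter, Finset.sum_product]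
  rw [h0]
  refine Finset.sum_bij' (fun κ _ => (fun j : J0 X => κ ⟨j, hJ0 j j.2⟩, toH κ))
    (fun x _ => fun j : (adf G B X W T Zc f).Jf => kap X x.1 x.2 j) ?_ ?_ ?_ ?_ ?_
  · intro κ hκ
    rw [Finset.mem_filter, Finset.mem_product]
    exact ⟨⟨Finset.mem_univ _, (hmem κ hκ).1⟩, (hmem κ hκ).2⟩
  · intro x hx
    rw [Finset.mem_filter, Finset.mem_product] at hx
    exact hback x.1 x.2 hx.1.2 hx.2
  · intro κ _
    funext j
    exact (hkap κ j).symm
  · intro x hx
    rw [Finset.mem_filter, Finset.mem_product] at hx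
    exact Prod.ext (hleft x.1 x.2 hx.1.2).1 (hleft x.1 x.2 hx.1.2).2
  · intro κ hκ
    exact hF κ _ _ (hmem κ hκ).1 (hmem κ hκ).2 (hkap κ)

end sums

theorem one_adf {K : Type} [Field K] [NumberField K] {Ω : Type} [Field Ω] [Algebra K Ω]
    {p N : ℕ} {ζ : K} {D : RD0 K p ζ} {Q : DP K Ω} {A : GS D Ω} {P : Type} [Group P]
    {c : CL p N P} {S : Type} [Group S] [MulDistribMulAction P S] [Fintype S] [Fintype P] {q : ℕ}
    [NeZero q] (hp : p.Prime) (G : SG c S) (B : SD D Q A) (X : FD A P S) (W : WF A) {k Mw c₀ : ℕ}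
    (hX : X.Ok G B W) (hW : W.Ok B k Mw) (hP : Sml p k Mw P) (T : ℝ) (Zc : Finset (Pl K))
    (hZ : Disjoint Zc X.E) (hZc : Zc ⊆ W.Z) (hE : X.E ⊆ W.Z) (wt : (Pl K → Option (Px c)) → ℂ)
    (hok : ∀ f ∈ Cf Zc (Px c), wt f ≠ 0 → (adf G B X W T Zc f).Ok p k Mw q c₀ G.Pi) :
    Mm G B X W T Zc wt 1 = (Nat.card (gm S 2) : ℂ) / (Nat.card (Nk G.Pi) : ℂ) *
      (MN q G B X W Zc wt + NG q G B X W T Zc wt) := by
  obtain ⟨cc, hcc⟩ : ∃ cc, cc = (Nat.card (gm S 2) : ℂ) / (Nat.card (Nk G.Pi) : ℂ) := ⟨_, rfl⟩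
  rw [← hcc]
  -- one configuration
  have h1 : ∀ f ∈ Cf Zc (Px c), wt f * (adf G B X W T Zc f).Mn (fun τ =>
      (adf G B X W T Zc f).H 1 τ ((adf G B X W T Zc f).vl τ)) =
      cc * ∑ ψ : AddChar (AN G.Pi) ℂ, ∑ κ₀ : J0 X → Du S q 1, ∑ h ∈ Hf (q := q) X W T Zc f,
        sm G B X W Zc wt ψ κ₀ h := by
    intro f hf
    by_cases hw : wt f = 0
    · rw [hw, zero_mul]
      symm
      refine mul_eq_zero_of_right _ (Finset.sum_eq_zero fun ψ _ => Finset.sum_eq_zero fun κ₀ _ =>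
        Finset.sum_eq_zero fun h hh => ?_)
      have h2 : l1 h = f := (Finset.mem_filter.1 hh).2.1
      unfold sm
      rw [h2, hw, zero_mul, zero_mul, ite_self]
    · have hok' := hok f hf hw
      rw [mn_one (adf G B X W T Zc f) hp hok']
      have h2 : ∀ κ ∈ K1 (adf G B X W T Zc f) q, ep q (phs (adf G B X W T Zc f)
          (ck (adf G B X W T Zc f) κ)) * F1 (adf G B X W T Zc f) (ck (adf G B X W T Zc f) κ) =
          cc * ∑ ψ : AddChar (AN G.Pi) ℂ, ep q (phs (adf G B X W T Zc f)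
            (ck (adf G B X W T Zc f) κ)) * T0 (adf G B X W T Zc f) G.Pi
              (ck (adf G B X W T Zc f) κ) ψ := by
        intro κ _
        rw [f1_nin (adf G B X W T Zc f) hp hok', ← hcc, Finset.mul_sum, Finset.mul_sum,
          Finset.mul_sum]
        refine Finset.sum_congr rfl fun ψ _ => ?_
        ring
      rw [Finset.sum_congr rfl h2, ← Finset.mul_sum, Finset.sum_comm, mul_left_comm,
        Finset.mul_sum]
      congr 1
      refine Finset.sum_congr rfl fun ψ _ => ?_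
      rw [sum_kap G B X W T Zc hZ f hf (fun κ => ep q (phs (adf G B X W T Zc f)
            (ck (adf G B X W T Zc f) κ)) * T0 (adf G B X W T Zc f) G.Pi
              (ck (adf G B X W T Zc f) κ) ψ) (fun κ₀ h => om Zc (fun v a => w1 G ψ a.1
              (X.φ (W.Fr.F v)) a.2 (sgE X W κ₀ h (W.Wv v)).n) h *
        Q1 G B X W ψ (fun w => (sgE X W κ₀ h w).n) FreeGroup.of (Sum.elim W.Wv W.Wi))
        (fun κ κ₀ h hh hK hκ => ?_)]
      · rw [Finset.mul_sum]
        refine Finset.sum_congr rfl fun κ₀ _ => ?_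
        rw [Finset.mul_sum]
        refine Finset.sum_congr rfl fun h hh => ?_
        have h3 : l1 h = f := (Finset.mem_filter.1 hh).2.1
        unfold sm
        by_cases hK : Kc B X W κ₀ h
        · rw [if_pos hK, if_pos hK, h3, mul_assoc]
        · rw [if_neg hK, if_neg hK, mul_zero]
      · obtain ⟨h4, h5, h6⟩ := Finset.mem_filter.1 hh
        exact core_eq G B X W hX hW hP T Zc hZ hZc hE f κ₀ h (mem_cf.1 h4) h5 h6 hK κ hκ ψ
  have hsum : Mm G B X W T Zc wt 1 = cc * ∑ ψ : AddChar (AN G.Pi) ℂ, ∑ κ₀ : J0 X → Du S q 1,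
      ∑ h ∈ (Cf Zc (La c S q)).filter (fun h => ∀ v ∈ sp Zc h, PPc X W T v → kv h v = 0),
        sm G B X W Zc wt ψ κ₀ h := by
    unfold Mm
    rw [Finset.sum_congr rfl h1, ← Finset.mul_sum, Finset.sum_comm]
    congr 1
    refine Finset.sum_congr rfl fun ψ _ => ?_
    rw [Finset.sum_comm]
    refine Finset.sum_congr rfl fun κ₀ _ => ?_
    have h3 : ∀ h ∈ (Cf Zc (La c S q)).filter (fun h => ∀ v ∈ sp Zc h, PPc X W T v →
        kv h v = 0), l1 h ∈ Cf Zc (Px c) := by
      intro h hh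
      rw [mem_cf]
      intro v hv
      exact l1_none.2 (mem_cf.1 (Finset.mem_filter.1 hh).1 v hv)
    rw [← Finset.sum_fiberwise_of_maps_to h3]
    refine Finset.sum_congr rfl fun f _ => Finset.sum_congr ?_ fun _ _ => rfl
    unfold Hf
    rw [Finset.filter_filter]
    refine Finset.filter_congr fun h _ => ?_
    exact and_comm
  rw [hsum]
  congr 1
  unfold MN NG
  rw [← Finset.sum_add_distrib]
  refine Finset.sum_congr rfl fun ψ _ => ?_
  rw [← Finset.sum_add_distrib]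
  refine Finset.sum_congr rfl fun κ₀ _ => ?_
  rw [← Finset.sum_filter_add_sum_filter_not ((Cf Zc (La c S q)).filter fun h =>
    ∀ v ∈ sp Zc h, PPc X W T v → kv h v = 0) (fun h => ∀ v ∈ Zc, kv h v = 0),
    Finset.filter_filter, Finset.filter_filter]
  congr 1
  · -- the main part
    symm
    refine Finset.sum_bij' (fun f _ => fun v => (f v).map fun s => (s, (0 : Du S q 1)))
      (fun h _ => l1 h) ?_ ?_ ?_ ?_ ?_
    · intro f hf
      rw [Finset.mem_filter, mem_cf]
      have h2 : ∀ v, kv (fun v => (f v).map fun s => (s, (0 : Du S q 1))) v = 0 := by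
        intro v
        unfold kv
        cases hv : f v <;> simp only [hv, Option.map_none, Option.map_some, Option.elim_none,
          Option.elim_some]
      refine ⟨fun v hv => ?_, fun v _ _ => h2 v, fun v _ => h2 v⟩
      rw [mem_cf.1 hf v hv]
      rfl
    · intro h hh
      rw [mem_cf]
      intro v hv
      exact l1_none.2 (mem_cf.1 (Finset.mem_filter.1 hh).1 v hv)
    · intro f _
      funext v
      unfold l1
      rw [Option.map_map]
      cases f v <;> rfl
    · intro h hh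
      obtain ⟨h2, -, h3⟩ := Finset.mem_filter.1 hh
      funext v
      show (l1 h v).map (fun s => (s, (0 : Du S q 1))) = h v
      cases hv : h v with
      | none =>
        rw [l1_none.2 hv]
        rfl
      | some b =>
        have h4 : v ∈ Zc := by
          by_contra h5
          rw [mem_cf.1 h2 v h5] at hv
          cases hv
        have h5 := h3 v h4
        unfold kv at h5
        rw [hv] at h5
        have h6 : b.2 = 0 := h5
        rw [l1_some hv, Option.map_some, ← h6]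
    · intro f _
      rfl
  · -- the rest
    refine Finset.sum_congr ?_ fun _ _ => rfl
    refine Finset.filter_congr fun h _ => ?_
    push Not
    exact Iff.rfl

end H71.S3
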