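import Pool.Agent.H73.S3.Fr
import Pool.Agent.H73.S3.Tvk

/-!
# [H71 S3 CNW] the counting formula in the frame of chapter B (MP_b39724_nt, stage 3; 4' of 1707, section 0 of 1715)

`Tg G`: the group generated by the labels. `Fb φ`: the homomorphisms of the fibre and of the types. `lf φ τ`: the letters `τ⁻¹ φ(t v) τ`. `wF wt φ`: the mean over the
`τ : Zc → Tg` of `wt` at the letters.
* `hc_eq`: at the last stage (`gam_(c+1) = 1`) `H c τ (vl τ)` is the indicator function of `G (vl τ)`.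
* `cnw`: the sum over the configurations of the means of the indicator function is `∏_(v bad) |Cen v| / |Tg|` times the sum over the homomorphisms of `wF wt φ`.
Proof of `hc_eq`: `Cg c`: `u j ∈ gam_c` (`pp j`), `u j = 1` otherwise. `pp j`: `t j = il (y j)`, `⁅t, u x⁆ = ⁅t, x⁆` because `⁅y, u⁆ ∈ gam_(c+1)` and `u` commutes with `⁅y, x⁆`; so
`RR τ (mv u x) = RR τ x`, `= 1` at `x = vl τ` (`H73.S3.rr_vl`). `G (mv u x) ↔ G x`: hypothesis `hG`. So `H c τ x = |gam_(c+1)| · 1[G x] = 1[G x]`.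
(`hG` for `adf`, lemma `hg_adf`: for `v ∈ sp Zc f`: `Pi (il u * x) = pi u * Pi x` and `s` commutes with `pi u`, as `s = pi (y s)`, `⁅y s, u⁆ ∈ gam_(c+1) = 1`; letters outside `pp` do not change.)
Proof of `cnw`: `Pi (vl τ j) = τ̄⁻¹ θ̄ (W j) τ̄` with `θ̄ = Pi ∘ th τ = thP B l E (sp Zc f) (τ̄ s τ̄⁻¹) τ̄` (`τ̄ = pi τ`; `FD.Ok.sv`, `si`); so `G (vl τ)` is `GP` of Cnt.lean for the labels
`τ̄_v s_v τ̄_v⁻¹` (`g_iff`); the mean over the `τ` is the mean over the pairs (`τ̄` on `Zc`, `τ̄` on the bad places) (`mean_hom`, `mn_eq`); for fixed `τ̄` on `Zc` use `cnt'`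
(`WF.Ok.cr`, `cm`, `rel`); finally exchange the sums: `(f, τ̄) ↔ (φ, τ̄)`, `f = lf φ τ̄` (`fit_lf`).
-/

set_option autoImplicit false

open scoped NumberField commutatorElement
open IsDedekindDomain
open scoped Classical

noncomputable section

namespace H71.S3

open H63.MA H38.BB H38.BG H57.PC H57.BRA H77.WD H77.WE H77.PC3 H35.CF H35.UB H77.S3 H73.S3

section gen

variable {S P : Type} [Group S] [Group P] [MulDistribMulAction P S] {J V : Type}

theorem mv_eq (X : AD S P J V) (u : X.Jf → S) (x : J → SP S P) (j : X.Jf) :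
    X.mv u x j = il (u j) * x j := by
  unfold AD.mv
  rw [dif_pos j.2]

theorem mv_ne (X : AD S P J V) (u : X.Jf → S) (x : J → SP S P) (j : J) (hj : j ∉ X.Jf) :
    X.mv u x j = x j := by
  unfold AD.mv
  rw [dif_neg hj]

/-- a letter whose change is trivial -/
theorem mv_one (X : AD S P J V) (u : X.Jf → S) (x : J → SP S P) (j : J)
    (h : ∀ hj : j ∈ X.Jf, u ⟨j, hj⟩ = 1) : X.mv u x j = x j := by
  by_cases hj : j ∈ X.Jf
  · rw [mv_eq X u x ⟨j, hj⟩, h hj]
    unfold il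
    rw [map_one, one_mul]
  · exact mv_ne X u x j hj

theorem mv_inv (X : AD S P J V) (u : X.Jf → S) (x : J → SP S P) :
    X.mv u⁻¹ (X.mv u x) = x := by
  funext j
  by_cases hj : j ∈ X.Jf
  · rw [mv_eq X _ _ ⟨j, hj⟩, mv_eq X _ _ ⟨j, hj⟩]
    unfold il
    rw [Pi.inv_apply, map_inv, inv_mul_cancel_left]
  · rw [mv_ne X _ _ j hj, mv_ne X _ _ j hj]

/-- the commutator with a letter in `S` does not change at the last stage -/
theorem comm_last {c : ℕ} (hn : gm S (c + 1) = ⊥) {u y : S} (hu : u ∈ gm S c) (x : SP S P) :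
    ⁅(il y : SP S P), il u * x⁆ = ⁅(il y : SP S P), x⁆ := by
  have hc : ∀ s : S, u * s = s * u := by
    intro s
    have h := gm_comm c (v := s) hu
    rw [hn, Subgroup.mem_bot, commutatorElement_eq_one_iff_mul_comm] at h
    exact h
  have h1 : ∃ s : S, ⁅(il y : SP S P), x⁆ = il s := by
    refine ⟨⁅(il y : SP S P), x⁆.left, ?_⟩
    refine SemidirectProduct.ext rfl ?_
    show ⁅(il y : SP S P), x⁆.right = (1 : P)
    have h2 : ⁅(il y : SP S P), x⁆.right =
        SemidirectProduct.rightHom (⁅(il y : SP S P), x⁆) := rfl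
    rw [h2, map_commutatorElement]
    unfold il
    rw [SemidirectProduct.rightHom_inl, commutatorElement_one_left]
  obtain ⟨s, hs⟩ := h1
  have h3 : (il y : SP S P) * il u = il u * il y := by
    unfold il
    rw [← map_mul, ← map_mul, hc]
  calc ⁅(il y : SP S P), il u * x⁆ = (il y * il u) * x * (il y)⁻¹ * x⁻¹ * (il u)⁻¹ := by
        rw [commutatorElement_def]
        group
    _ = il u * ⁅(il y : SP S P), x⁆ * (il u)⁻¹ := by
        rw [h3, commutatorElement_def]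
        group
    _ = _ := by
        rw [hs]
        unfold il
        rw [← map_mul, ← map_inv, ← map_mul, hc, mul_inv_cancel_right]

/-- the last stage -/
theorem hc_eq [Fintype S] (X : AD S P J V) {p k Mw q c : ℕ} [NeZero q] {P' : Type} [Group P']
    [Finite P] {Pi : SP S P →* P'} (hp : p.Prime) (hX : X.Ok p k Mw q c Pi) (hc : 1 ≤ c)
    (hG : ∀ (x : J → SP S P) (u : X.Jf → S), (∀ j ∈ X.Jf, (x j).right = X.ph (X.W j)) →
      u ∈ X.Cg c → X.G x → X.G (X.mv u x)) (τ : V → S) :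
    X.H c τ (X.vl τ) = if X.G (X.vl τ) then 1 else 0 := by
  have hone : ∀ u ∈ X.Cg c, ∀ j : X.Jf, ¬X.pp j → u j = 1 := by
    intro u hu j hj
    unfold AD.Cg at hu
    have h := (Finset.mem_filter.1 hu).2 j
    rw [if_neg hj, hX.nil, Subgroup.mem_bot] at h
    exact h
  have hRR : ∀ u ∈ X.Cg c, X.RR τ (X.mv u (X.vl τ)) = 1 := by
    intro u hu
    rw [← rr_vl X hp hX τ]
    unfold AD.RR
    congr 1
    refine List.map_congr_left fun v _ => ?_
    congr 1
    unfold AD.bk H1.S3.wd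
    congr 1
    refine List.map_congr_left fun i _ => ?_
    by_cases hi : i ∈ X.Jf
    · by_cases hpp : X.pp i
      · rw [mv_eq X u _ ⟨i, hi⟩, hX.pt i hi hpp]
        refine comm_last hX.nil ?_ _
        unfold AD.Cg at hu
        have h := (Finset.mem_filter.1 hu).2 ⟨i, hi⟩
        rw [if_pos hpp] at h
        exact h
      · rw [mv_one X u _ i fun hj => hone u hu ⟨i, hj⟩ hpp]
    · rw [mv_ne X u _ i hi]
  have hrt : ∀ j, (X.vl τ j).right = X.ph (X.W j) := vl_rt X τ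
  have hinv : ∀ u ∈ X.Cg c, u⁻¹ ∈ X.Cg c := by
    intro u hu
    unfold AD.Cg at hu ⊢
    refine Finset.mem_filter.2 ⟨Finset.mem_univ _, fun j => ?_⟩
    exact inv_mem ((Finset.mem_filter.1 hu).2 j)
  have hmr : ∀ (u : X.Jf → S) (x : J → SP S P) (j : J), (X.mv u x j).right = (x j).right := by
    intro u x j
    by_cases hj : j ∈ X.Jf
    · rw [mv_eq X u x ⟨j, hj⟩]
      show (1 : P) * _ = _
      rw [one_mul]
    · rw [mv_ne X u x j hj]
  have hGi : ∀ u ∈ X.Cg c, (X.G (X.mv u (X.vl τ)) ↔ X.G (X.vl τ)) := by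
    intro u hu
    constructor
    · intro h
      have h1 := hG (X.mv u (X.vl τ)) u⁻¹ (fun j _ => by rw [hmr, hrt]) (hinv u hu) h
      rwa [mv_inv] at h1
    · exact hG _ u (fun j _ => hrt j) hu
  have hcard : (Nat.card (gm S (c + 1)) : ℂ) = 1 := by
    rw [hX.nil, Subgroup.card_bot, Nat.cast_one]
  have h1 : (1 : X.Jf → S) ∈ X.Cg c := by
    unfold AD.Cg
    exact Finset.mem_filter.2 ⟨Finset.mem_univ _, fun j => one_mem _⟩
  have hne : ((X.Cg c).card : ℂ) ≠ 0 := by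
    rw [Nat.cast_ne_zero]
    exact (Finset.card_pos.2 ⟨1, h1⟩).ne'
  unfold AD.H
  rw [hcard, one_mul]
  by_cases hx : X.G (X.vl τ)
  · rw [if_pos hx, Finset.filter_true_of_mem fun u hu => ⟨(hGi u hu).2 hx, hRR u hu⟩,
      div_self hne]
  · rw [if_neg hx, Finset.filter_false_of_mem fun u hu h => hx ((hGi u hu).1 h.1),
      Finset.card_empty, Nat.cast_zero, zero_div]

end gen

section mean

variable {A B : Type} [Group A] [Group B] [Fintype A] [Fintype B]

/-- the mean over a group is the mean over the image of a homomorphism -/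
theorem mean_hom (r : A →* B) (hr : Function.Surjective r) (F : B → ℂ) :
    (∑ a, F (r a)) / (Fintype.card A : ℂ) = (∑ b, F b) / (Fintype.card B : ℂ) := by
  have h0 : ∀ b : B, (Finset.univ.filter fun a => r a = b).card =
      (Finset.univ.filter fun a => r a = 1).card := fun b =>
    MonoidHom.card_fiber_eq_of_mem_range r (hr b) (hr 1)
  set m : ℕ := (Finset.univ.filter fun a => r a = 1).card with hm
  have h1 : ∑ a, F (r a) = m * ∑ b, F b := by
    rw [← Finset.sum_fiberwise (s := Finset.univ) (g := r), Finset.mul_sum]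
    refine Finset.sum_congr rfl fun b _ => ?_
    rw [Finset.sum_congr rfl (g := fun _ => F b) (fun a ha => by
      rw [(Finset.mem_filter.1 ha).2]), Finset.sum_const, h0, nsmul_eq_mul]
  have h2 : Fintype.card A = m * Fintype.card B := by
    have h3 := Finset.card_eq_sum_card_fiberwise (s := (Finset.univ : Finset A))
      (t := (Finset.univ : Finset B)) (f := r) (fun _ _ => Finset.mem_coe.2 (Finset.mem_univ _))
    rw [Finset.card_univ] at h3
    rw [h3, Finset.sum_congr rfl fun b _ => h0 b, Finset.sum_const, Finset.card_univ, smul_eq_mul,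
      mul_comm]
  have hm0 : (m : ℂ) ≠ 0 := by
    rw [Nat.cast_ne_zero]
    intro h
    rw [h, zero_mul] at h2
    exact Fintype.card_ne_zero h2
  rw [h1, h2, Nat.cast_mul, mul_div_mul_left _ _ hm0]

end mean

section fr

variable {K : Type} [Field K] [NumberField K] {Ω : Type} [Field Ω] [Algebra K Ω]
  {p N : ℕ} {ζ : K} {D : RD0 K p ζ} {Q : DP K Ω} {A : GS D Ω} {P : Type} [Group P]
  {c : CL p N P} {S : Type} [Group S] [MulDistribMulAction P S]

/-- the group generated by the labels -/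
def Tg (G : SG c S) : Subgroup P := G.pi.range

/-- the homomorphisms of the fibre and of the types -/
def Fb (G : SG c S) (B : SD D Q A) (X : FD A P S) (W : WF A) (Zc : Finset (Pl K))
    (φ : Gal(Ω/K) →* P) : Prop :=
  Unz W.L (Zc ∪ X.E) φ ∧
    (∀ v ∈ Zc, φ (W.L.t v) ≠ 1 → ∃ i, IsConj (φ (W.L.t v)) (c.g i)) ∧
    ∀ v ∈ BB D X.E, ∃ τ ∈ Tg G, At W.Fr B X.l v τ φ

/-- extension of the conjugators by `1` -/
def xz {T : Subgroup P} {Zc : Finset (Pl K)} (τ : Zc → T) (v : Pl K) : P :=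
  if h : v ∈ Zc then (τ ⟨v, h⟩ : P) else 1

/-- the letters of a homomorphism -/
def lf (c : CL p N P) (W : WF A) (Zc : Finset (Pl K)) (φ : Gal(Ω/K) →* P) (τ : Pl K → P) :
    Pl K → Option (Px c) := fun v =>
  if h : v ∈ Zc ∧ φ (W.L.t v) ≠ 1 ∧ ∃ i, IsConj ((τ v)⁻¹ * φ (W.L.t v) * τ v) (c.g i) then
    some ⟨(τ v)⁻¹ * φ (W.L.t v) * τ v, h.2.2⟩ else none

/-- the weight of a homomorphism -/
def wF [Fintype P] (G : SG c S) (W : WF A) (Zc : Finset (Pl K))
    (wt : (Pl K → Option (Px c)) → ℂ) (φ : Gal(Ω/K) →* P) : ℂ :=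
  (∑ τ : Zc → Tg G, wt (lf c W Zc φ (xz τ))) / (Nat.card (Tg G) : ℂ) ^ Zc.card

theorem Pi_il (G : SG c S) (u : S) : G.Pi (il u) = G.pi u := by
  rw [SG.Pi_mk]
  show G.pi u * 1 = _
  rw [mul_one]

/-- the hypothesis `hG` of `hc_eq` -/
theorem hg_adf [Fintype S] (G : SG c S) (B : SD D Q A) (X : FD A P S) (W : WF A) (T : ℝ)
    (Zc : Finset (Pl K)) (f : Pl K → Option (Px c)) (hZ : Disjoint Zc X.E) {c₀ : ℕ} (hc : 1 ≤ c₀)
    (hn : gm S (c₀ + 1) = ⊥) (x : Pl K ⊕ Fin A.g → SP S P) (u : (adf G B X W T Zc f).Jf → S)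
    (hu : u ∈ (adf G B X W T Zc f).Cg c₀) (hx : (adf G B X W T Zc f).G x) :
    (adf G B X W T Zc f).G ((adf G B X W T Zc f).mv u x) := by
  have hu' : ∀ j : (adf G B X W T Zc f).Jf,
      u j ∈ gm S (if (adf G B X W T Zc f).pp j then c₀ else c₀ + 1) := by
    unfold AD.Cg at hu
    exact (Finset.mem_filter.1 hu).2
  have hone : ∀ j : (adf G B X W T Zc f).Jf, ¬(adf G B X W T Zc f).pp j → u j = 1 := by
    intro j hj
    have h := hu' j
    rw [if_neg hj, hn, Subgroup.mem_bot] at h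
    exact h
  obtain ⟨h1, h2, h3⟩ := hx
  refine ⟨fun v hv s hs => ?_, fun v hv => ?_, fun i => ?_⟩
  · have hj : Sum.inl v ∈ (adf G B X W T Zc f).Jf :=
      Finset.inl_mem_disjSum.2 (Finset.mem_union_left _ hv)
    rw [mv_eq _ u x ⟨Sum.inl v, hj⟩, map_mul, Pi_il]
    refine Commute.mul_right ?_ (h1 v hv s hs)
    by_cases hpp : (adf G B X W T Zc f).pp (Sum.inl v)
    · have h := hu' ⟨Sum.inl v, hj⟩
      rw [if_pos hpp] at h
      have h4 := gm_comm' c₀ (v := G.y s) h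
      rw [hn, Subgroup.mem_bot, commutatorElement_eq_one_iff_mul_comm] at h4
      rw [← G.pi_y s]
      show G.pi _ * G.pi _ = G.pi _ * G.pi _
      rw [← map_mul, ← map_mul, h4]
    · rw [hone _ hpp, map_one]
      exact Commute.one_right _
  · rw [mv_one _ u x (Sum.inl v) fun hj => hone ⟨Sum.inl v, hj⟩ fun h =>
      (Finset.disjoint_left.1 hZ) (mem_sp.1 h.1).1 hv]
    exact h2 v hv
  · rw [mv_one _ u x (Sum.inr i) fun hj => hone ⟨Sum.inr i, hj⟩ fun h => h]
    exact h3 i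

/-- the labels, conjugated -/
def lc (f : Pl K → Option (Px c)) (σ : Pl K → P) (v : Pl K) : P :=
  (f v).elim 1 fun s => σ v * s.1 * (σ v)⁻¹

/-- the values of the words of a configuration -/
theorem pi_th (G : SG c S) (B : SD D Q A) (X : FD A P S) (W : WF A) (hX : X.Ok G B W) (T : ℝ)
    (Zc : Finset (Pl K)) (f : Pl K → Option (Px c)) (hZ : Disjoint Zc X.E) (τ : Pl K → S)
    (w : FW A) : G.Pi ((adf G B X W T Zc f).th τ w) =
      thP B X.l X.E (sp Zc f) (lc f fun v => G.pi (τ v)) (fun v => G.pi (τ v)) w := by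
  have h : G.Pi.comp ((adf G B X W T Zc f).th τ) =
      thP B X.l X.E (sp Zc f) (lc f fun v => G.pi (τ v)) (fun v => G.pi (τ v)) := by
    refine FreeGroup.ext_hom _ _ fun x => ?_
    rw [MonoidHom.comp_apply]
    unfold AD.th thP
    rw [FreeGroup.lift_apply_of, FreeGroup.lift_apply_of]
    have hcj : ∀ (u : S) (y : SP S P), G.Pi (cj u y) = G.pi u * G.Pi y * (G.pi u)⁻¹ := by
      intro u y
      unfold cj
      rw [map_mul, map_mul, map_inv, Pi_il]
    rw [hcj]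
    rcases x with v | i
    · show G.pi (τ v) * G.Pi (if v ∈ X.E then ⟨X.sv v, X.φ (W.L.t v)⟩ else
        (if v ∈ Zc then f v else none).elim 1 fun s => il (G.y s)) * (G.pi (τ v))⁻¹ =
        if v ∈ sp Zc f then lc f (fun v => G.pi (τ v)) v else
          if v ∈ X.E then G.pi (τ v) * X.l.t v * (G.pi (τ v))⁻¹ else 1
      by_cases hv : v ∈ X.E
      · have hvs : v ∉ sp Zc f := fun h => (Finset.disjoint_left.1 hZ) (mem_sp.1 h).1 hv
        rw [if_pos hv, if_neg hvs, if_pos hv, SG.Pi_mk]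
        show G.pi (τ v) * (G.pi (X.sv v) * X.φ (W.L.t v)) * (G.pi (τ v))⁻¹ = _
        rw [hX.sv v hv]
      · rw [if_neg hv, if_neg hv]
        by_cases hvz : v ∈ Zc
        · rw [if_pos hvz]
          unfold lc
          rcases hf : f v with _ | s
          · have hvs : v ∉ sp Zc f := fun h => (mem_sp.1 h).2 hf
            rw [if_neg hvs]
            show G.pi (τ v) * G.Pi 1 * (G.pi (τ v))⁻¹ = 1
            rw [map_one, mul_one, mul_inv_cancel]
          · have hvs : v ∈ sp Zc f := mem_sp.2 ⟨hvz, by rw [hf]; exact Option.some_ne_none s⟩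
            rw [if_pos hvs]
            show G.pi (τ v) * G.Pi (il (G.y s)) * (G.pi (τ v))⁻¹ = _
            rw [Pi_il, G.pi_y]
            rfl
        · have hvs : v ∉ sp Zc f := fun h => hvz (mem_sp.1 h).1
          rw [if_neg hvz, if_neg hvs]
          show G.pi (τ v) * G.Pi 1 * (G.pi (τ v))⁻¹ = 1
          rw [map_one, mul_one, mul_inv_cancel]
    · show G.pi (τ (B.pl i)) * G.Pi ⟨X.si i, X.φ (A.a i)⟩ * (G.pi (τ (B.pl i)))⁻¹ =
        G.pi (τ (B.pl i)) * X.l.a i * (G.pi (τ (B.pl i)))⁻¹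
      rw [SG.Pi_mk]
      show G.pi (τ (B.pl i)) * (G.pi (X.si i) * X.φ (A.a i)) * (G.pi (τ (B.pl i)))⁻¹ = _
      rw [hX.si i]
  rw [← h]
  rfl

/-- the conditions in the frame are the conditions `GP` -/
theorem g_iff (G : SG c S) (B : SD D Q A) (X : FD A P S) (W : WF A) (hX : X.Ok G B W) (T : ℝ)
    (Zc : Finset (Pl K)) (f : Pl K → Option (Px c)) (hZ : Disjoint Zc X.E) (τ : Pl K → S) :
    (adf G B X W T Zc f).G ((adf G B X W T Zc f).vl τ) ↔
      GP B X.l X.E W.Wv W.Wi (sp Zc f) (lc f fun v => G.pi (τ v)) (fun v => G.pi (τ v))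
        (thP B X.l X.E (sp Zc f) (lc f fun v => G.pi (τ v)) fun v => G.pi (τ v)) := by
  have hvl : ∀ j, G.Pi ((adf G B X W T Zc f).vl τ j) =
      (G.pi (τ ((adf G B X W T Zc f).pj j)))⁻¹ *
        thP B X.l X.E (sp Zc f) (lc f fun v => G.pi (τ v)) (fun v => G.pi (τ v))
          ((adf G B X W T Zc f).W j) * G.pi (τ ((adf G B X W T Zc f).pj j)) := by
    intro j
    unfold AD.vl cj
    rw [map_mul, map_mul, map_inv, Pi_il, map_inv, inv_inv, pi_th G B X W hX T Zc f hZ τ]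
  set θ : FW A →* P :=
    thP B X.l X.E (sp Zc f) (lc f fun v => G.pi (τ v)) fun v => G.pi (τ v) with hθ
  have hvE : ∀ (t x F : P), t⁻¹ * x * t = F ↔ x = t * F * t⁻¹ := by
    intro t x F
    constructor
    · rintro rfl
      group
    · rintro rfl
      group
  refine and_congr ?_ (and_congr ?_ ?_)
  · refine forall_congr' fun v => forall_congr' fun hv => ?_
    obtain ⟨s, hs⟩ := Option.ne_none_iff_exists'.1 (mem_sp.1 hv).2
    have h1 : (∀ s, f v = some s → Commute s.1 (G.Pi ((adf G B X W T Zc f).vl τ (Sum.inl v)))) ↔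
        Commute s.1 (G.Pi ((adf G B X W T Zc f).vl τ (Sum.inl v))) := by
      constructor
      · intro h
        exact h s hs
      · intro h s' hs'
        rw [hs] at hs'
        cases hs'
        exact h
    rw [h1, hvl (Sum.inl v), commutatorElement_eq_one_iff_mul_comm]
    show Commute s.1 ((G.pi (τ v))⁻¹ * θ (W.Wv v) * G.pi (τ v)) ↔
      lc f (fun v => G.pi (τ v)) v * θ (W.Wv v) = θ (W.Wv v) * lc f (fun v => G.pi (τ v)) v
    have h2 : lc f (fun v => G.pi (τ v)) v = G.pi (τ v) * s.1 * (G.pi (τ v))⁻¹ := by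
      unfold lc
      rw [hs]
      rfl
    rw [h2]
    set t : P := G.pi (τ v)
    set x : P := θ (W.Wv v)
    show s.1 * (t⁻¹ * x * t) = t⁻¹ * x * t * s.1 ↔ _
    constructor
    · intro h
      calc t * s.1 * t⁻¹ * x = t * (s.1 * (t⁻¹ * x * t)) * t⁻¹ := by group
        _ = _ := by rw [h]; group
    · intro h
      calc s.1 * (t⁻¹ * x * t) = t⁻¹ * (t * s.1 * t⁻¹ * x) * t := by group
        _ = _ := by rw [h]; group
  · refine forall_congr' fun v => forall_congr' fun hv => ?_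
    rw [hvl (Sum.inl v)]
    exact hvE _ _ _
  · refine forall_congr' fun i => ?_
    rw [hvl (Sum.inr i)]
    exact hvE _ _ _

theorem thp_congr (B : SD D Q A) (l : LT A P) (E n : Finset (Pl K)) {s s' τ τ' : Pl K → P}
    (hs : ∀ v ∈ n, s v = s' v) (hE : ∀ v ∈ E, τ v = τ' v) (hi : ∀ i, τ (B.pl i) = τ' (B.pl i)) :
    thP B l E n s τ = thP B l E n s' τ' := by
  unfold thP
  congr 1
  funext x
  rcases x with v | i
  · show (if v ∈ n then s v else if v ∈ E then τ v * l.t v * (τ v)⁻¹ else 1) =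
      if v ∈ n then s' v else if v ∈ E then τ' v * l.t v * (τ' v)⁻¹ else 1
    by_cases hv : v ∈ n
    · rw [if_pos hv, if_pos hv, hs v hv]
    · rw [if_neg hv, if_neg hv]
      by_cases hv' : v ∈ E
      · rw [if_pos hv', if_pos hv', hE v hv']
      · rw [if_neg hv', if_neg hv']
  · show τ (B.pl i) * l.a i * (τ (B.pl i))⁻¹ = τ' (B.pl i) * l.a i * (τ' (B.pl i))⁻¹
    rw [hi]

theorem gp_congr (B : SD D Q A) (l : LT A P) (E n : Finset (Pl K)) (Wv : Pl K → FW A)
    (Wi : Fin A.g → FW A) {s s' τ τ' : Pl K → P}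
    (hs : ∀ v ∈ n, s v = s' v) (hE : ∀ v ∈ E, τ v = τ' v) (hi : ∀ i, τ (B.pl i) = τ' (B.pl i))
    (h : GP B l E Wv Wi n s τ (thP B l E n s τ)) :
    GP B l E Wv Wi n s' τ' (thP B l E n s' τ') := by
  rw [← thp_congr B l E n hs hE hi]
  refine ⟨fun v hv => ?_, fun v hv => ?_, fun i => ?_⟩
  · rw [← hs v hv]
    exact h.1 v hv
  · rw [← hE v hv]
    exact h.2.1 v hv
  · rw [← hi i]
    exact h.2.2 i

theorem xz_of {T : Subgroup P} {Zc : Finset (Pl K)} (τ : Zc → T) {v : Pl K} (h : v ∈ Zc) :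
    xz τ v = (τ ⟨v, h⟩ : P) := by
  unfold xz
  rw [dif_pos h]

theorem xt_of {T : Subgroup P} {E : Finset (Pl K)} (τ : BB D E → T) {v : Pl K} (h : v ∈ BB D E) :
    xt τ v = (τ ⟨v, h⟩ : P) := by
  unfold xt
  rw [dif_pos h]

/-- the mean over the conjugators, for one configuration -/
theorem mn_eq [Fintype S] [Fintype P] (G : SG c S) (B : SD D Q A) (X : FD A P S) (W : WF A)
    (hX : X.Ok G B W) (T : ℝ) (Zc : Finset (Pl K)) (f : Pl K → Option (Px c))
    (hZ : Disjoint Zc X.E) (hZ0 : ∀ v ∈ Zc, v ∉ D.S0) :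
    (adf G B X W T Zc f).Mn (fun τ =>
        if (adf G B X W T Zc f).G ((adf G B X W T Zc f).vl τ) then 1 else 0) =
      (∑ τ : Zc → Tg G, ∑ τ' : BB D X.E → Tg G,
        if GP B X.l X.E W.Wv W.Wi (sp Zc f) (lc f (xz τ)) (xt τ')
          (thP B X.l X.E (sp Zc f) (lc f (xz τ)) (xt τ')) then (1 : ℂ) else 0) /
        ((Nat.card (Tg G) : ℂ) ^ Zc.card * (Nat.card (Tg G) : ℂ) ^ (BB D X.E).card) := by
  set Y := adf G B X W T Zc f with hY
  have hV : ∀ v ∈ Y.Vf, v ∈ Zc ∨ v ∈ BB D X.E := by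
    intro v hv
    unfold AD.Vf at hv
    obtain ⟨j, hj, rfl⟩ := Finset.mem_image.1 hv
    rcases j with w | i
    · rcases Finset.mem_union.1 (Finset.inl_mem_disjSum.1 hj) with h | h
      · exact Or.inl (mem_sp.1 h).1
      · exact Or.inr (Finset.mem_union_right _ h)
    · exact Or.inr (Finset.mem_union_left _ (B.mem i))
  have hVs : ∀ v ∈ sp Zc f, v ∈ Y.Vf := by
    intro v hv
    exact Finset.mem_image.2 ⟨Sum.inl v, Finset.inl_mem_disjSum.2 (Finset.mem_union_left _ hv), rfl⟩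
  have hVE : ∀ v ∈ X.E, v ∈ Y.Vf := by
    intro v hv
    exact Finset.mem_image.2 ⟨Sum.inl v, Finset.inl_mem_disjSum.2 (Finset.mem_union_right _ hv), rfl⟩
  have hVi : ∀ i, B.pl i ∈ Y.Vf := by
    intro i
    exact Finset.mem_image.2 ⟨Sum.inr i, Finset.inr_mem_disjSum.2 (Finset.mem_univ _), rfl⟩
  have hEz : ∀ v ∈ X.E, v ∉ Zc := fun v hv h => (Finset.disjoint_left.1 hZ) h hv
  have hiz : ∀ i, B.pl i ∉ Zc := fun i h => hZ0 _ h (B.mem i)
  let F : (Y.Vf → Tg G) → ℂ := fun σ =>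
    if GP B X.l X.E W.Wv W.Wi (sp Zc f) (lc f (xz σ)) (xz σ)
      (thP B X.l X.E (sp Zc f) (lc f (xz σ)) (xz σ)) then 1 else 0
  let r₁ : (Y.Vf → S) →* (Y.Vf → Tg G) :=
    { toFun := fun τ v => G.pi.rangeRestrict (τ v)
      map_one' := funext fun v => map_one _
      map_mul' := fun a b => funext fun v => map_mul _ _ _ }
  have hr₁ : Function.Surjective r₁ := by
    intro σ
    have h := fun v => G.pi.rangeRestrict_surjective (σ v)
    choose τ hτ using h
    exact ⟨τ, funext hτ⟩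
  let r₂ : (Zc → Tg G) × (BB D X.E → Tg G) →* (Y.Vf → Tg G) :=
    { toFun := fun τ v => if h : v.1 ∈ Zc then τ.1 ⟨v.1, h⟩ else
        if h' : v.1 ∈ BB D X.E then τ.2 ⟨v.1, h'⟩ else 1
      map_one' := by
        funext v
        by_cases h : v.1 ∈ Zc
        · rw [dif_pos h]
          rfl
        · rw [dif_neg h]
          by_cases h' : v.1 ∈ BB D X.E
          · rw [dif_pos h']
            rfl
          · rw [dif_neg h']
            rfl
      map_mul' := by
        intro a b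
        funext v
        show _ = (if h : v.1 ∈ Zc then a.1 ⟨v.1, h⟩ else
          if h' : v.1 ∈ BB D X.E then a.2 ⟨v.1, h'⟩ else 1) * (if h : v.1 ∈ Zc then b.1 ⟨v.1, h⟩ else
          if h' : v.1 ∈ BB D X.E then b.2 ⟨v.1, h'⟩ else 1)
        by_cases h : v.1 ∈ Zc
        · rw [dif_pos h, dif_pos h, dif_pos h]
          rfl
        · rw [dif_neg h, dif_neg h, dif_neg h]
          by_cases h' : v.1 ∈ BB D X.E
          · rw [dif_pos h', dif_pos h', dif_pos h']
            rfl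
          · rw [dif_neg h', dif_neg h', dif_neg h', mul_one] }
  have hr₂z : ∀ (x : (Zc → Tg G) × (BB D X.E → Tg G)) (v : Pl K) (hv : v ∈ Y.Vf) (h : v ∈ Zc),
      xz (r₂ x) v = xz x.1 v := by
    intro x v hv h
    rw [xz_of _ hv, xz_of _ h]
    show ((if h : v ∈ Zc then x.1 ⟨v, h⟩ else
      if h' : v ∈ BB D X.E then x.2 ⟨v, h'⟩ else 1 : Tg G) : P) = _
    rw [dif_pos h]
  have hr₂b : ∀ (x : (Zc → Tg G) × (BB D X.E → Tg G)) (v : Pl K) (hv : v ∈ Y.Vf) (h : v ∉ Zc),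
      xz (r₂ x) v = xt x.2 v := by
    intro x v hv h
    have h' : v ∈ BB D X.E := (hV v hv).resolve_left h
    rw [xz_of _ hv, xt_of _ h']
    show ((if h : v ∈ Zc then x.1 ⟨v, h⟩ else
      if h' : v ∈ BB D X.E then x.2 ⟨v, h'⟩ else 1 : Tg G) : P) = _
    rw [dif_neg h, dif_pos h']
  have hr₂ : Function.Surjective r₂ := by
    intro σ
    refine ⟨(fun v => if h : v.1 ∈ Y.Vf then σ ⟨v.1, h⟩ else 1,
      fun v => if h : v.1 ∈ Y.Vf then σ ⟨v.1, h⟩ else 1), ?_⟩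
    funext v
    show (if h : v.1 ∈ Zc then (if h : v.1 ∈ Y.Vf then σ ⟨v.1, h⟩ else 1) else
      if h' : v.1 ∈ BB D X.E then (if h : v.1 ∈ Y.Vf then σ ⟨v.1, h⟩ else 1) else 1) = σ v
    by_cases h : v.1 ∈ Zc
    · rw [dif_pos h, dif_pos v.2]
    · rw [dif_neg h, dif_pos ((hV v.1 v.2).resolve_left h), dif_pos v.2]
  have h1 : ∀ τ : Y.Vf → S, (if Y.G (Y.vl (Y.ex τ)) then (1 : ℂ) else 0) = F (r₁ τ) := by
    intro τ
    have h2 : (fun v => G.pi (Y.ex τ v)) = xz (r₁ τ) := by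
      funext v
      unfold AD.ex xz
      by_cases hv : v ∈ Y.Vf
      · rw [dif_pos hv, dif_pos hv]
        rfl
      · rw [dif_neg hv, dif_neg hv, map_one]
    have h3 := g_iff G B X W hX T Zc f hZ (Y.ex τ)
    rw [h2] at h3
    exact if_congr h3 rfl rfl
  have h2 : ∀ x : (Zc → Tg G) × (BB D X.E → Tg G),
      (if GP B X.l X.E W.Wv W.Wi (sp Zc f) (lc f (xz x.1)) (xt x.2)
          (thP B X.l X.E (sp Zc f) (lc f (xz x.1)) (xt x.2)) then (1 : ℂ) else 0) = F (r₂ x) := by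
    intro x
    have hs : ∀ v ∈ sp Zc f, lc f (xz x.1) v = lc f (xz (r₂ x)) v := by
      intro v hv
      unfold lc
      rw [hr₂z x v (hVs v hv) (mem_sp.1 hv).1]
    have hE : ∀ v ∈ X.E, xt x.2 v = xz (r₂ x) v := fun v hv =>
      (hr₂b x v (hVE v hv) (hEz v hv)).symm
    have hi : ∀ i, xt x.2 (B.pl i) = xz (r₂ x) (B.pl i) := fun i =>
      (hr₂b x _ (hVi i) (hiz i)).symm
    refine if_congr ⟨fun h => ?_, fun h => ?_⟩ rfl rfl
    · exact gp_congr B X.l X.E (sp Zc f) W.Wv W.Wi hs hE hi h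
    · exact gp_congr B X.l X.E (sp Zc f) W.Wv W.Wi (fun v hv => (hs v hv).symm)
        (fun v hv => (hE v hv).symm) (fun i => (hi i).symm) h
  have h3 := mean_hom r₁ hr₁ F
  have h4 := mean_hom r₂ hr₂ F
  have hct : (Fintype.card (Y.Vf → S) : ℂ) = (Fintype.card S : ℂ) ^ Y.Vf.card := by
    rw [Fintype.card_fun, Fintype.card_coe, Nat.cast_pow]
  have hcx : (Fintype.card ((Zc → Tg G) × (BB D X.E → Tg G)) : ℂ) =
      (Nat.card (Tg G) : ℂ) ^ Zc.card * (Nat.card (Tg G) : ℂ) ^ (BB D X.E).card := by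
    rw [Fintype.card_prod, Fintype.card_fun, Fintype.card_fun, Fintype.card_coe, Fintype.card_coe,
      Nat.cast_mul, Nat.cast_pow, Nat.cast_pow, Nat.card_eq_fintype_card]
  unfold AD.Mn
  rw [Finset.sum_congr rfl fun τ _ => h1 τ, ← hct, h3, ← h4, hcx, Fintype.sum_prod_type]
  congr 1
  refine Finset.sum_congr rfl fun τ _ => Finset.sum_congr rfl fun τ' _ => ?_
  exact (h2 (τ, τ')).symm

/-- the fibres of `φ ↦ lf φ τ` -/
theorem fit_lf (G : SG c S) (B : SD D Q A) (X : FD A P S) (W : WF A) (Zc : Finset (Pl K))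
    (hZ : Disjoint Zc X.E) (hZ0 : ∀ v ∈ Zc, v ∉ D.S0) (φ : Gal(Ω/K) →* P) (τ : Pl K → P)
    (f : Pl K → Option (Px c)) (hf : ∀ v, v ∉ Zc → f v = none) :
    (Fb G B X W Zc φ ∧ lf c W Zc φ τ = f) ↔
      Fit W.Fr B (Tg G) X.l X.E (sp Zc f) (lc f τ) φ := by
  have hne : ∀ s : Px c, s.1 ≠ 1 := by
    rintro ⟨s, i, hi⟩ h
    rw [show s = 1 from h] at hi
    exact c.ne i (isConj_one_right.1 hi)
  constructor
  · rintro ⟨⟨h1, h2, h3⟩, rfl⟩
    have hlf : ∀ v ∈ Zc, φ (W.L.t v) ≠ 1 → ∃ h, lf c W Zc φ τ v =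
        some ⟨(τ v)⁻¹ * φ (W.L.t v) * τ v, h⟩ := by
      intro v hv h
      obtain ⟨i, hi⟩ := h2 v hv h
      have h4 : ∃ i, IsConj ((τ v)⁻¹ * φ (W.L.t v) * τ v) (c.g i) :=
        ⟨i, (isConj_iff.2 ⟨τ v, by group⟩ : IsConj _ (φ (W.L.t v))).trans hi⟩
      refine ⟨h4, ?_⟩
      unfold lf
      rw [dif_pos ⟨hv, h, h4⟩]
    have hmem : ∀ v ∈ Zc, φ (W.L.t v) ≠ 1 → v ∈ sp Zc (lf c W Zc φ τ) := by
      intro v hv h
      obtain ⟨h4, h5⟩ := hlf v hv h
      rw [mem_sp, h5]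
      exact ⟨hv, Option.some_ne_none _⟩
    refine ⟨⟨h1.1, fun v hv hv' => ?_⟩, fun v hv => ?_, h3⟩
    · by_cases hz : v ∈ Zc
      · by_contra h
        exact hv' (Finset.mem_union_left _ (hmem v hz h))
      · exact h1.2 v hv fun h => (Finset.mem_union.1 h).elim hz
          fun h => hv' (Finset.mem_union_right _ h)
    · obtain ⟨hz, hn⟩ := mem_sp.1 hv
      have h4 : φ (W.L.t v) ≠ 1 := by
        intro h
        refine hn ?_
        unfold lf
        rw [dif_neg fun h' => h'.2.1 h]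
      obtain ⟨h5, h6⟩ := hlf v hz h4
      unfold lc
      rw [h6]
      show φ (W.L.t v) = τ v * ((τ v)⁻¹ * φ (W.L.t v) * τ v) * (τ v)⁻¹
      group
  · rintro ⟨h1, h2, h3⟩
    have hsp : ∀ v ∈ Zc, v ∉ sp Zc f → φ (W.L.t v) = 1 := by
      intro v hz hv
      exact h1.2 v (hZ0 v hz) fun h => (Finset.mem_union.1 h).elim hv
        fun h => (Finset.disjoint_left.1 hZ) hz h
    have hval : ∀ v s, v ∈ Zc → f v = some s → φ (W.L.t v) = τ v * s.1 * (τ v)⁻¹ := by
      intro v s hz hs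
      rw [h2 v (mem_sp.2 ⟨hz, by rw [hs]; exact Option.some_ne_none s⟩)]
      unfold lc
      rw [hs]
      rfl
    refine ⟨⟨⟨h1.1, fun v hv hv' => ?_⟩, fun v hz hv => ?_, h3⟩, ?_⟩
    · exact h1.2 v hv fun h => hv' ((Finset.mem_union.1 h).elim
        (fun h => Finset.mem_union_left _ (mem_sp.1 h).1) fun h => Finset.mem_union_right _ h)
    · rcases hs : f v with _ | s
      · exact absurd (hsp v hz fun h => (mem_sp.1 h).2 hs) hv
      · obtain ⟨i, hi⟩ := s.2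
        exact ⟨i, (isConj_iff.2 ⟨(τ v)⁻¹, by
          rw [hval v s hz hs]
          group⟩ : IsConj (φ (W.L.t v)) s.1).trans hi⟩
    · funext v
      unfold lf
      by_cases hz : v ∈ Zc
      · rcases hs : f v with _ | s
        · rw [dif_neg fun h => h.2.1 (hsp v hz fun h' => (mem_sp.1 h').2 hs)]
        · have h4 : (τ v)⁻¹ * φ (W.L.t v) * τ v = s.1 := by
            rw [hval v s hz hs]
            group
          have h5 : φ (W.L.t v) ≠ 1 := by
            intro h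
            rw [h, mul_one, inv_mul_cancel] at h4
            exact hne s h4.symm
          have h6 : ∃ i, IsConj ((τ v)⁻¹ * φ (W.L.t v) * τ v) (c.g i) := by
            rw [h4]
            exact s.2
          rw [dif_pos ⟨hz, h5, h6⟩]
          exact congrArg some (Subtype.ext h4)
      · rw [hf v hz, dif_neg fun h => hz h.1]

theorem fb_finite [Finite P] [IsAlgClosure K Ω] (hp : p.Prime) (hζ : IsPrimitiveRoot ζ p)
    (G : SG c S) (B : SD D Q A) (X : FD A P S) (W : WF A) (hP : IsPGroup p P)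
    (Zc : Finset (Pl K)) : Finite {φ : Gal(Ω/K) →* P // Fb G B X W Zc φ} :=
  ((hon_finU hp hζ W.L A (Zc ∪ X.E) P).subset fun _ h => ⟨h.1, hP.to_subgroup _⟩).to_subtype

/-- exchange of the sums -/
theorem sum_lf [Finite P] [Fintype (Px c)] (G : SG c S) (B : SD D Q A) (X : FD A P S) (W : WF A)
    (Zc : Finset (Pl K)) (hZ : Disjoint Zc X.E) (hZ0 : ∀ v ∈ Zc, v ∉ D.S0)
    [Fintype {φ : Gal(Ω/K) →* P // Fb G B X W Zc φ}] (wt : (Pl K → Option (Px c)) → ℂ)
    (τ : Pl K → P) :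
    ∑ φ : {φ : Gal(Ω/K) →* P // Fb G B X W Zc φ}, wt (lf c W Zc φ.1 τ) =
      ∑ f ∈ Cf Zc (Px c), wt f *
        (Nat.card {φ : Gal(Ω/K) →* P // Fit W.Fr B (Tg G) X.l X.E (sp Zc f) (lc f τ) φ} : ℂ) := by
  have hm : ∀ φ ∈ (Finset.univ : Finset {φ : Gal(Ω/K) →* P // Fb G B X W Zc φ}),
      lf c W Zc φ.1 τ ∈ Cf Zc (Px c) := by
    intro φ _
    rw [mem_cf]
    intro v hv
    unfold lf
    rw [dif_neg fun h => hv h.1]
  rw [← Finset.sum_fiberwise_of_maps_to hm]
  refine Finset.sum_congr rfl fun f hf => ?_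
  rw [Finset.sum_congr rfl (g := fun _ => wt f) (fun φ hφ => by
    rw [(Finset.mem_filter.1 hφ).2]), Finset.sum_const, nsmul_eq_mul, mul_comm]
  congr 2
  rw [← Fintype.card_subtype, ← Nat.card_eq_fintype_card]
  exact Nat.card_congr
    { toFun := fun φ => ⟨φ.1.1, (fit_lf G B X W Zc hZ hZ0 φ.1.1 τ f (mem_cf.1 hf)).1
        ⟨φ.1.2, φ.2⟩⟩
      invFun := fun φ => ⟨⟨φ.1, ((fit_lf G B X W Zc hZ hZ0 φ.1 τ f (mem_cf.1 hf)).2 φ.2).1⟩,
        ((fit_lf G B X W Zc hZ hZ0 φ.1 τ f (mem_cf.1 hf)).2 φ.2).2⟩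
      left_inv := fun φ => rfl
      right_inv := fun φ => rfl }

/-- THE COUNTING FORMULA -/
theorem cnw [Fintype S] [Fintype P] [IsAlgClosure K Ω] (hp : p.Prime) (hζ : IsPrimitiveRoot ζ p)
    (G : SG c S) (B : SD D Q A) (X : FD A P S) (W : WF A) {k Mw : ℕ} (hX : X.Ok G B W)
    (hW : W.Ok B k Mw) (hP : Sml p k Mw P) (T : ℝ) (Zc : Finset (Pl K)) (hZ : Disjoint Zc X.E)
    (hZc : Zc ⊆ W.Z) (hE : X.E ⊆ W.Z) (wt : (Pl K → Option (Px c)) → ℂ) :
    ∑ f ∈ Cf Zc (Px c), wt f * (adf G B X W T Zc f).Mn (fun τ =>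
        if (adf G B X W T Zc f).G ((adf G B X W T Zc f).vl τ) then 1 else 0) =
      (∏ v ∈ BB D X.E, ((Nat.card (Cen B (Tg G) X.l v) : ℂ) / (Nat.card (Tg G) : ℂ))) *
        ∑ᶠ φ : {φ : Gal(Ω/K) →* P // Fb G B X W Zc φ}, wF G W Zc wt φ.1 := by
  have hZ0 : ∀ v ∈ Zc, v ∉ D.S0 := fun v hv => hW.zs v (hZc hv)
  have hfin : Finite {φ : Gal(Ω/K) →* P // Fb G B X W Zc φ} := fb_finite hp hζ G B X W hP.1 Zc
  have hft : Fintype {φ : Gal(Ω/K) →* P // Fb G B X W Zc φ} := Fintype.ofFinite _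
  set t : ℂ := (Nat.card (Tg G) : ℂ) with ht
  set Pc : ℂ := ∏ v ∈ BB D X.E, (Nat.card (Cen B (Tg G) X.l v) : ℂ) with hPc
  have h1 : ∀ f ∈ Cf Zc (Px c), wt f * (adf G B X W T Zc f).Mn (fun τ =>
        if (adf G B X W T Zc f).G ((adf G B X W T Zc f).vl τ) then 1 else 0) =
      Pc / t ^ (BB D X.E).card * ((∑ τ : Zc → Tg G, wt f * (Nat.card {φ : Gal(Ω/K) →* P //
        Fit W.Fr B (Tg G) X.l X.E (sp Zc f) (lc f (xz τ)) φ} : ℂ)) / t ^ Zc.card) := by
    intro f _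
    rw [mn_eq G B X W hX T Zc f hZ hZ0]
    have h2 : ∀ τ : Zc → Tg G, (∑ τ' : BB D X.E → Tg G,
        if GP B X.l X.E W.Wv W.Wi (sp Zc f) (lc f (xz τ)) (xt τ')
          (thP B X.l X.E (sp Zc f) (lc f (xz τ)) (xt τ')) then (1 : ℂ) else 0) =
        Pc * (Nat.card {φ : Gal(Ω/K) →* P //
          Fit W.Fr B (Tg G) X.l X.E (sp Zc f) (lc f (xz τ)) φ} : ℂ) := by
      intro τ
      have h3 := cnt' hp hζ hW.rel.2.2.1 hW.zs hP
        (fun v hv φ hφ => hW.cm v (hW.zs v hv) P hP φ hφ) (hW.cr P hP) (Tg G) (n := sp Zc f) hE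
        (fun v hv => hZc (mem_sp.1 hv).1) (Finset.disjoint_left.2 fun v hv h =>
          (Finset.disjoint_left.1 hZ) (mem_sp.1 hv).1 h) hX.lt (lc f (xz τ))
      rw [Finset.sum_boole, ← Fintype.card_subtype, ← Nat.card_eq_fintype_card, ← h3,
        Nat.cast_mul, Nat.cast_prod, mul_comm]
    rw [Finset.sum_congr rfl fun τ _ => h2 τ, ← Finset.mul_sum, ← Finset.mul_sum]
    ring
  have h2 : (∏ v ∈ BB D X.E, ((Nat.card (Cen B (Tg G) X.l v) : ℂ) / t)) =
      Pc / t ^ (BB D X.E).card := by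
    rw [Finset.prod_div_distrib, Finset.prod_const]
  have h3 : ∑ᶠ φ : {φ : Gal(Ω/K) →* P // Fb G B X W Zc φ}, wF G W Zc wt φ.1 =
      (∑ τ : Zc → Tg G, ∑ φ : {φ : Gal(Ω/K) →* P // Fb G B X W Zc φ},
        wt (lf c W Zc φ.1 (xz τ))) / t ^ Zc.card := by
    rw [finsum_eq_sum_of_fintype]
    unfold wF
    rw [← Finset.sum_div, Finset.sum_comm]
  rw [Finset.sum_congr rfl h1, ← Finset.mul_sum, h2, h3, ← Finset.sum_div, Finset.sum_comm]
  congr 2
  refine Finset.sum_congr rfl fun τ _ => ?_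
  exact (sum_lf G B X W Zc hZ hZ0 wt (xz τ)).symm

end fr

end H71.S3
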