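import Pool.Agent.H77.S3.Rel
import Pool.Agent.H77.S3.Crt
import Pool.Agent.H35.UB.Defs

/-!
# [H71 S3 CNT] the counting formula (4.3) (MP_b39724_nt, stage 3, chapter B, thinks 1688, 1707)

`BB D E`: the bad places (`S0` and the finite set `E`). `LT A P`: local types (values of the `a i`, `b i`, and of `t v`, `F v` for `v ∈ E`).
* `At l v τ φ`: at the bad place `v` the homomorphism `φ` is the type `l v`, conjugated by `τ`.
* `Fit l n s φ`: `φ` unramified outside `n`, `E`, `S0`, `φ (t v) = s v` (`v ∈ n`), the local types are in the `T`-orbits of `l`.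
* `thP l n s τ`: the homomorphism of the words. `GP`: the condition on its values.
* `cnt`: `#Fit * ∏ |C_T (l v)| = #{τ | GP (thP τ)}`.
-/

set_option autoImplicit false
set_option linter.dupNamespace false

open scoped NumberField commutatorElement
open IsDedekindDomain
open scoped Classical

noncomputable section

namespace H71.S3

open H63.MA H38.BB H38.BG H57.PC H57.BRA H57.GP H77.WD Pool.Agent.H19.NF
  Pool.Agent.H19.AB Pool.Agent.H19.A2 H77.WE Pool.Agent.H19 H77.S3 H35.UB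

variable {K : Type} [Field K] [NumberField K] {Ω : Type} [Field Ω] [Algebra K Ω]
  {p : ℕ} {ζ : K} {D : RD0 K p ζ}

/-- the bad places -/
def BB (D : RD0 K p ζ) (E : Finset (Pl K)) : Finset (Pl K) := D.S0 ∪ E

/-- local types -/
structure LT (A : GS D Ω) (P : Type) where
  a : Fin A.g → P
  b : Fin A.g → P
  t : Pl K → P
  F : Pl K → P

section defs

variable {L : LDs D Ω} (Fr : FR L) {Q : DP K Ω} {A : GS D Ω} (B : SD D Q A) {P : Type} [Group P]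
  (T : Subgroup P) (l : LT A P) (E : Finset (Pl K))

/-- at the place `v` the homomorphism is the type conjugated by `τ` -/
def At (v : Pl K) (τ : P) (φ : Gal(Ω/K) →* P) : Prop :=
  (∀ i, B.pl i = v → φ (A.a i) = τ * l.a i * τ⁻¹ ∧ φ (B.b i) = τ * l.b i * τ⁻¹) ∧
    (v ∉ D.S0 → φ (L.t v) = τ * l.t v * τ⁻¹ ∧ φ (Fr.F v) = τ * l.F v * τ⁻¹)

/-- the stabiliser of the type in `T` -/
def Cen (v : Pl K) : Subgroup P where
  carrier := {τ | τ ∈ T ∧ (∀ i, B.pl i = v → τ * l.a i = l.a i * τ ∧ τ * l.b i = l.b i * τ) ∧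
    (v ∉ D.S0 → τ * l.t v = l.t v * τ ∧ τ * l.F v = l.F v * τ)}
  mul_mem' := by
    rintro x y ⟨hx1, hx2, hx3⟩ ⟨hy1, hy2, hy3⟩
    have key : ∀ z : P, x * z = z * x → y * z = z * y → x * y * z = z * (x * y) := by
      intro z h1 h2
      rw [mul_assoc, h2, ← mul_assoc, h1, mul_assoc]
    exact ⟨T.mul_mem hx1 hy1, fun i hi => ⟨key _ (hx2 i hi).1 (hy2 i hi).1,
      key _ (hx2 i hi).2 (hy2 i hi).2⟩, fun hv => ⟨key _ (hx3 hv).1 (hy3 hv).1,
      key _ (hx3 hv).2 (hy3 hv).2⟩⟩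
  one_mem' := ⟨T.one_mem, fun i _ => ⟨by rw [one_mul, mul_one], by rw [one_mul, mul_one]⟩,
    fun _ => ⟨by rw [one_mul, mul_one], by rw [one_mul, mul_one]⟩⟩
  inv_mem' := by
    rintro x ⟨hx1, hx2, hx3⟩
    have key : ∀ z : P, x * z = z * x → x⁻¹ * z = z * x⁻¹ := by
      intro z h1
      rw [inv_mul_eq_iff_eq_mul, ← mul_assoc, h1, mul_inv_cancel_right]
    exact ⟨T.inv_mem hx1, fun i hi => ⟨key _ (hx2 i hi).1, key _ (hx2 i hi).2⟩,
      fun hv => ⟨key _ (hx3 hv).1, key _ (hx3 hv).2⟩⟩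

/-- the homomorphisms to be counted -/
def Fit (n : Finset (Pl K)) (s : Pl K → P) (φ : Gal(Ω/K) →* P) : Prop :=
  Unz L (n ∪ E) φ ∧ (∀ v ∈ n, φ (L.t v) = s v) ∧ ∀ v ∈ BB D E, ∃ τ ∈ T, At Fr B l v τ φ

/-- the type is possible: the relations at the bad places -/
def LTok : Prop :=
  (∀ v ∈ D.S0, blk B.pl v l.a l.b = 1) ∧ ∀ v ∈ E, ⁅l.t v, l.F v⁆ = 1

variable {E T} in
/-- the extension of `τ` to all places -/
def xt (τ : BB D E → T) (v : Pl K) : P := if h : v ∈ BB D E then (τ ⟨v, h⟩ : P) else 1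

/-- the homomorphism of the words -/
def thP (n : Finset (Pl K)) (s : Pl K → P) (τ : Pl K → P) : FW A →* P :=
  FreeGroup.lift (Sum.elim
    (fun v => if v ∈ n then s v else if v ∈ E then τ v * l.t v * (τ v)⁻¹ else 1)
    fun i => τ (B.pl i) * l.a i * (τ (B.pl i))⁻¹)

/-- the conditions on the values of the words -/
def GP (X : Pl K → FW A) (Y : Fin A.g → FW A) (n : Finset (Pl K)) (s : Pl K → P)
    (τ : Pl K → P) (θ : FW A →* P) : Prop :=
  (∀ v ∈ n, ⁅s v, θ (X v)⁆ = 1) ∧ (∀ v ∈ E, θ (X v) = τ v * l.F v * (τ v)⁻¹) ∧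
    ∀ i, θ (Y i) = τ (B.pl i) * l.b i * (τ (B.pl i))⁻¹

end defs

theorem at_conj {L : LDs D Ω} (Fr : FR L) {Q : DP K Ω} {A : GS D Ω} (B : SD D Q A) {P : Type}
    [Group P] (T : Subgroup P) (l : LT A P) {v : Pl K} {τ₀ : P} (hτ₀ : τ₀ ∈ T)
    {φ : Gal(Ω/K) →* P} (h : At Fr B l v τ₀ φ) (τ : P) :
    (τ ∈ T ∧ At Fr B l v τ φ) ↔ τ₀⁻¹ * τ ∈ Cen B T l v := by
  have key : ∀ x y : P, y = τ₀ * x * τ₀⁻¹ →
      (y = τ * x * τ⁻¹ ↔ τ₀⁻¹ * τ * x = x * (τ₀⁻¹ * τ)) := by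
    intro x y hy
    rw [hy]
    constructor
    · intro h1
      have h2 : τ₀ * x = τ * x * τ⁻¹ * τ₀ := by rw [← h1]; group
      calc τ₀⁻¹ * τ * x = τ₀⁻¹ * (τ * x * τ⁻¹ * τ₀) * (τ₀⁻¹ * τ) := by group
        _ = _ := by rw [← h2]; group
    · intro h1
      calc τ₀ * x * τ₀⁻¹ = τ₀ * (x * (τ₀⁻¹ * τ)) * τ⁻¹ := by group
        _ = _ := by rw [← h1]; group
  constructor
  · rintro ⟨h1, h2, h3⟩
    refine ⟨T.mul_mem (T.inv_mem hτ₀) h1, fun i hi => ⟨?_, ?_⟩, fun hv => ⟨?_, ?_⟩⟩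
    · exact (key _ _ (h.1 i hi).1).1 (h2 i hi).1
    · exact (key _ _ (h.1 i hi).2).1 (h2 i hi).2
    · exact (key _ _ (h.2 hv).1).1 (h3 hv).1
    · exact (key _ _ (h.2 hv).2).1 (h3 hv).2
  · rintro ⟨h1, h2, h3⟩
    refine ⟨?_, fun i hi => ⟨?_, ?_⟩, fun hv => ⟨?_, ?_⟩⟩
    · have := T.mul_mem hτ₀ h1
      rwa [mul_inv_cancel_left] at this
    · exact (key _ _ (h.1 i hi).1).2 (h2 i hi).1
    · exact (key _ _ (h.1 i hi).2).2 (h2 i hi).2
    · exact (key _ _ (h.2 hv).1).2 (h3 hv).1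
    · exact (key _ _ (h.2 hv).2).2 (h3 hv).2

/-- the number of the `τ` for a given homomorphism -/
theorem tau_card {L : LDs D Ω} (Fr : FR L) {Q : DP K Ω} {A : GS D Ω} (B : SD D Q A) {P : Type}
    [Group P] [Finite P] (T : Subgroup P) (l : LT A P) (E : Finset (Pl K))
    {φ : Gal(Ω/K) →* P} (h : ∀ v ∈ BB D E, ∃ τ ∈ T, At Fr B l v τ φ) :
    Nat.card {τ : BB D E → T // ∀ v : BB D E, At Fr B l v.1 (τ v : P) φ} =
      ∏ v ∈ BB D E, Nat.card (Cen B T l v) := by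
  choose! τ₀ hτ₀ hA using h
  have e1 : {τ : BB D E → T // ∀ v : BB D E, At Fr B l v.1 (τ v : P) φ} ≃
      ((v : BB D E) → Cen B T l v.1) :=
    { toFun := fun τ v => ⟨(τ₀ v.1)⁻¹ * (τ.1 v : P),
        (at_conj Fr B T l (hτ₀ v.1 v.2) (hA v.1 v.2) _).1 ⟨(τ.1 v).2, τ.2 v⟩⟩
      invFun := fun c => ⟨fun v => ⟨τ₀ v.1 * (c v : P),
        ((at_conj Fr B T l (hτ₀ v.1 v.2) (hA v.1 v.2) _).2
          (by rw [inv_mul_cancel_left]; exact (c v).2)).1⟩, fun v =>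
        ((at_conj Fr B T l (hτ₀ v.1 v.2) (hA v.1 v.2) _).2
          (by rw [inv_mul_cancel_left]; exact (c v).2)).2⟩
      left_inv := fun τ => Subtype.ext (funext fun v => Subtype.ext (mul_inv_cancel_left _ _))
      right_inv := fun c => funext fun v => Subtype.ext (inv_mul_cancel_left _ _) }
  rw [Nat.card_congr e1, Nat.card_pi, Finset.prod_coe_sort (BB D E) fun v => Nat.card (Cen B T l v)]

section main

variable [IsAlgClosure K Ω]

/-- existence and uniqueness of the homomorphism -/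
theorem fit_iff' {k M : ℕ} {L : LDs D Ω} {Q : DP K Ω} {Fr : FR L} {A : GS D Ω} {B : SD D Q A}
    {Z : Finset (Pl K)} {X : Pl K → FW A} {Y : Fin A.g → FW A} (hW : Wds k M L Fr A B Z X Y)
    (hZ : ∀ v ∈ Z, v ∉ D.S0) {P : Type} [Group P] [Finite P] (hP : Sml p k M P)
    (hcm : ∀ v ∈ Z, ∀ φ : Gal(Ω/K) →* P, H38.ML.FT φ →
      φ (Fr.F v) * φ (L.t v) = φ (L.t v) * φ (Fr.F v))
    (hcr : ∀ θ : FW A →* P, (∀ v, v ∉ Z ∨ v ∈ D.S0 → θ (FreeGroup.of (Sum.inl v)) = 1) →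
      (∀ v ∈ Z, v ∉ D.S0 → ⁅θ (FreeGroup.of (Sum.inl v)), θ (X v)⁆ = 1) →
      (∀ v ∈ D.S0, blk B.pl v (fun i => θ (FreeGroup.of (Sum.inr i))) (fun i => θ (Y i)) = 1) →
      ∃ φ : Gal(Ω/K) →* P, Unz L Z φ ∧ hat L A φ = θ)
    (T : Subgroup P) {l : LT A P} {E n : Finset (Pl K)} (hE : E ⊆ Z) (hn : n ⊆ Z)
    (hnE : Disjoint n E) (hl : LTok B l E) (s : Pl K → P) (τ : BB D E → T) :
    (∃ φ : Gal(Ω/K) →* P, Fit Fr B T l E n s φ ∧ ∀ v : BB D E, At Fr B l v.1 (τ v : P) φ) ↔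
      GP B l E X Y n s (xt τ) (thP B l E n s (xt τ)) := by
  have hx : ∀ (v : Pl K) (h : v ∈ BB D E), xt τ v = (τ ⟨v, h⟩ : P) := fun v h => by
    unfold xt
    rw [dif_pos h]
  have hS : ∀ v, v ∈ D.S0 → v ∈ BB D E := fun v h => Finset.mem_union_left _ h
  have hE' : ∀ v, v ∈ E → v ∈ BB D E := fun v h => Finset.mem_union_right _ h
  have hEn : ∀ v, v ∈ E → v ∉ n := fun v h h' => (Finset.disjoint_left.1 hnE) h' h
  constructor
  · rintro ⟨φ, ⟨h1, h2, -⟩, h4⟩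
    have hZφ : Unz L Z φ := ⟨h1.1, fun v hv hz => h1.2 v hv fun h => hz
      (Finset.union_subset hn hE h)⟩
    have h5 : hat L A φ = thP B l E n s (xt τ) := by
      refine FreeGroup.ext_hom _ _ fun x => ?_
      rcases x with v | i
      · rw [hat_inl]
        unfold thP
        rw [FreeGroup.lift_apply_of]
        show φ (L.t v) = if v ∈ n then s v else if v ∈ E then _ else 1
        by_cases hv : v ∈ n
        · rw [if_pos hv, h2 v hv]
        · rw [if_neg hv]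
          by_cases hv' : v ∈ E
          · rw [if_pos hv', hx v (hE' v hv')]
            exact ((h4 ⟨v, hE' v hv'⟩).2 (hZ v (hE hv'))).1
          · rw [if_neg hv']
            by_cases hv0 : v ∈ D.S0
            · rw [t_S0 L hv0, map_one]
            · exact h1.2 v hv0 fun h => (Finset.mem_union.1 h).elim hv hv'
      · rw [hat_inr]
        unfold thP
        rw [FreeGroup.lift_apply_of]
        show φ (A.a i) = xt τ (B.pl i) * l.a i * (xt τ (B.pl i))⁻¹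
        rw [hx _ (hS _ (B.mem i))]
        exact ((h4 ⟨B.pl i, hS _ (B.mem i)⟩).1 i rfl).1
    obtain ⟨h6, h7⟩ := hW P hP φ hZφ
    rw [h5] at h6 h7
    refine ⟨fun v hv => ?_, fun v hv => ?_, fun i => ?_⟩
    · rw [h6 v (hn hv), ← h2 v hv, commutatorElement_eq_one_iff_mul_comm]
      exact (hcm v (hn hv) φ h1.1).symm
    · rw [h6 v (hE hv), hx v (hE' v hv)]
      exact ((h4 ⟨v, hE' v hv⟩).2 (hZ v (hE hv))).2
    · rw [h7, hx _ (hS _ (B.mem i))]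
      exact ((h4 ⟨B.pl i, hS _ (B.mem i)⟩).1 i rfl).2
  · rintro ⟨h1, h2, h3⟩
    set θ : FW A →* P := thP B l E n s (xt τ) with hθ
    have ht : ∀ v, θ (FreeGroup.of (Sum.inl v)) = if v ∈ n then s v else if v ∈ E then
        xt τ v * l.t v * (xt τ v)⁻¹ else 1 := fun v => by
      rw [hθ]
      unfold thP
      rw [FreeGroup.lift_apply_of]
      rfl
    have ha : ∀ i, θ (FreeGroup.of (Sum.inr i)) =
        xt τ (B.pl i) * l.a i * (xt τ (B.pl i))⁻¹ := fun i => by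
      rw [hθ]
      unfold thP
      rw [FreeGroup.lift_apply_of]
      rfl
    have hnt : ∀ v, v ∉ n → v ∉ E → θ (FreeGroup.of (Sum.inl v)) = 1 := fun v hv hv' => by
      rw [ht, if_neg hv, if_neg hv']
    obtain ⟨φ, hφ1, hφ2⟩ := hcr θ
      (fun v hv => hnt v (fun h => hv.elim (fun h' => h' (hn h)) (hZ v (hn h)))
        fun h => hv.elim (fun h' => h' (hE h)) (hZ v (hE h)))
      (fun v _ _ => by
        by_cases hv : v ∈ n
        · rw [ht, if_pos hv]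
          exact h1 v hv
        · by_cases hv' : v ∈ E
          · rw [ht, if_neg hv, if_pos hv', h2 v hv', ← MulAut.conj_apply, ← MulAut.conj_apply,
              ← map_commutatorElement, hl.2 v hv', map_one]
          · rw [hnt v hv hv', commutatorElement_one_left])
      (fun v hv => by
        have h4 : blk B.pl v (fun i => θ (FreeGroup.of (Sum.inr i))) (fun i => θ (Y i)) =
            (MulAut.conj (xt τ v)).toMonoidHom (blk B.pl v l.a l.b) := by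
          rw [map_blk]
          refine blk_congr _ _ (fun i hi => ?_) fun i hi => ?_
          · rw [ha, hi]
            rfl
          · rw [h3, hi]
            rfl
        rw [h4, hl.1 v hv, map_one])
    obtain ⟨h6, h7⟩ := hW P hP φ hφ1
    rw [hφ2] at h6 h7
    have h8 : ∀ v, φ (L.t v) = θ (FreeGroup.of (Sum.inl v)) := fun v => by
      rw [← hφ2, hat_inl]
    have h9 : ∀ i, φ (A.a i) = θ (FreeGroup.of (Sum.inr i)) := fun i => by
      rw [← hφ2, hat_inr]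
    have h10 : ∀ v : BB D E, At Fr B l v.1 (τ v : P) φ := by
      rintro ⟨v, hv⟩
      refine ⟨fun i hi => ?_, fun hv0 => ?_⟩
      · subst hi
        constructor
        · rw [h9, ha, hx _ hv]
        · rw [← h7, h3, hx _ hv]
      · have hvE : v ∈ E := (Finset.mem_union.1 hv).resolve_left hv0
        constructor
        · rw [h8, ht, if_neg (hEn v hvE), if_pos hvE, hx _ hv]
        · rw [← h6 v (hE hvE), h2 v hvE, hx _ hv]
    refine ⟨φ, ⟨⟨hφ1.1, fun v _ hv => ?_⟩, fun v hv => ?_, fun v hv => ?_⟩, h10⟩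
    · rw [Finset.mem_union, not_or] at hv
      rw [h8, hnt v hv.1 hv.2]
    · rw [h8, ht, if_pos hv]
    · exact ⟨τ ⟨v, hv⟩, (τ ⟨v, hv⟩).2, h10 ⟨v, hv⟩⟩

theorem fit_iff (hp : p.Prime) (hζ : IsPrimitiveRoot ζ p) {k M m j : ℕ} {z : K}
    (hz : IsPrimitiveRoot z (p ^ (j + 1))) (hkj : k ≤ j + 1) [NeZero (p ^ m)]
    {L : LDs D Ω} {Q : DP K Ω} {Fr : FR L}
    {I : ((Gal(Ω/K) → Gal(Ω/K) → Gal(Ω/K) → ZMod (p ^ m)) ×
      (Pl K → Gal(Ω/K) → Gal(Ω/K) → ZMod (p ^ m))) →+ AddCircle (1 : ℝ)}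
    (hF : FF p k m D L Q Fr I) {A : GS D Ω} {B : SD D Q A} (hB : LOC k M D Q I A B)
    {Z : Finset (Pl K)} {X : Pl K → FW A} {Y : Fin A.g → FW A} (hW : Wds k M L Fr A B Z X Y)
    (hZ : ∀ v ∈ Z, v ∉ D.S0) {P : Type} [Group P] [Finite P] (hP : Sml p k M P)
    (T : Subgroup P) {l : LT A P} {E n : Finset (Pl K)} (hE : E ⊆ Z) (hn : n ⊆ Z)
    (hnE : Disjoint n E) (hl : LTok B l E) (s : Pl K → P) (τ : BB D E → T) :
    (∃ φ : Gal(Ω/K) →* P, Fit Fr B T l E n s φ ∧ ∀ v : BB D E, At Fr B l v.1 (τ v : P) φ) ↔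
      GP B l E X Y n s (xt τ) (thP B l E n s (xt τ)) :=
  fit_iff' hW hZ hP (fun v hv φ hφ => hon_frm hp hζ hz hkj Fr (hZ v hv) hP φ hφ)
    (crit hp hζ hF hB hW (Nat.card P) P rfl hP) T hE hn hnE hl s τ

theorem fit_uniq (hp : p.Prime) (hζ : IsPrimitiveRoot ζ p) {L : LDs D Ω} {Q : DP K Ω} {Fr : FR L}
    {A : GS D Ω} {B : SD D Q A} {P : Type} [Group P] [Finite P] (hP : IsPGroup p P)
    (T : Subgroup P) {l : LT A P} {E n : Finset (Pl K)} (hE : ∀ v ∈ E, v ∉ D.S0)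
    (s : Pl K → P) (τ : BB D E → T) {φ φ' : Gal(Ω/K) →* P}
    (h1 : Fit Fr B T l E n s φ ∧ ∀ v : BB D E, At Fr B l v.1 (τ v : P) φ)
    (h2 : Fit Fr B T l E n s φ' ∧ ∀ v : BB D E, At Fr B l v.1 (τ v : P) φ') : φ = φ' := by
  refine hon_eqU hp hζ L A (n ∪ E) φ φ' h1.1.1 h2.1.1 (hP.to_subgroup _) (hP.to_subgroup _)
    (fun v hv => ?_) fun i => ?_
  · by_cases hvn : v ∈ n
    · rw [h1.1.2.1 v hvn, h2.1.2.1 v hvn]
    · have hvE : v ∈ E := (Finset.mem_union.1 hv).resolve_left hvn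
      have hvB : v ∈ BB D E := Finset.mem_union_right _ hvE
      rw [((h1.2 ⟨v, hvB⟩).2 (hE v hvE)).1, ((h2.2 ⟨v, hvB⟩).2 (hE v hvE)).1]
  · have hvB : B.pl i ∈ BB D E := Finset.mem_union_left _ (B.mem i)
    rw [((h1.2 ⟨_, hvB⟩).1 i rfl).1, ((h2.2 ⟨_, hvB⟩).1 i rfl).1]

theorem fit_finite (hp : p.Prime) (hζ : IsPrimitiveRoot ζ p) {L : LDs D Ω} {Q : DP K Ω}
    {Fr : FR L} {A : GS D Ω} {B : SD D Q A} {P : Type} [Group P] [Finite P] (hP : IsPGroup p P)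
    (T : Subgroup P) (l : LT A P) (E n : Finset (Pl K)) (s : Pl K → P) :
    Finite {φ : Gal(Ω/K) →* P // Fit Fr B T l E n s φ} :=
  ((hon_finU hp hζ L A (n ∪ E) P).subset fun _ h => ⟨h.1, hP.to_subgroup _⟩).to_subtype

/-- THE COUNTING FORMULA -/
theorem cnt' (hp : p.Prime) (hζ : IsPrimitiveRoot ζ p) {k M : ℕ}
    {L : LDs D Ω} {Q : DP K Ω} {Fr : FR L} {A : GS D Ω} {B : SD D Q A}
    {Z : Finset (Pl K)} {X : Pl K → FW A} {Y : Fin A.g → FW A} (hW : Wds k M L Fr A B Z X Y)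
    (hZ : ∀ v ∈ Z, v ∉ D.S0) {P : Type} [Group P] [Finite P] (hP : Sml p k M P)
    (hcm : ∀ v ∈ Z, ∀ φ : Gal(Ω/K) →* P, H38.ML.FT φ →
      φ (Fr.F v) * φ (L.t v) = φ (L.t v) * φ (Fr.F v))
    (hcr : ∀ θ : FW A →* P, (∀ v, v ∉ Z ∨ v ∈ D.S0 → θ (FreeGroup.of (Sum.inl v)) = 1) →
      (∀ v ∈ Z, v ∉ D.S0 → ⁅θ (FreeGroup.of (Sum.inl v)), θ (X v)⁆ = 1) →
      (∀ v ∈ D.S0, blk B.pl v (fun i => θ (FreeGroup.of (Sum.inr i))) (fun i => θ (Y i)) = 1) →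
      ∃ φ : Gal(Ω/K) →* P, Unz L Z φ ∧ hat L A φ = θ)
    (T : Subgroup P) {l : LT A P} {E n : Finset (Pl K)} (hE : E ⊆ Z) (hn : n ⊆ Z)
    (hnE : Disjoint n E) (hl : LTok B l E) (s : Pl K → P) :
    Nat.card {φ : Gal(Ω/K) →* P // Fit Fr B T l E n s φ} *
        ∏ v ∈ BB D E, Nat.card (Cen B T l v) =
      Nat.card {τ : BB D E → T // GP B l E X Y n s (xt τ) (thP B l E n s (xt τ))} := by
  have hfin : Finite {φ : Gal(Ω/K) →* P // Fit Fr B T l E n s φ} :=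
    fit_finite hp hζ hP.1 T l E n s
  have e1 : (Σ φ : {φ : Gal(Ω/K) →* P // Fit Fr B T l E n s φ},
      {τ : BB D E → T // ∀ v : BB D E, At Fr B l v.1 (τ v : P) φ.1}) ≃
      {τ : BB D E → T // GP B l E X Y n s (xt τ) (thP B l E n s (xt τ))} :=
    Equiv.ofBijective (fun x => ⟨x.2.1, (fit_iff' hW hZ hP hcm hcr T hE hn hnE hl s
      x.2.1).1 ⟨x.1.1, x.1.2, x.2.2⟩⟩) (by
      constructor
      · rintro ⟨⟨φ, h1⟩, ⟨τ, h2⟩⟩ ⟨⟨φ', h3⟩, ⟨τ', h4⟩⟩ h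
        obtain rfl : τ = τ' := congrArg Subtype.val h
        obtain rfl : φ = φ' := fit_uniq hp hζ hP.1 T (fun v hv => hZ v (hE hv)) s τ ⟨h1, h2⟩
          ⟨h3, h4⟩
        rfl
      · rintro ⟨τ, hτ⟩
        obtain ⟨φ, h1, h2⟩ := (fit_iff' hW hZ hP hcm hcr T hE hn hnE hl s τ).2 hτ
        exact ⟨⟨⟨φ, h1⟩, ⟨τ, h2⟩⟩, rfl⟩)
  rw [← Nat.card_congr e1]
  have := Fintype.ofFinite {φ : Gal(Ω/K) →* P // Fit Fr B T l E n s φ}
  rw [Nat.card_sigma]
  rw [Finset.sum_congr rfl fun (φ : {φ : Gal(Ω/K) →* P // Fit Fr B T l E n s φ}) _ =>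
    tau_card Fr B T l E φ.2.2.2, Finset.sum_const, Finset.card_univ, Nat.card_eq_fintype_card,
    smul_eq_mul]

/-- the same from `FF`, `LOC`, `Wds` -/
theorem cnt (hp : p.Prime) (hζ : IsPrimitiveRoot ζ p) {k M m j : ℕ} {z : K}
    (hz : IsPrimitiveRoot z (p ^ (j + 1))) (hkj : k ≤ j + 1) [NeZero (p ^ m)]
    {L : LDs D Ω} {Q : DP K Ω} {Fr : FR L}
    {I : ((Gal(Ω/K) → Gal(Ω/K) → Gal(Ω/K) → ZMod (p ^ m)) ×
      (Pl K → Gal(Ω/K) → Gal(Ω/K) → ZMod (p ^ m))) →+ AddCircle (1 : ℝ)}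
    (hF : FF p k m D L Q Fr I) {A : GS D Ω} {B : SD D Q A} (hB : LOC k M D Q I A B)
    {Z : Finset (Pl K)} {X : Pl K → FW A} {Y : Fin A.g → FW A} (hW : Wds k M L Fr A B Z X Y)
    (hZ : ∀ v ∈ Z, v ∉ D.S0) {P : Type} [Group P] [Finite P] (hP : Sml p k M P)
    (T : Subgroup P) {l : LT A P} {E n : Finset (Pl K)} (hE : E ⊆ Z) (hn : n ⊆ Z)
    (hnE : Disjoint n E) (hl : LTok B l E) (s : Pl K → P) :
    Nat.card {φ : Gal(Ω/K) →* P // Fit Fr B T l E n s φ} *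
        ∏ v ∈ BB D E, Nat.card (Cen B T l v) =
      Nat.card {τ : BB D E → T // GP B l E X Y n s (xt τ) (thP B l E n s (xt τ))} :=
  cnt' hp hζ hW hZ hP (fun v hv φ hφ => hon_frm hp hζ hz hkj Fr (hZ v hv) hP φ hφ)
    (crit hp hζ hF hB hW (Nat.card P) P rfl hP) T hE hn hnE hl s

end main

end H71.S3
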