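import Pool.Agent.H71.S3.Odf
import Pool.Agent.H71.S3.Cnw

/-!
# [H71 S3 OA] the mean of `H 1` over the conjugators (MP_b39724_nt, stage 3, chapter B)

`mn_one`: the mean of `H 1` at the actual values is `∑ κ ∈ K1, ep (phs (ck κ)) * F1 (ck κ)`.
Proof (helper1). `H 1 = ∑_η Hh 0 η` (`fourA`, `m = 0`); the families `η` with `Ff` are the `et κ`, `κ = 0` at the letters `pp` (`zinjU`, `kx_ex'`);
`Hh 0 τ (vl τ) (et κ) = ep (pr (et κ) (vl τ).left) F1 (ck κ)` (`hh_mv`, `nnx`); the class of `(vl τ j).left` is `c (W j) - (1 - W j) m` with the crossed homomorphism `c` with the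
values `y j + (1 - j) m` (`lq_cv`), and the mean over `τ` is computed by `avU`.
-/

set_option autoImplicit false

open scoped NumberField commutatorElement
open IsDedekindDomain
open scoped Classical

noncomputable section

namespace H71.S3

open H63.MA H1.S3 H73.S3

attribute [local instance 50] Fintype.ofFinite

section a

variable {S P : Type} [Group S] [Group P] [MulDistribMulAction P S] {J V : Type}

/-- the Fourier expansion for all `m` -/
theorem fourA [Fintype S] (X : AD S P J V) {q : ℕ} [NeZero q] (hq : ∀ s : S, s ^ q = 1) (m : ℕ)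
    (τ : V → S) (x : J → SP S P) :
    X.H (m + 1) τ x = ∑ η ∈ Finset.univ.filter fun η : X.Jf → Du S q m × Du S q (m + 1) => X.Ff η,
      X.Hh m τ x η := by
  have hsub : X.Cg (m + 1) ⊆ X.Cg m := by
    intro u hu
    unfold AD.Cg at *
    rw [Finset.mem_filter] at *
    refine ⟨Finset.mem_univ _, fun j => ?_⟩
    have := hu.2 j
    split_ifs at this ⊢
    · exact gm_anti m this
    · exact gm_anti (m + 1) this
  have h0 : ((X.Cg m).card : ℂ) ≠ 0 := by
    rw [Nat.cast_ne_zero, cg_card]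
    exact Finset.prod_ne_zero_iff.2 fun j _ => Nat.card_pos.ne'
  have h1 : ((X.Cg m).card : ℂ) = (∏ j : X.Jf, (Nat.card (Gr S (if X.pp j then m else m + 1)) : ℂ)) *
      ((X.Cg (m + 1)).card : ℂ) := by
    rw [cg_card, cg_card]
    push_cast
    rw [← Finset.prod_mul_distrib]
    refine Finset.prod_congr rfl fun j _ => ?_
    rw [gr_card (if X.pp j then m else m + 1)]
    push_cast
    congr 3
    split_ifs
    · rfl
    · rfl
  have h2 : ∑ η ∈ Finset.univ.filter fun η : X.Jf → Du S q m × Du S q (m + 1) => X.Ff η,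
      X.Hh m τ x η = (∑ u ∈ X.Cg m, X.H (m + 1) τ (X.mv u x) *
        ∑ η ∈ Finset.univ.filter fun η : X.Jf → Du S q m × Du S q (m + 1) => X.Ff η,
          H63.MA.ep q (-X.pr η u)) / ((X.Cg m).card : ℂ) := by
    unfold AD.Hh
    rw [← Finset.sum_div, Finset.sum_comm]
    simp only [Finset.mul_sum]
  have h3 : ∀ u ∈ X.Cg m, X.H (m + 1) τ (X.mv u x) *
        ∑ η ∈ Finset.univ.filter fun η : X.Jf → Du S q m × Du S q (m + 1) => X.Ff η,
          H63.MA.ep q (-X.pr η u) =
      if u ∈ X.Cg (m + 1) then X.H (m + 1) τ x *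
        ∏ j : X.Jf, (Nat.card (Gr S (if X.pp j then m else m + 1)) : ℂ) else 0 := by
    intro u hu
    rw [ff_sum X hq m u hu]
    split_ifs with h4
    · rw [h_inv X (m + 1) τ x u h4]
    · rw [mul_zero]
  rw [h2, Finset.sum_congr rfl h3, ← Finset.sum_filter, Finset.sum_const, nsmul_eq_mul,
    Finset.filter_mem_eq_inter, Finset.inter_eq_right.2 hsub, eq_div_iff h0, h1]
  ring

theorem gk1_mul (u v : S) : gk 1 (u * v) = gk 1 u + gk 1 v :=
  gk_mul (Subgroup.mem_top u) (Subgroup.mem_top v)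

theorem gk1_smul (g : P) (u : S) : gk 1 (g • u) = g • gk 1 u :=
  (smul_gk g (Subgroup.mem_top u)).symm

theorem gk1_inv (u : S) : gk 1 u⁻¹ = -gk 1 u := gk_inv (Subgroup.mem_top u)

theorem sp_left (x y : SP S P) : (x * y).left = x.left * x.right • y.left := rfl

theorem cj_left (u : S) (x : SP S P) : (cj u x).left = u * x.left * x.right • u⁻¹ := by
  unfold cj
  rw [← il_inv, sp_left, sp_left, sp_right, il_left, il_left, il_right, one_smul, one_mul]

theorem gk_cj (u : S) (x : SP S P) : gk 1 (cj u x).left = gk 1 u + gk 1 x.left - x.right • gk 1 u := by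
  rw [cj_left, gk1_mul, gk1_mul, gk1_smul, gk1_inv, smul_neg, sub_eq_add_neg]

/-- the class of the left part of the evaluation -/
def lq (X : AD S P J V) (τ : V → S) (w : FreeGroup J) : Gr S 1 := gk 1 (X.th τ w).left

theorem lq_ch (X : AD S P J V) (τ : V → S) : X.CHp (lq X τ) := by
  intro a b
  unfold lq
  rw [map_mul, sp_left, gk1_mul, gk1_smul, th_rt]

theorem lq_of (X : AD S P J V) (τ : V → S) (j : J) : lq X τ (FreeGroup.of j) =
    gk 1 (τ (X.pj j)) + gk 1 (X.y j) - X.ph (FreeGroup.of j) • gk 1 (τ (X.pj j)) := by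
  unfold lq
  rw [th_of, gk_cj, ph_of]
  rfl

theorem vl_gk (X : AD S P J V) (τ : V → S) (j : J) : gk 1 (X.vl τ j).left =
    lq X τ (X.W j) - (gk 1 (τ (X.pj j)) - X.ph (X.W j) • gk 1 (τ (X.pj j))) := by
  unfold AD.vl
  rw [gk_cj, th_rt, gk1_inv, smul_neg]
  unfold lq
  abel

variable {q : ℕ}

theorem sg_xx (X : AD S P J V) (κ : X.Jf → Du S q 1) (w : FreeGroup J) : (sg X κ w).x = X.ph w := by
  have h : (Sd.pr (F := P) (N := Du S q 1)).comp (sg X κ) = X.ph := by
    refine FreeGroup.ext_hom _ _ fun j => ?_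
    rw [MonoidHom.comp_apply, ph_of]
    unfold sg
    rw [FreeGroup.lift_apply_of]
    rfl
  exact DFunLike.congr_fun h w

theorem ck_ch (X : AD S P J V) (κ : X.Jf → Du S q 1) : X.CHp (ck X κ) := by
  intro a b
  unfold ck
  rw [map_mul, sd_mul, sg_xx]

theorem ck_of (X : AD S P J V) (κ : X.Jf → Du S q 1) (j : J) :
    ck X κ (FreeGroup.of j) = if h : j ∈ X.Jf then κ ⟨j, h⟩ else 0 := by
  unfold ck sg
  rw [FreeGroup.lift_apply_of]

/-- the family of a family of values -/
def et (X : AD S P J V) (κ : X.Jf → Du S q 1) (j : X.Jf) : Du S q 0 × Du S q (0 + 1) :=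
  (0, if X.pp j then 0 else zeta (ck X κ) FreeGroup.of X.W (X.bl (X.pj j)) j.1)

theorem du0 (χ : Du S q 0) : χ = 0 := by
  refine du_ext fun a => ?_
  obtain ⟨u, hu, rfl⟩ := gk_surj 0 a
  rw [(gk_zero hu).2 hu, map_zero, map_zero]

theorem pr_et (X : AD S P J V) (κ : X.Jf → Du S q 1) (u : X.Jf → S) :
    X.pr (et X κ) u = pz X (ck X κ) u := by
  unfold AD.pr pz
  refine Finset.sum_congr rfl fun j _ => ?_
  unfold et
  split_ifs
  · exact ap_zero _
  · rfl

theorem hh_et [Fintype S] [NeZero q] (X : AD S P J V) (κ : X.Jf → Du S q 1) :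
    X.Hh 0 (fun _ => 1) (x1 X) (et X κ) = F1 X (ck X κ) := by
  have h1 : X.Cg 0 = Finset.univ := by
    unfold AD.Cg
    refine Finset.filter_true_of_mem fun u _ j => ?_
    split_ifs <;> exact Subgroup.mem_top _
  unfold AD.Hh F1
  rw [h1, Finset.card_univ, Fintype.card_fun, Fintype.card_coe]
  push_cast
  congr 1
  refine Finset.sum_congr rfl fun u _ => ?_
  rw [pr_et]

end a

section b

variable {S P : Type} [Group S] [Group P] [MulDistribMulAction P S] {J V : Type} [Fintype S]
  {p k Mw q c : ℕ} [NeZero q] {P' : Type} [Group P'] [Finite P] {Pi : SP S P →* P'}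

/-- the sum over the families with `Ff` -/
theorem sum_et (X : AD S P J V) (hp : p.Prime) (hX : X.Ok p k Mw q c Pi)
    (f : (X.Jf → Du S q 0 × Du S q (0 + 1)) → ℂ) :
    ∑ η ∈ Finset.univ.filter (fun η : X.Jf → Du S q 0 × Du S q (0 + 1) => X.Ff η), f η =
      ∑ κ ∈ Finset.univ.filter (fun κ : X.Jf → Du S q 1 => ∀ j : X.Jf, X.pp j → κ j = 0),
        f (et X κ) := by
  symm
  refine Finset.sum_bij (fun κ _ => et X κ) ?_ ?_ ?_ fun _ _ => rfl
  · intro κ _
    rw [Finset.mem_filter]
    refine ⟨Finset.mem_univ _, fun j => ?_⟩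
    unfold et
    split_ifs <;> rfl
  · intro κ hκ κ' hκ' h
    rw [Finset.mem_filter] at hκ hκ'
    let iN : DistribMulAction (FreeGroup J) (Du S q 1) := fact X.ph
    obtain ⟨Φ₀⟩ := filD (P := P) hp hX.pg hX.qe 1
    have Φ : Fil (FreeGroup J) (Du S q 1) := Φ₀.map X.ph fun x n => rfl
    have hc1 : CH (ck X κ) := ck_ch X κ
    have hc2 : CH (ck X κ') := ck_ch X κ'
    have h1 := zinjU Φ (hc1.sub hc2) (Bd X) (fun j hj => by
      show ck X κ (FreeGroup.of j) - ck X κ' (FreeGroup.of j) = 0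
      rw [ck_of, ck_of]
      by_cases hj' : j ∈ X.Jf
      · have hpp : X.pp j := by
          by_contra h
          exact hj ⟨hj', h⟩
        rw [dif_pos hj', dif_pos hj', hκ.2 ⟨j, hj'⟩ hpp, hκ'.2 ⟨j, hj'⟩ hpp, sub_zero]
      · rw [dif_neg hj', dif_neg hj', sub_zero]) X.W (fun j => X.bl (X.pj j)) (fun j hj => by
      have h2 := congrArg Prod.snd (congrFun h ⟨j, hj.1⟩)
      unfold et at h2
      simp only [if_neg hj.2] at h2
      have h3 := zeta_sub (ck X κ) (ck X κ') FreeGroup.of X.W (X.bl (X.pj j)) j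
      refine h3.trans ?_
      rw [sub_eq_zero]
      exact h2)
    funext j
    have h2 := h1 (FreeGroup.of j.1)
    have h3 : ck X κ (FreeGroup.of j.1) - ck X κ' (FreeGroup.of j.1) = 0 := h2
    rw [ck_of, ck_of, dif_pos j.2, dif_pos j.2] at h3
    exact sub_eq_zero.1 h3
  · intro η hη
    rw [Finset.mem_filter] at hη
    obtain ⟨kk, hkk⟩ := kx_ex' X hp hX 0 η
    have hck : ck X (fun j : X.Jf => kk (FreeGroup.of j.1)) = kk := by
      let iN : DistribMulAction (FreeGroup J) (Du S q 1) := fact X.ph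
      refine ch_ext (ck_ch X _) hkk.ch fun j => ?_
      rw [ck_of]
      split_ifs with hj
      · rfl
      · exact (hkk.of j fun h => hj h.1).symm
    refine ⟨fun j => kk (FreeGroup.of j.1), ?_, ?_⟩
    · rw [Finset.mem_filter]
      exact ⟨Finset.mem_univ _, fun j hj => hkk.of j.1 fun h => h.2 hj⟩
    · funext j
      refine Prod.ext (du0 (η j).1).symm ?_
      · show (if X.pp j then 0 else zeta (ck X _) FreeGroup.of X.W (X.bl (X.pj j)) j.1) = (η j).2
        rw [hck]
        split_ifs with hj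
        · have h1 := hη.2 j
          rw [if_pos hj] at h1
          exact h1.symm
        · exact hkk.ze j hj

omit [NeZero q] [Finite P] [Fintype S] in
theorem sum_bd {G : Type} [AddCommMonoid G] (X : AD S P J V) [Fintype {j // Bd X j}] (f : J → G) :
    ∑ j : X.Jf, (if X.pp j then 0 else f j.1) = ∑ j : {j // Bd X j}, f j.1 := by
  have h5 : ∀ j : X.Jf, (if X.pp j then 0 else f j.1) = if ¬ X.pp j then f j.1 else 0 := by
    intro j
    by_cases hj : X.pp j
    · rw [if_pos hj, if_neg (not_not.2 hj)]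
    · rw [if_neg hj, if_pos hj]
  rw [Finset.sum_congr rfl fun j _ => h5 j, ← Finset.sum_filter]
  refine Finset.sum_bij' (fun j hj => (⟨j.1, j.2, (Finset.mem_filter.1 hj).2⟩ : {j // Bd X j}))
    (fun j _ => (⟨j.1, j.2.1⟩ : X.Jf)) (fun j hj => Finset.mem_univ _) (fun j _ => ?_)
    (fun j _ => rfl) (fun j _ => rfl) fun j _ => rfl
  rw [Finset.mem_filter]
  exact ⟨Finset.mem_univ _, j.2.2⟩

omit [NeZero q] [Finite P] [Fintype S] in
theorem sum_gdl {G : Type} [AddCommMonoid G] (X : AD S P J V) [Fintype {j // Gdl X j}] (f : J → G) :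
    ∑ j : X.Jf, (if X.pp j then f j.1 else 0) = ∑ j : {j // Gdl X j}, f j.1 := by
  rw [← Finset.sum_filter]
  refine Finset.sum_bij' (fun j hj => (⟨j.1, j.2, (Finset.mem_filter.1 hj).2⟩ : {j // Gdl X j}))
    (fun j _ => (⟨j.1, j.2.1⟩ : X.Jf)) (fun j hj => Finset.mem_univ _) (fun j _ => ?_)
    (fun j _ => rfl) (fun j _ => rfl) fun j _ => rfl
  rw [Finset.mem_filter]
  exact ⟨Finset.mem_univ _, j.2.2⟩

omit [NeZero q] [Finite P] [Fintype S] in
theorem ph_tr (X : AD S P J V) (hX : X.Ok p k Mw q c Pi) {j : J} (hj : ¬ Bd X j) :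
    X.ph (FreeGroup.of j) = 1 := by
  rw [ph_of]
  by_cases hj' : j ∈ X.Jf
  · have hpp : X.pp j := by
      by_contra h
      exact hj ⟨hj', h⟩
    rw [hX.pt j hj' hpp, il_right]
  · rw [hX.t1 j hj']
    rfl

/-- the classes of the conjugators at the bad places -/
def rz (X : AD S P J V) : (X.Vf → S) →* Multiplicative ({v // Bw X v} → Gr S 1) where
  toFun z := Multiplicative.ofAdd fun v => gk 1 (X.ex z v.1)
  map_one' := by
    rw [← ofAdd_zero]
    congr 1
    funext v
    show gk 1 (X.ex (1 : X.Vf → S) v.1) = 0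
    have h1 : X.ex (1 : X.Vf → S) v.1 = 1 := by
      unfold AD.ex
      split_ifs <;> rfl
    rw [h1, gk_one]
  map_mul' z z' := by
    rw [← ofAdd_add]
    congr 1
    funext v
    show gk 1 (X.ex (z * z') v.1) = gk 1 (X.ex z v.1) + gk 1 (X.ex z' v.1)
    rw [ex_mul, gk1_mul]

omit [Fintype S] in
theorem rz_surj (X : AD S P J V) : Function.Surjective (rz X) := by
  intro a
  choose um hum1 hum2 using fun v => gk_surj 1 (Multiplicative.toAdd a v)
  refine ⟨fun v => if h : Bw X v.1 then um ⟨v.1, h⟩ else 1, ?_⟩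
  show Multiplicative.ofAdd _ = Multiplicative.ofAdd (Multiplicative.toAdd a)
  congr 1
  funext v
  obtain ⟨v, j, hj, rfl⟩ := v
  have hv : Bw X (X.pj j) := ⟨j, hj, rfl⟩
  show gk 1 (X.ex _ (X.pj j)) = _
  rw [ex_of X _ hj.1]
  show gk 1 (if h : Bw X (X.pj j) then um ⟨X.pj j, h⟩ else 1) = _
  rw [dif_pos hv, hum2]

/-- the mean of the characters -/
theorem mean_et (X : AD S P J V) (hp : p.Prime) (hX : X.Ok p k Mw q c Pi)
    (κ : X.Jf → Du S q 1) (hκ : ∀ j : X.Jf, X.pp j → κ j = 0) :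
    X.Mn (fun τ => ep q (X.pr (et X κ) fun j => (X.vl τ j.1).left)) =
      if ∀ v ∈ X.l, ck X κ (wd FreeGroup.of X.W (X.bl v)) = 0 then ep q (phs X (ck X κ))
      else 0 := by
  let iN : DistribMulAction (FreeGroup J) (Du S q 1) := fact X.ph
  let iM : DistribMulAction (FreeGroup J) (Gr S 1) := fact X.ph
  obtain ⟨Φ₀⟩ := filG (P := P) hp hX.pg 1
  have Φ : Fil (FreeGroup J) (Gr S 1) := Φ₀.map X.ph fun x n => rfl
  have f1 : Finite {j // Bd X j} := bd_fin X
  have f2 : Finite {v // Bw X v} := bw_fin X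
  have f3 : Finite {j // Gdl X j} := gd_fin X
  have i1 : Fintype {j // Bd X j} := Fintype.ofFinite _
  have i2 : Fintype {v // Bw X v} := Fintype.ofFinite _
  have i3 : Fintype {j // Gdl X j} := Fintype.ofFinite _
  have i4 : Fintype ({v // Bw X v} → Gr S 1) := Fintype.ofFinite _
  obtain ⟨kk, hkk⟩ : ∃ kk, kk = ck X κ := ⟨_, rfl⟩
  have hkc : X.CHp kk := hkk ▸ ck_ch X κ
  have hk0 : ∀ j, ¬ Bd X j → kk (FreeGroup.of j) = 0 := by
    intro j hj
    rw [hkk, ck_of]
    split_ifs with hj'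
    · refine hκ ⟨j, hj'⟩ ?_
      by_contra h
      exact hj ⟨hj', h⟩
    · rfl
  set e : AddChar (ZMod q) ℂ := ZMod.stdAddChar with he
  have hnd : ∀ n : Du S q 1, n ≠ 0 → ∃ a : Gr S 1, e (bil S q 1 n a) ≠ 1 := by
    intro n hn
    by_contra h
    push Not at h
    apply hn
    refine du_ext fun a => ?_
    have h1 := h a
    rw [bil_ap] at h1
    have h2 : Function.Injective (ZMod.stdAddChar (N := q)) := ZMod.injective_stdAddChar
    have h3 : e (n.ap a) = e 0 := by rw [h1, AddChar.map_zero_eq_one]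
    exact h2 h3
  have hg0 : ∀ j, ¬ j ∈ X.Jf → gk 1 (X.y j) = 0 := by
    intro j hj
    unfold AD.y
    rw [hX.t1 j hj]
    exact gk_one 1
  have hav := avU (Bd X) (Bw X) X.pj X.bl X.l (frm_ok hX) (B := bil S q 1)
    (ivt_to X.ph (fun _ _ => rfl) (fun _ _ => rfl) (bil_ivt q 1)) Φ (k := kk) hkc hk0
    (fun j hj n => by
      show X.ph (FreeGroup.of j) • n = n
      rw [ph_tr X hX hj, one_smul])
    (fun j hj n => by
      show X.ph (FreeGroup.of j) • n = n
      rw [ph_tr X hX hj, one_smul])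
    X.W
    (fun v hv y => by
      show X.ph (wd FreeGroup.of X.W (X.bl v)) • y = y
      obtain ⟨j, hj, rfl⟩ := hv
      rw [hX.hb _ (hX.jl j hj.1).1, one_smul])
    (fun j => j ∈ X.Jf) (fun j hj => hj.1)
    (fun cc z hc hc0 hz hz0 => hz_rel X hp hX 1 kk hkc
      (fun j hj => hk0 j fun h => hj h.1) cc hc hc0 z hz hz0)
    e hnd (fun j => gk 1 (X.y j)) hg0
  -- the exponent
  set F : ({v // Bw X v} → Gr S 1) → ZMod q := fun mm =>
    ∑ j : {j // Bd X j}, bil S q 1 (zeta kk FreeGroup.of X.W (X.bl (X.pj j.1)) j.1)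
      (cV (Bd X) (Bw X) X.pj (fun j => gk 1 (X.y j)) mm (X.W j.1) -
        dm (exb (Bw X) mm (X.pj j.1)) (X.W j.1)) with hF
  have hlq : ∀ z : X.Vf → S, lq X (X.ex z) = cV (Bd X) (Bw X) X.pj (fun j => gk 1 (X.y j))
      (Multiplicative.toAdd (rz X z)) := by
    intro z
    refine ch_ext (lq_ch X _) (cv_ch _ _ _ _ _) fun j => ?_
    rw [cv_of, lq_of]
    by_cases hj : Bd X j
    · have h2 : exb (Bw X) (Multiplicative.toAdd (rz X z)) (X.pj j) = gk 1 (X.ex z (X.pj j)) :=
        exb_of (Bw X) (Multiplicative.toAdd (rz X z)) ⟨X.pj j, j, hj, rfl⟩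
      rw [if_pos hj, h2]
      show _ = gk 1 (X.y j) + (gk 1 (X.ex z (X.pj j)) - X.ph (FreeGroup.of j) • gk 1 (X.ex z (X.pj j)))
      abel
    · rw [if_neg hj, ph_tr X hX hj, one_smul]
      abel
  have hpr : ∀ z : X.Vf → S, X.pr (et X κ) (fun j => (X.vl (X.ex z) j.1).left) =
      F (Multiplicative.toAdd (rz X z)) := by
    intro z
    rw [pr_et, ← hkk]
    unfold pz
    rw [sum_bd X fun j => (zeta kk FreeGroup.of X.W (X.bl (X.pj j)) j).ap
      (gk 1 (X.vl (X.ex z) j).left), hF]
    refine Finset.sum_congr rfl fun j _ => ?_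
    have h2 : exb (Bw X) (Multiplicative.toAdd (rz X z)) (X.pj j.1) = gk 1 (X.ex z (X.pj j.1)) :=
      exb_of (Bw X) (Multiplicative.toAdd (rz X z)) ⟨X.pj j.1, j.1, j.2, rfl⟩
    rw [vl_gk, hlq, bil_ap, h2]
    rfl
  -- the phase
  have hph : (((X.l.filter fun v => ¬ Bw X v).map fun v =>
            ((X.bl v).map fun j => bil S q 1 (kk (X.W j)) (X.W j • gk 1 (X.y j))).sum).sum -
            ∑ j : {j // Bd X j}, bil S q 1 (zet' kk FreeGroup.of X.W (X.bl (X.pj j.1)) j.1)
              (gk 1 (X.y j.1))) = phs X kk := by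
    have h1 : ((X.l.filter fun v => ¬ Bw X v).map fun v =>
            ((X.bl v).map fun j => bil S q 1 (kk (X.W j)) (X.W j • gk 1 (X.y j))).sum) =
        ((X.l.filter fun v => ¬ Bw X v).map fun v =>
            ((X.bl v).map fun j => if Gdl X j then (kk (X.W j)).ap (gk 1 (X.y j)) else 0).sum) := by
      apply List.map_congr_left
      intro v hv
      rw [List.mem_filter] at hv
      have hnb : ¬ Bw X v := by simpa using hv.2
      congr 1
      apply List.map_congr_left
      intro j hj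
      have hjv := hX.bp v j hj
      rw [bil_ap]
      show (kk (X.W j)).ap (X.ph (X.W j) • gk 1 (X.y j)) = _
      by_cases hj' : j ∈ X.Jf
      · have hpp : X.pp j := by
          by_contra h
          exact hnb ⟨j, ⟨hj', h⟩, hjv⟩
        rw [if_pos ⟨hj', hpp⟩, hX.pw j hj' hpp, one_smul]
      · rw [if_neg fun h => hj' h.1, hg0 j hj', smul_zero, map_zero]
    rw [h1, gd_sum (frm_ok hX) (Gdl X)
      (fun j hj => ⟨(hX.jl j hj.1).1, bw_pp hX hj.1 hj.2, hX.pb j hj.1 hj.2⟩)
      (fun v _ j hj => hX.bp v j hj)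
      (fun j => if Gdl X j then (kk (X.W j)).ap (gk 1 (X.y j)) else 0)
      (fun j hj => if_neg hj), ← sum_gdl X
        (fun j => if Gdl X j then (kk (X.W j)).ap (gk 1 (X.y j)) else 0), ← sum_bd X
        (fun j => bil S q 1 (zet' kk FreeGroup.of X.W (X.bl (X.pj j)) j) (gk 1 (X.y j))),
      ← Finset.sum_sub_distrib]
    unfold phs
    refine Finset.sum_congr rfl fun j _ => ?_
    by_cases hj : X.pp j
    · rw [if_pos hj, if_pos hj, if_pos hj, if_pos ⟨j.2, hj⟩, sub_zero]
    · rw [if_neg hj, if_neg hj, if_neg hj, zero_sub, bil_ap]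
  rw [hph] at hav
  -- the mean
  have i7 : Fintype (Multiplicative ({v // Bw X v} → Gr S 1)) := Multiplicative.fintype
  have h1 := mean_hom (rz X) (rz_surj X) fun a => e (F (Multiplicative.toAdd a))
  have h2 : ∑ a : Multiplicative ({v // Bw X v} → Gr S 1), e (F (Multiplicative.toAdd a)) =
      ∑ a : {v // Bw X v} → Gr S 1, e (F a) :=
    Fintype.sum_equiv Multiplicative.toAdd _ _ fun _ => rfl
  have h3 : Fintype.card (Multiplicative ({v // Bw X v} → Gr S 1)) =
      Fintype.card ({v // Bw X v} → Gr S 1) := Fintype.card_congr Multiplicative.toAdd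
  have h4 : (Fintype.card ({v // Bw X v} → Gr S 1) : ℂ) ≠ 0 := by
    rw [Nat.cast_ne_zero]
    exact Fintype.card_ne_zero
  rw [h2, h3, hav] at h1
  have h5 : X.Mn (fun τ => ep q (X.pr (et X κ) fun j => (X.vl τ j.1).left)) =
      (∑ a, e (F (Multiplicative.toAdd (rz X a)))) / (Fintype.card (X.Vf → S) : ℂ) := by
    unfold AD.Mn
    rw [Fintype.card_fun, Fintype.card_coe]
    push_cast
    congr 1
    refine Finset.sum_congr rfl fun z _ => ?_
    rw [hpr, rayc_std]
  rw [h5, h1, ← hkk]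
  have h6 : (∀ v, Bw X v → kk (wd FreeGroup.of X.W (X.bl v)) = 0) ↔
      ∀ v ∈ X.l, kk (wd FreeGroup.of X.W (X.bl v)) = 0 := by
    constructor
    · intro h v hv
      by_cases hb : Bw X v
      · exact h v hb
      · have h3 : ∀ ks : List J, (∀ i ∈ ks, ¬ Bd X i) → kk (wd FreeGroup.of X.W ks) = 0 := by
          intro ks
          induction ks with
          | nil =>
            intro _
            exact CH.one (F := FreeGroup J) hkc
          | cons i ks ih =>
            intro hks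
            have h4 := hks i List.mem_cons_self
            have h5 := ih fun i' hi' => hks i' (List.mem_cons_of_mem _ hi')
            have h6 : wd FreeGroup.of X.W (i :: ks) =
                ⁅(FreeGroup.of i : FreeGroup J), X.W i⁆ * wd FreeGroup.of X.W ks := by
              rw [wd, List.map_cons, List.prod_cons]
              rfl
            have h7 : kk ⁅(FreeGroup.of i : FreeGroup J), X.W i⁆ = 0 := by
              rw [CH.comm (F := FreeGroup J) hkc, hk0 i h4, smul_zero]
              have h8 : ∀ n : Du S q 1, (FreeGroup.of i : FreeGroup J) • n = n := by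
                intro n
                show X.ph (FreeGroup.of i) • n = n
                rw [ph_tr X hX h4, one_smul]
              have h9 : ∀ n : Du S q 1, ⁅(FreeGroup.of i : FreeGroup J), X.W i⁆ • n = n := by
                intro n
                show X.ph ⁅(FreeGroup.of i : FreeGroup J), X.W i⁆ • n = n
                rw [map_commutatorElement, ph_tr X hX h4, commutatorElement_one_left, one_smul]
              rw [h8, h9]
              abel
            rw [h6, hkc, h7, h5, smul_zero, add_zero]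
        exact h3 _ fun i hi hbi => hb ⟨i, hbi, hX.bp v i hi⟩
    · rintro h v ⟨j, hj, rfl⟩
      exact h _ (hX.jl j hj.1).1
  by_cases h7 : ∀ v, Bw X v → kk (wd FreeGroup.of X.W (X.bl v)) = 0
  · rw [if_pos h7, if_pos (h6.1 h7), mul_div_cancel_left₀ _ h4, rayc_std]
  · rw [if_neg h7, if_neg fun h => h7 (h6.2 h), zero_div]

end b

theorem mn_one {S P : Type} [Group S] [Group P] [MulDistribMulAction P S] {J V : Type} [Fintype S]
    (X : AD S P J V) {p k Mw q c : ℕ} [NeZero q] {P' : Type} [Group P'] [Finite P]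
    {Pi : SP S P →* P'} (hp : p.Prime) (hX : X.Ok p k Mw q c Pi) :
    X.Mn (fun τ => X.H 1 τ (X.vl τ)) =
      ∑ κ ∈ K1 X q, ep q (phs X (ck X κ)) * F1 X (ck X κ) := by
  have h1 : ∀ τ : V → S, X.H 1 τ (X.vl τ) =
      ∑ κ ∈ Finset.univ.filter (fun κ : X.Jf → Du S q 1 => ∀ j : X.Jf, X.pp j → κ j = 0),
        ep q (X.pr (et X κ) fun j => (X.vl τ j.1).left) * F1 X (ck X κ) := by
    intro τ
    have h2 := fourA X hX.qe 0 τ (X.vl τ)
    rw [sum_et X hp hX] at h2
    refine h2.trans (Finset.sum_congr rfl fun κ _ => ?_)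
    have hu : (fun j : X.Jf => (X.vl τ j.1).left) ∈ X.Cg 0 := by
      unfold AD.Cg
      rw [Finset.mem_filter]
      refine ⟨Finset.mem_univ _, fun j => ?_⟩
      split_ifs <;> exact Subgroup.mem_top _
    rw [← hh_et, ← hh_mv X (fun _ => 1) (x1 X) (et X κ) hu]
    unfold AD.Hh
    congr 1
    refine Finset.sum_congr rfl fun w _ => ?_
    congr 1
    have h3 : ∀ j ∈ X.Jf, X.mv w (X.vl τ) j =
        X.mv w (X.mv (fun j : X.Jf => (X.vl τ j.1).left) (x1 X)) j := by
      intro j hj
      unfold AD.mv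
      rw [dif_pos hj, dif_pos hj, dif_pos hj]
      congr 1
      unfold x1
      rw [← vl_rt X τ j]
      exact (SemidirectProduct.inl_left_mul_inr_right (X.vl τ j)).symm
    rw [h_jf X hX 1 τ h3]
    refine nnx X hX 1 le_rfl τ (fun _ => 1) (fun j hj => ?_) _ fun j hj => ?_
    · have : ∀ a : S, a ∈ gm S (if X.pp j then 1 - 1 else 1) := by
        intro a
        split_ifs <;> exact Subgroup.mem_top _
      exact this _
    · rw [mv_right, mv_right]
      rfl
  unfold AD.Mn
  simp only [h1]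
  rw [Finset.sum_comm, Finset.sum_div]
  unfold K1
  rw [← Finset.filter_filter]
  refine Eq.trans (Finset.sum_congr rfl fun κ hκ => ?_) (Finset.sum_filter _ _).symm
  rw [Finset.mem_filter] at hκ
  have h2 := mean_et X hp hX κ hκ.2
  unfold AD.Mn at h2
  rw [← Finset.sum_mul, mul_div_right_comm, h2]
  split_ifs
  · rfl
  · rw [zero_mul]

end H71.S3
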