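import Pool.Agent.H71.S3.Odf

/-!
# [H71 S3 OD] the main part of stage 1: honest crossed homomorphisms (MP_b39724_nt, stage 3, chapter B)

`ZH q L E φ`: the crossed homomorphisms `κ : Γ → Du S q 1` (for `φ`) such that `σ ↦ (κ σ, φ σ)` is of finite type and unramified outside `S0`, `E`.
`main_eq`: `MN` is the sum over `ψ` and `κ ∈ ZH` of `Q1 ψ κ` times the sum over `f` of `wt f ∏ w1 ψ s (φ (F v)) 0 (κ (F v))`.
Proof. For `h = (f, 0)`: `sgE κ₀ h = sgE κ₀ none` does not depend on `f` (all values outside `J0` are `0`), nor does `Kc`. `κ₀` with `Kc` ↔ `ZH`: given `κ₀`, `θ = sgE κ₀ none` satisfies the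
hypotheses of `WF.Ok.cr` for `H = Du S q 1 ⋊ P` (`Sml` by `hD`; the second components satisfy the relations: `θ' = hat φ`, `hb`, `cm`, `s0`; the first ones by `Kc`: at `v ∈ Z \ E`: `θ (of v) = 1`), so `θ = hat Φ`, `Φ` honest,
unramified outside `S0`, `Z`, hence outside `S0`, `E` (`Φ (t v) = θ (of v) = 1` for `v ∈ Z`, `v ∉ E`); the second component of `Φ` is `φ` (`hon_eqU`: same `hat`). Conversely `κ ∈ ZH` gives `κ₀ j = κ (t v)`, `κ (a i)`, and
`hat Φ = sgE κ₀ none`; the relations hold by `cm`, `s0`; injective by `hon_eqU`. Values: `Φ (F v) = hat Φ (Wv v)` (`v ∈ Z`), `Φ (b i) = hat Φ (Wi i)` (`Rel` contains `Wds`), and `zeta`, `zet'` are values of `k` at words in the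
`a`, `d`: `hat Φ` maps them to the words in `t v`, `a i`, `F v`, `b i` (lemma `zeta_hat`).
-/

set_option autoImplicit false
set_option linter.unusedSectionVars false

open scoped NumberField commutatorElement
open IsDedekindDomain
open scoped Classical

noncomputable section

namespace H71.S3

open H63.MA H38.BB H38.BG H57.PC H57.BRA H77.WD H77.WE H77.PC3 H35.CF H35.UB H77.S3 H1.S3 H73.S3

attribute [local instance 50] Fintype.ofFinite

variable {K : Type} [Field K] [NumberField K] {Ω : Type} [Field Ω] [Algebra K Ω]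
  {p N : ℕ} {ζ : K} {D : RD0 K p ζ} {Q : DP K Ω} {A : GS D Ω} {P : Type} [Group P]
  {c : CL p N P} {S : Type} [Group S] [MulDistribMulAction P S] {q : ℕ}

/-- the homomorphism with the components `κ`, `φ` -/
def Hom2 (L : LDs D Ω) (E : Finset (Pl K)) (φ : Gal(Ω/K) →* P) (κ : Gal(Ω/K) → Du S q 1) : Prop :=
  ∃ Φ : Gal(Ω/K) →* Sd P (Du S q 1), Unz L E Φ ∧ ∀ σ, Φ σ = ⟨κ σ, φ σ⟩

variable (S q) in
/-- the honest crossed homomorphisms -/
def ZH (L : LDs D Ω) (E : Finset (Pl K)) (φ : Gal(Ω/K) →* P) (hφ : Unz L E φ) :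
    AddSubgroup (Gal(Ω/K) → Du S q 1) where
  carrier := {κ | Hom2 L E φ κ}
  zero_mem' := by
    refine ⟨{ toFun := fun σ => ⟨0, φ σ⟩, map_one' := ?_, map_mul' := ?_ }, ⟨?_, ?_⟩, ?_⟩
    · rw [map_one]
      rfl
    · intro σ τ
      rw [sd_mul, map_mul, smul_zero, add_zero]
    · obtain ⟨F, hF, h⟩ := hφ.1
      refine ⟨F, hF, fun σ hσ => ?_⟩
      rw [MonoidHom.mem_ker]
      have h1 := h hσ
      rw [MonoidHom.mem_ker] at h1
      show (⟨0, φ σ⟩ : Sd P (Du S q 1)) = 1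
      rw [h1]
      rfl
    · intro v h1 h2
      show (⟨0, φ (L.t v)⟩ : Sd P (Du S q 1)) = 1
      rw [hφ.2 v h1 h2]
      rfl
    · intro σ
      rfl
  add_mem' := by
    rintro κ κ' ⟨Φ, ⟨h1, h2⟩, h3⟩ ⟨Φ', ⟨h1', h2'⟩, h3'⟩
    have hc : ∀ σ τ, κ (σ * τ) = κ σ + φ σ • κ τ := fun σ τ => by
      have h := h3 (σ * τ)
      rw [map_mul, h3, h3, sd_mul] at h
      exact (congrArg Sd.n h).symm
    have hc' : ∀ σ τ, κ' (σ * τ) = κ' σ + φ σ • κ' τ := fun σ τ => by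
      have h := h3' (σ * τ)
      rw [map_mul, h3', h3', sd_mul] at h
      exact (congrArg Sd.n h).symm
    have hone : ∀ σ, Φ σ = 1 → Φ' σ = 1 → (⟨(κ + κ') σ, φ σ⟩ : Sd P (Du S q 1)) = 1 := by
      intro σ h4 h5
      rw [h3] at h4
      rw [h3'] at h5
      have e1 : κ σ = 0 := congrArg Sd.n h4
      have e2 : κ' σ = 0 := congrArg Sd.n h5
      have e3 : φ σ = 1 := congrArg Sd.x h4
      rw [Pi.add_apply, e1, e2, e3, add_zero]
      rfl
    refine ⟨{ toFun := fun σ => ⟨(κ + κ') σ, φ σ⟩, map_one' := ?_, map_mul' := ?_ }, ⟨?_, ?_⟩, ?_⟩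
    · exact hone 1 (map_one _) (map_one _)
    · intro σ τ
      rw [sd_mul, map_mul, Pi.add_apply, Pi.add_apply, Pi.add_apply, hc, hc', smul_add]
      congr 1
      exact add_add_add_comm _ _ _ _
    · obtain ⟨F, hF, h⟩ := h1
      obtain ⟨F', hF', h'⟩ := h1'
      refine ⟨F ⊔ F', inferInstance, fun σ hσ => ?_⟩
      rw [MonoidHom.mem_ker]
      refine hone σ ?_ ?_
      · have h4 : F ≤ F ⊔ F' := le_sup_left
        exact h (IntermediateField.fixingSubgroup_antitone h4 hσ)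
      · have h4 : F' ≤ F ⊔ F' := le_sup_right
        exact h' (IntermediateField.fixingSubgroup_antitone h4 hσ)
    · intro v hv hv'
      exact hone _ (h2 v hv hv') (h2' v hv hv')
    · intro σ
      rfl
  neg_mem' := by
    rintro κ ⟨Φ, ⟨h1, h2⟩, h3⟩
    have hc : ∀ σ τ, κ (σ * τ) = κ σ + φ σ • κ τ := fun σ τ => by
      have h := h3 (σ * τ)
      rw [map_mul, h3, h3, sd_mul] at h
      exact (congrArg Sd.n h).symm
    have hone : ∀ σ, Φ σ = 1 → (⟨(-κ) σ, φ σ⟩ : Sd P (Du S q 1)) = 1 := by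
      intro σ h4
      rw [h3] at h4
      have e1 : κ σ = 0 := congrArg Sd.n h4
      have e3 : φ σ = 1 := congrArg Sd.x h4
      rw [Pi.neg_apply, e1, e3, neg_zero]
      rfl
    refine ⟨{ toFun := fun σ => ⟨(-κ) σ, φ σ⟩, map_one' := ?_, map_mul' := ?_ }, ⟨?_, ?_⟩, ?_⟩
    · exact hone 1 (map_one _)
    · intro σ τ
      rw [sd_mul, map_mul, Pi.neg_apply, Pi.neg_apply, Pi.neg_apply, hc, smul_neg, neg_add]
    · obtain ⟨F, hF, h⟩ := h1
      refine ⟨F, hF, fun σ hσ => ?_⟩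
      rw [MonoidHom.mem_ker]
      exact hone σ (h hσ)
    · intro v hv hv'
      exact hone _ (h2 v hv hv')
    · intro σ
      rfl

section gen

variable {F F' G N' I : Type} [Group F] [Group F'] [Group G] [AddCommGroup N']

theorem wd_map (f : F →* G) (a d : I → F) (l : List I) :
    f (wd a d l) = wd (fun i => f (a i)) (fun i => f (d i)) l := by
  unfold H1.S3.wd
  rw [map_list_prod, List.map_map]
  congr 1
  refine List.map_congr_left fun i _ => ?_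
  rw [Function.comp_apply, map_commutatorElement]

theorem pre_sub (l : List I) (i : I) : ∀ j ∈ pre l i, j ∈ l := fun _ hj =>
  (List.takeWhile_sublist _).subset hj

variable {f : F →* G} {f' : F' →* G} {a d : I → F} {a' d' : I → F'} {l : List I}

theorem wd_tr (h : ∀ i ∈ l, f (a i) = f' (a' i) ∧ f (d i) = f' (d' i)) :
    f (wd a d l) = f' (wd a' d' l) := by
  rw [wd_map, wd_map]
  exact wd_congr h

theorem zeta_tr (n : G → N') (h : ∀ i ∈ l, f (a i) = f' (a' i) ∧ f (d i) = f' (d' i)) {i : I}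
    (hi : i ∈ l) : zeta (fun w => n (f w)) a d l i = zeta (fun w => n (f' w)) a' d' l i := by
  have h1 : f (wd a d (pre l i)) = f' (wd a' d' (pre l i)) := wd_tr fun j hj => h j (pre_sub l i j hj)
  unfold zeta
  beta_reduce
  rw [map_inv, map_inv, map_inv, map_inv, map_mul, map_mul, map_mul, map_mul, map_commutatorElement,
    map_commutatorElement, h1, (h i hi).1, (h i hi).2]

theorem zet_tr (n : G → N') (h : ∀ i ∈ l, f (a i) = f' (a' i) ∧ f (d i) = f' (d' i)) {i : I}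
    (hi : i ∈ l) : zet' (fun w => n (f w)) a d l i = zet' (fun w => n (f' w)) a' d' l i := by
  have h1 : f (wd a d (pre l i)) = f' (wd a' d' (pre l i)) := wd_tr fun j hj => h j (pre_sub l i j hj)
  unfold zet'
  beta_reduce
  rw [map_inv, map_inv, map_inv, map_inv, map_mul, map_mul, map_mul, map_mul, map_commutatorElement,
    map_commutatorElement, h1, (h i hi).1, (h i hi).2]

end gen

section od

variable {G : SG c S} {B : SD D Q A} {X : FD A P S} {W : WF A} {k Mw : ℕ}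

theorem lt_s0 (L : LDs D Ω) {v : Pl K} (hv : v ∈ D.S0) : L.t v = 1 := by
  unfold LDs.t
  rw [dif_neg (not_not.2 hv)]

/-- `sgE` without labels -/
abbrev sg0 (X : FD A P S) (W : WF A) (κ₀ : J0 X → Du S q 1) : FW A →* Sd P (Du S q 1) :=
  sgE X W κ₀ fun _ => (none : Option (La c S q))

theorem sg_of (κ₀ : J0 X → Du S q 1) (h : Pl K → Option (La c S q)) (j : Pl K ⊕ Fin A.g) :
    sgE X W κ₀ h (FreeGroup.of j) = ⟨if hj : j ∈ J0 X then κ₀ ⟨j, hj⟩ else Sum.elim (kv h) (fun _ => 0) j,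
      Sum.elim (fun v => if v ∈ X.E then X.φ (W.L.t v) else 1) (fun i => X.φ (A.a i)) j⟩ := by
  unfold sgE
  rw [FreeGroup.lift_apply_of]

theorem inl_J0 {v : Pl K} : (Sum.inl v : Pl K ⊕ Fin A.g) ∈ J0 X ↔ v ∈ X.E := by
  unfold H73.S3.J0
  rw [Finset.inl_mem_disjSum]

theorem inr_J0 (i : Fin A.g) : (Sum.inr i : Pl K ⊕ Fin A.g) ∈ J0 X := by
  unfold H73.S3.J0
  rw [Finset.inr_mem_disjSum]
  exact Finset.mem_univ _

theorem sg_x (hX : X.Ok G B W) (κ₀ : J0 X → Du S q 1) (h : Pl K → Option (La c S q)) :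
    (Sd.pr (F := P) (N := Du S q 1)).comp (sgE X W κ₀ h) = hat W.L A X.φ := by
  refine FreeGroup.ext_hom _ _ fun j => ?_
  rw [MonoidHom.comp_apply, sg_of]
  show Sum.elim (fun v => if v ∈ X.E then X.φ (W.L.t v) else 1) (fun i => X.φ (A.a i)) j = _
  rcases j with v | i
  · rw [hat_inl, Sum.elim_inl]
    by_cases h1 : v ∈ X.E
    · rw [if_pos h1]
    · rw [if_neg h1]
      by_cases h2 : v ∈ D.S0
      · rw [lt_s0 _ h2, map_one]
      · exact (hX.unz.2 v h2 h1).symm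
  · rw [hat_inr, Sum.elim_inr]

theorem unz_mono {L : LDs D Ω} {E Z : Finset (Pl K)} (h : E ⊆ Z) {H : Type} [Group H]
    {φ : Gal(Ω/K) →* H} (hφ : Unz L E φ) : Unz L Z φ :=
  ⟨hφ.1, fun v h1 h2 => hφ.2 v h1 fun h3 => h2 (h h3)⟩

theorem sml_P (hD : Sml p k Mw (Sd P (Du S q 1))) [Finite P] [Finite S] [NeZero q] : Sml p k Mw P := by
  have hsur : Function.Surjective (Sd.pr (F := P) (N := Du S q 1)) := fun g => ⟨⟨0, g⟩, rfl⟩
  have hfin : Finite (Sd P (Du S q 1)) :=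
    Finite.of_injective (fun a : Sd P (Du S q 1) => (a.n, a.x)) fun a b h =>
      Sd.ext (Prod.mk.inj h).1 (Prod.mk.inj h).2
  refine ⟨hD.1.of_surjective _ hsur, (Nat.card_le_card_of_surjective _ hsur).trans hD.2.1, fun g => ?_⟩
  obtain ⟨a, rfl⟩ := hsur g
  rw [← map_pow, hD.2.2, map_one]

theorem sg_cf (κ₀ : J0 X → Du S q 1) (f : Pl K → Option (Px c)) :
    sgE X W κ₀ (fun v => (f v).map fun s => (s, (0 : Du S q 1))) = sg0 (c := c) X W κ₀ := by
  refine FreeGroup.ext_hom _ _ fun j => ?_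
  rw [sg_of, sg_of]
  congr 1
  by_cases hj : j ∈ J0 X
  · rw [dif_pos hj, dif_pos hj]
  · rw [dif_neg hj, dif_neg hj]
    rcases j with v | i
    · show (((f v).map fun s => (s, (0 : Du S q 1))).elim (0 : Du S q 1) fun a => a.2) = 0
      rcases f v with _ | s
      · rfl
      · rfl
    · rfl

theorem wrd_eq (W : WF A) {H : Type} [Group H] (θ : FW A →* H) (B : SD D Q A) (v : Pl K) :
    θ (wd FreeGroup.of (Sum.elim W.Wv W.Wi) (blA B v)) =
      wrd B (fun v => θ (FreeGroup.of (Sum.inl v))) (fun v => θ (W.Wv v))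
        (fun i => θ (FreeGroup.of (Sum.inr i))) (fun i => θ (W.Wi i)) v := by
  rw [wd_map]
  unfold wrd blA
  by_cases hv : v ∈ D.S0
  · rw [if_pos hv, if_pos hv]
    unfold H1.S3.wd H77.S3.blk
    rw [List.map_map]
    rfl
  · rw [if_neg hv, if_neg hv]
    unfold H1.S3.wd
    rw [List.map_singleton, List.prod_singleton]
    rfl

variable [Finite S] [Finite P] [NeZero q]

instance sd_finite : Finite (Sd P (Du S q 1)) :=
  Finite.of_injective (fun a : Sd P (Du S q 1) => (a.n, a.x)) fun _ _ h =>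
    Sd.ext (Prod.mk.inj h).1 (Prod.mk.inj h).2

/-- the relations for honest homomorphisms -/
theorem rel_hat (hW : W.Ok B k Mw) {H : Type} [Group H] [Finite H] (hH : Sml p k Mw H)
    {Φ : Gal(Ω/K) →* H} (hu : Unz W.L W.Z Φ) (v : Pl K) (hv : v ∈ W.l) :
    hat W.L A Φ (wd FreeGroup.of (Sum.elim W.Wv W.Wi) (blA B v)) = 1 := by
  obtain ⟨h1, h2⟩ := hW.rel.2.2.1 H hH Φ hu
  rw [wrd_eq W]
  unfold wrd
  by_cases h3 : v ∈ D.S0
  · rw [if_pos h3, ← hW.s0 v h3 H hH Φ hu.1]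
    unfold H77.S3.blk
    congr 1
    refine List.map_congr_left fun i _ => ?_
    beta_reduce
    rw [hat_inr, h2]
  · have h4 : v ∈ W.Z := ((hW.lz v).1 hv).resolve_right h3
    rw [if_neg h3]
    beta_reduce
    rw [hat_inl, h1 v h4, commutatorElement_eq_one_iff_mul_comm]
    exact (hW.cm v h3 H hH Φ hu.1).symm

/-- the values of a crossed homomorphism at the letters -/
def kv0 (X : FD A P S) (W : WF A) (κ : Gal(Ω/K) → Du S q 1) (j : J0 X) : Du S q 1 :=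
  Sum.elim (fun v => κ (W.L.t v)) (fun i => κ (A.a i)) j.1

theorem sg_hat {κ : Gal(Ω/K) → Du S q 1} {Φ : Gal(Ω/K) →* Sd P (Du S q 1)}
    (hu : Unz W.L X.E Φ) (h : ∀ σ, Φ σ = ⟨κ σ, X.φ σ⟩) :
    sg0 (c := c) X W (kv0 X W κ) = hat W.L A Φ := by
  refine FreeGroup.ext_hom _ _ fun j => ?_
  rw [sg_of]
  rcases j with v | i
  · rw [hat_inl]
    by_cases h1 : v ∈ X.E
    · rw [dif_pos (inl_J0.2 h1), Sum.elim_inl, if_pos h1, h]
      rfl
    · have h2 : Φ (W.L.t v) = 1 := by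
        by_cases h3 : v ∈ D.S0
        · rw [lt_s0 _ h3, map_one]
        · exact hu.2 v h3 h1
      rw [dif_neg fun h3 => h1 (inl_J0.1 h3), Sum.elim_inl, Sum.elim_inl, if_neg h1, h2]
      rfl
  · rw [hat_inr, dif_pos (inr_J0 i), h]
    rfl

theorem hon_of [IsAlgClosure K Ω] (hp : p.Prime) (hζ : IsPrimitiveRoot ζ p) (hX : X.Ok G B W)
    (hW : W.Ok B k Mw) (hD : Sml p k Mw (Sd P (Du S q 1))) (hE : X.E ⊆ W.Z)
    {κ₀ : J0 X → Du S q 1} (hK : Kc B X W κ₀ fun _ => (none : Option (La c S q))) :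
    ∃ Φ : Gal(Ω/K) →* Sd P (Du S q 1), Unz W.L X.E Φ ∧ (∀ σ, (Φ σ).x = X.φ σ) ∧
      hat W.L A Φ = sg0 (c := c) X W κ₀ := by
  have hsP := sml_P hD
  have hpr := sg_x hX κ₀ fun _ => (none : Option (La c S q))
  have hkey : ∀ v ∈ W.l, sg0 (c := c) X W κ₀ (wd FreeGroup.of (Sum.elim W.Wv W.Wi) (blA B v)) = 1 := by
    intro v hv
    refine Sd.ext (hK v hv) ?_
    have h1 := DFunLike.congr_fun hpr (wd FreeGroup.of (Sum.elim W.Wv W.Wi) (blA B v))
    rw [rel_hat hW hsP (unz_mono hE hX.unz) v hv] at h1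
    exact h1
  have hval : ∀ v, v ∉ X.E → sg0 (c := c) X W κ₀ (FreeGroup.of (Sum.inl v)) = 1 := by
    intro v hv
    rw [sg_of, dif_neg fun h3 => hv (inl_J0.1 h3), Sum.elim_inl, Sum.elim_inl, if_neg hv]
    rfl
  obtain ⟨Φ, hΦ, hh⟩ := hW.cr (Sd P (Du S q 1)) hD (sg0 (c := c) X W κ₀) (by
      rintro v (h1 | h1)
      · exact hval v fun h2 => h1 (hE h2)
      · exact hval v fun h2 => hX.es v h2 h1) (by
      intro v hv hs
      have h1 := hkey v ((hW.lz v).2 (Or.inl hv))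
      rw [wrd_eq W] at h1
      unfold wrd at h1
      rw [if_neg hs] at h1
      exact h1) (by
      intro v hv
      have h1 := hkey v ((hW.lz v).2 (Or.inr hv))
      rw [wrd_eq W] at h1
      unfold wrd at h1
      rw [if_pos hv] at h1
      exact h1)
  have hx : (Sd.pr (F := P) (N := Du S q 1)).comp Φ = X.φ := by
    have hu : Unz W.L W.Z ((Sd.pr (F := P) (N := Du S q 1)).comp Φ) := by
      refine ⟨?_, fun v h1 h2 => ?_⟩
      · obtain ⟨F, hF, h⟩ := hΦ.1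
        refine ⟨F, hF, fun σ hσ => ?_⟩
        have h1 := h hσ
        rw [MonoidHom.mem_ker] at h1 ⊢
        rw [MonoidHom.comp_apply, h1, map_one]
      · rw [MonoidHom.comp_apply, hΦ.2 v h1 h2, map_one]
    have hc : hat W.L A ((Sd.pr (F := P) (N := Du S q 1)).comp Φ) = hat W.L A X.φ := by
      rw [← hpr]
      refine Eq.trans ?_ (congrArg _ hh)
      refine FreeGroup.ext_hom _ _ fun j => ?_
      rcases j with v | i
      · rw [MonoidHom.comp_apply, hat_inl, hat_inl]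
        rfl
      · rw [MonoidHom.comp_apply, hat_inr, hat_inr]
        rfl
    refine hon_eqU hp hζ W.L A W.Z _ _ hu (unz_mono hE hX.unz) (hsP.1.to_subgroup _)
      (hsP.1.to_subgroup _) (fun v _ => ?_) fun i => ?_
    · have h1 := DFunLike.congr_fun hc (FreeGroup.of (Sum.inl v))
      rwa [hat_inl, hat_inl] at h1
    · have h1 := DFunLike.congr_fun hc (FreeGroup.of (Sum.inr i))
      rwa [hat_inr, hat_inr] at h1
  refine ⟨Φ, ⟨hΦ.1, fun v h1 h2 => ?_⟩, fun σ => DFunLike.congr_fun hx σ, hh⟩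
  by_cases h3 : v ∈ W.Z
  · rw [← hat_inl W.L A Φ v, hh, hval v h2]
  · exact hΦ.2 v h1 h3

end od

section fin

variable [Finite S] [Finite P] [NeZero q] {G : SG c S} {B : SD D Q A} {X : FD A P S} {W : WF A}
  {k Mw : ℕ} {κ : Gal(Ω/K) → Du S q 1} {Φ : Gal(Ω/K) →* Sd P (Du S q 1)}

theorem hom_val (h : ∀ σ, Φ σ = ⟨κ σ, X.φ σ⟩) : κ = fun σ => (Φ σ).n := by
  funext σ
  rw [h]

/-- the letters and words at `E` and `S0` -/
theorem let_tr (hW : W.Ok B k Mw) (hD : Sml p k Mw (Sd P (Du S q 1))) (hu : Unz W.L W.Z Φ)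
    {v : Pl K} (hv : v ∈ W.Z ∨ v ∈ D.S0) : ∀ j ∈ blA B v,
      hat W.L A Φ (FreeGroup.of j) = Φ (Sum.elim W.L.t A.a j) ∧
      hat W.L A Φ (Sum.elim W.Wv W.Wi j) = Φ (Sum.elim W.Fr.F B.b j) := by
  obtain ⟨h1, h2⟩ := hW.rel.2.2.1 _ hD Φ hu
  have hr : ∀ i, hat W.L A Φ (FreeGroup.of (Sum.inr i)) = Φ (Sum.elim W.L.t A.a (Sum.inr i)) ∧
      hat W.L A Φ (Sum.elim W.Wv W.Wi (Sum.inr i)) = Φ (Sum.elim W.Fr.F B.b (Sum.inr i)) :=
    fun i => ⟨hat_inr _ _ _ _, h2 i⟩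
  intro j hj
  unfold blA at hj
  by_cases h3 : v ∈ D.S0
  · rw [if_pos h3] at hj
    obtain ⟨i, -, rfl⟩ := List.mem_map.1 hj
    exact hr i
  · rw [if_neg h3, List.mem_singleton] at hj
    subst hj
    exact ⟨hat_inl _ _ _ _, h1 v (hv.resolve_right h3)⟩

theorem J0_bl (hX : X.Ok G B W) (hE : X.E ⊆ W.Z) (j : J0 X) :
    (Sum.elim id B.pl j.1 ∈ W.Z ∨ Sum.elim id B.pl j.1 ∈ D.S0) ∧
      j.1 ∈ blA B (Sum.elim id B.pl j.1) := by
  obtain ⟨j, hj⟩ := j
  rcases j with v | i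
  · have h1 := inl_J0.1 hj
    refine ⟨Or.inl (hE h1), ?_⟩
    show Sum.inl v ∈ blA B v
    unfold blA
    rw [if_neg (hX.es _ h1)]
    exact List.mem_singleton.2 rfl
  · refine ⟨Or.inr (B.mem i), ?_⟩
    show Sum.inr i ∈ blA B (B.pl i)
    unfold blA
    rw [if_pos (B.mem i)]
    exact List.mem_map.2 ⟨i, List.mem_filter.2 ⟨List.mem_finRange i, by simp⟩, rfl⟩

theorem q1_eq [Fintype S] (hX : X.Ok G B W) (hW : W.Ok B k Mw)
    (hD : Sml p k Mw (Sd P (Du S q 1))) (hE : X.E ⊆ W.Z) (hu : Unz W.L X.E Φ)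
    (h : ∀ σ, Φ σ = ⟨κ σ, X.φ σ⟩) (ψ : AddChar (AN G.Pi) ℂ) :
    Q1 G B X W ψ (fun w => (hat W.L A Φ w).n) FreeGroup.of (Sum.elim W.Wv W.Wi) =
      Q1 G B X W ψ κ (Sum.elim W.L.t A.a) (Sum.elim W.Fr.F B.b) := by
  have hz := fun j : J0 X => zeta_tr (f := hat W.L A Φ) (f' := Φ) (Sd.n (F := P) (N := Du S q 1))
    (let_tr hW hD (unz_mono hE hu) (J0_bl hX hE j).1) (J0_bl hX hE j).2
  have hz' := fun j : J0 X => zet_tr (f := hat W.L A Φ) (f' := Φ) (Sd.n (F := P) (N := Du S q 1))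
    (let_tr hW hD (unz_mono hE hu) (J0_bl hX hE j).1) (J0_bl hX hE j).2
  rw [← hom_val h] at hz hz'
  unfold Q1
  congr 1
  refine Finset.sum_congr rfl fun u _ => ?_
  by_cases hg : G0 G B X W u
  · rw [if_pos hg, if_pos hg]
    unfold b1
    congr 2
    congr 1
    · congr 1
      exact Finset.sum_congr rfl fun j _ => by rw [hz' j]
    · exact Finset.sum_congr rfl fun j _ => by rw [hz j]
  · rw [if_neg hg, if_neg hg]

theorem sm_eq [Fintype S] (hX : X.Ok G B W) (hW : W.Ok B k Mw)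
    (hD : Sml p k Mw (Sd P (Du S q 1))) (hE : X.E ⊆ W.Z) {Zc : Finset (Pl K)} (hZc : Zc ⊆ W.Z)
    (hu : Unz W.L X.E Φ) (h : ∀ σ, Φ σ = ⟨κ σ, X.φ σ⟩) (wt : (Pl K → Option (Px c)) → ℂ)
    (ψ : AddChar (AN G.Pi) ℂ) (f : Pl K → Option (Px c)) :
    sm G B X W Zc wt ψ (kv0 X W κ) (fun v => (f v).map fun s => (s, (0 : Du S q 1))) =
      Q1 G B X W ψ κ (Sum.elim W.L.t A.a) (Sum.elim W.Fr.F B.b) *
        (wt f * om Zc (fun v s => w1 G ψ s (X.φ (W.Fr.F v)) 0 (κ (W.Fr.F v))) f) := by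
  have huZ := unz_mono hE hu
  obtain ⟨h1, h2⟩ := hW.rel.2.2.1 _ hD Φ huZ
  have hs : sgE X W (kv0 X W κ) (fun v => (f v).map fun s => (s, (0 : Du S q 1))) =
      hat W.L A Φ := by
    rw [sg_cf]
    exact sg_hat hu h
  have hK : Kc B X W (kv0 X W κ) (fun v => (f v).map fun s => (s, (0 : Du S q 1))) := by
    intro v hv
    rw [hs, rel_hat hW hD huZ v hv]
    rfl
  have hl : l1 (fun v => (f v).map fun s => (s, (0 : Du S q 1))) = f := by
    funext v
    show ((f v).map fun s => (s, (0 : Du S q 1))).map (fun a => a.1) = f v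
    rw [Option.map_map]
    rcases f v with _ | s
    · rfl
    · rfl
  have ho : om Zc (fun v (a : La c S q) => w1 G ψ a.1 (X.φ (W.Fr.F v)) a.2
      (hat W.L A Φ (W.Wv v)).n) (fun v => (f v).map fun s => (s, (0 : Du S q 1))) =
      om Zc (fun v s => w1 G ψ s (X.φ (W.Fr.F v)) 0 (κ (W.Fr.F v))) f := by
    unfold om
    refine Finset.prod_congr rfl fun v hv => ?_
    beta_reduce
    rw [h1 v (hZc hv), h]
    rcases f v with _ | s
    · rfl
    · rfl
  unfold sm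
  rw [if_pos hK, hs, hl, ho, q1_eq hX hW hD hE hu h]
  ring

end fin

theorem main_eq [Fintype S] [Fintype P] [IsAlgClosure K Ω] [NeZero q] (hp : p.Prime)
    (hζ : IsPrimitiveRoot ζ p) (G : SG c S) (B : SD D Q A) (X : FD A P S) (W : WF A) {k Mw : ℕ}
    (hX : X.Ok G B W) (hW : W.Ok B k Mw) (hD : Sml p k Mw (Sd P (Du S q 1)))
    (Zc : Finset (Pl K)) (hZ : Disjoint Zc X.E) (hZc : Zc ⊆ W.Z) (hE : X.E ⊆ W.Z)
    (wt : (Pl K → Option (Px c)) → ℂ) [Fintype (ZH S q W.L X.E X.φ hX.unz)] :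
    MN q G B X W Zc wt = ∑ ψ : AddChar (AN G.Pi) ℂ, ∑ κ : ZH S q W.L X.E X.φ hX.unz,
      Q1 G B X W ψ κ.1 (Sum.elim W.L.t A.a) (Sum.elim W.Fr.F B.b) *
        ∑ f ∈ Cf Zc (Px c), wt f *
          om Zc (fun v s => w1 G ψ s (X.φ (W.Fr.F v)) 0 (κ.1 (W.Fr.F v))) f := by
  unfold MN
  refine Finset.sum_congr rfl fun ψ _ => ?_
  have hR : ∀ κ : ZH S q W.L X.E X.φ hX.unz,
      Q1 G B X W ψ κ.1 (Sum.elim W.L.t A.a) (Sum.elim W.Fr.F B.b) *
        ∑ f ∈ Cf Zc (Px c), wt f *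
          om Zc (fun v s => w1 G ψ s (X.φ (W.Fr.F v)) 0 (κ.1 (W.Fr.F v))) f =
      ∑ f ∈ Cf Zc (Px c), sm G B X W Zc wt ψ (kv0 X W κ.1)
        fun v => (f v).map fun s => (s, (0 : Du S q 1)) := by
    intro κ
    obtain ⟨Φ, hu, h⟩ := κ.2
    rw [Finset.mul_sum]
    exact Finset.sum_congr rfl fun f _ => (sm_eq hX hW hD hE hZc hu h wt ψ f).symm
  rw [Finset.sum_congr rfl fun κ _ => hR κ]
  have hinj : Function.Injective fun κ : ZH S q W.L X.E X.φ hX.unz => kv0 X W κ.1 := by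
    rintro ⟨κ, Φ, hu, h⟩ ⟨κ', Φ', hu', h'⟩ he
    have he' : kv0 X W κ = kv0 X W κ' := he
    have h1 : Φ = Φ' := by
      have h2 : hat W.L A Φ = hat W.L A Φ' := by
        rw [← sg_hat (c := c) hu h, ← sg_hat (c := c) hu' h', he']
      refine hon_eqU hp hζ W.L A W.Z _ _ (unz_mono hE hu) (unz_mono hE hu')
        (hD.1.to_subgroup _) (hD.1.to_subgroup _) (fun v _ => ?_) fun i => ?_
      · rw [← hat_inl W.L A Φ v, ← hat_inl W.L A Φ' v, h2]
      · rw [← hat_inr W.L A Φ i, ← hat_inr W.L A Φ' i, h2]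
    refine Subtype.ext ?_
    show κ = κ'
    rw [hom_val h, hom_val h', h1]
  symm
  refine Finset.sum_of_injOn (fun κ => kv0 X W κ.1) hinj.injOn (fun _ _ => Finset.mem_univ _)
    (fun κ₀ _ hn => ?_) fun _ _ => rfl
  refine Finset.sum_eq_zero fun f _ => ?_
  unfold sm
  refine if_neg fun hK => hn ?_
  have hK' : Kc B X W κ₀ fun _ => (none : Option (La c S q)) := by
    intro v hv
    have h1 := hK v hv
    rw [sg_cf] at h1
    exact h1
  obtain ⟨Φ, hu, hx, hh⟩ := hon_of hp hζ hX hW hD hE hK'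
  have h : ∀ σ, Φ σ = ⟨(Φ σ).n, X.φ σ⟩ := fun σ => Sd.ext rfl (hx σ)
  have hm : (fun σ => (Φ σ).n) ∈ ZH S q W.L X.E X.φ hX.unz := ⟨Φ, hu, h⟩
  refine ⟨⟨fun σ => (Φ σ).n, hm⟩, Finset.mem_coe.2 (Finset.mem_univ _), ?_⟩
  funext j
  obtain ⟨j, hj⟩ := j
  have h2 : (hat W.L A Φ (FreeGroup.of j)).n = κ₀ ⟨j, hj⟩ := by
    rw [hh, sg_of, dif_pos hj]
  refine Eq.trans ?_ h2
  rcases j with v | i
  · rw [hat_inl]
    rfl
  · rw [hat_inr]
    rfl

end H71.S3
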