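import Pool.Agent.H71.S3.Zwd

/-!
# [H71 S3 ONC] the exact formula of stage 1, general form (thinks 1688 section 10, 1707 section 10')

Free group on `V ⊕ I`; the letters `lt v` act trivially; `pls` the list of the places (`inl v` good, `inr j` bad), in any order.
* `cz b s g m`: the crossed homomorphism with the values `s v` at `lt v` and `g i + (1 - a_i) m_(b i)` at `la i`.
* `one_sum`: the sum over `m` of `e (∑ B (ζ_i) (c (d i) - (1 - d i) m))`: `0` unless `k (W_j) = 0` for all `j`; then `|M|^#J e (∑_v B (k X_v) (X_v s_v) - ∑_i B (ζ'_i) (g i))`.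
* `one_core`: the exact formula for the number of `m` with given values `c (d i) - (1 - d i) m = δ i`.
-/

set_option autoImplicit false

open scoped commutatorElement
open scoped Classical

noncomputable section

namespace H71.S3

open H1.S3

section lists

variable {V J G : Type}

/-- the bad places -/
def rts (pls : List (V ⊕ J)) : List J := pls.filterMap Sum.getRight?

/-- the good places -/
def lfs (pls : List (V ⊕ J)) : List V := pls.filterMap Sum.getLeft?

theorem rts_map (pls : List (V ⊕ J)) (f : V → G) (g : J → G) :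
    (pls.filter fun x => x.isRight).map (Sum.elim f g) = (rts pls).map g := by
  unfold rts
  induction pls with
  | nil => rfl
  | cons x l ih =>
    rcases x with v | j
    · rw [List.filter_cons_of_neg (by simp), ih]
      rfl
    · rw [List.filter_cons_of_pos (by simp), List.map_cons, ih]
      rfl

theorem sum_split [AddCommMonoid G] (pls : List (V ⊕ J)) (f : V → G) (g : J → G) :
    (pls.map (Sum.elim f g)).sum = ((lfs pls).map f).sum + ((rts pls).map g).sum := by
  unfold rts lfs
  induction pls with
  | nil => simp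
  | cons x l ih =>
    rcases x with v | j
    · rw [List.map_cons, List.sum_cons, ih, Sum.elim_inl]
      show _ = ((v :: l.filterMap Sum.getLeft?).map f).sum + ((l.filterMap Sum.getRight?).map g).sum
      rw [List.map_cons, List.sum_cons, add_assoc]
    · rw [List.map_cons, List.sum_cons, ih, Sum.elim_inr]
      show _ = ((l.filterMap Sum.getLeft?).map f).sum + ((j :: l.filterMap Sum.getRight?).map g).sum
      rw [List.map_cons, List.sum_cons]
      abel

theorem mem_rts {pls : List (V ⊕ J)} {j : J} : j ∈ rts pls ↔ Sum.inr j ∈ pls := by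
  unfold rts
  rw [List.mem_filterMap]
  constructor
  · rintro ⟨x, hx, hj⟩
    rcases x with v | j'
    · exact absurd hj (by simp)
    · have : j' = j := by simpa using hj
      rwa [this] at hx
  · intro h
    exact ⟨_, h, by simp⟩

theorem mem_lfs {pls : List (V ⊕ J)} {v : V} : v ∈ lfs pls ↔ Sum.inl v ∈ pls := by
  unfold lfs
  rw [List.mem_filterMap]
  constructor
  · rintro ⟨x, hx, hj⟩
    rcases x with v' | j
    · have : v' = v := by simpa using hj
      rwa [this] at hx
    · exact absurd hj (by simp)
  · intro h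
    exact ⟨_, h, by simp⟩

theorem rts_nodup {pls : List (V ⊕ J)} (h : pls.Nodup) : (rts pls).Nodup := by
  unfold rts
  refine List.Nodup.filterMap ?_ h
  intro x x' j hx hx'
  rcases x with v | j' <;> rcases x' with v' | j''
  · simp at hx
  · simp at hx
  · simp at hx'
  · simp only [Sum.getRight?_inr, Option.mem_def, Option.some.injEq] at hx hx'
    rw [hx, hx']

/-- sums over the blocks -/
theorem blk_sum {I : Type} [Fintype I] [AddCommMonoid G] (b : I → J) (bl : J → List I)
    (hbn : ∀ j, (bl j).Nodup) (hb : ∀ j i, i ∈ bl j ↔ b i = j) (f : I → G) (js : List J)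
    (hjs : js.Nodup) :
    (js.map fun j => ((bl j).map f).sum).sum = ∑ i ∈ Finset.univ.filter fun i => b i ∈ js, f i := by
  induction js with
  | nil => simp
  | cons j l ih =>
    obtain ⟨h1, h2⟩ := List.nodup_cons.1 hjs
    rw [List.map_cons, List.sum_cons, ih h2]
    have h3 : ((bl j).map f).sum = ∑ i ∈ Finset.univ.filter fun i => b i = j, f i := by
      rw [← List.sum_toFinset f (hbn j)]
      refine Finset.sum_congr ?_ fun _ _ => rfl
      ext i
      rw [List.mem_toFinset, hb, Finset.mem_filter]
      simp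
    rw [h3, ← Finset.sum_union]
    · refine Finset.sum_congr ?_ fun _ _ => rfl
      ext i
      simp only [Finset.mem_union, Finset.mem_filter, Finset.mem_univ, true_and, List.mem_cons]
    · rw [Finset.disjoint_left]
      intro i hi hi'
      rw [Finset.mem_filter] at hi hi'
      exact h1 (hi.2 ▸ hi'.2)

end lists

section main

variable {V I J : Type} {M N A : Type} [AddCommGroup M] [AddCommGroup N] [AddCommGroup A]
  [DistribMulAction (FreeGroup (V ⊕ I)) M] [DistribMulAction (FreeGroup (V ⊕ I)) N]
  {B : N →+ M →+ A}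

/-- the crossed homomorphism of degree one -/
def cz (b : I → J) (s : V → M) (g : I → M) (m : J → M) : FreeGroup (V ⊕ I) → M :=
  chl (Sum.elim s fun i => g i + dm (m (b i)) (la (V := V) i))

theorem cz_ch (b : I → J) (s : V → M) (g : I → M) (m : J → M) : CH (cz b s g m) := chl_ch _

theorem cz_lt (b : I → J) (s : V → M) (g : I → M) (m : J → M) (v : V) :
    cz b s g m (lt v) = s v := chl_of _ _

theorem cz_la (b : I → J) (s : V → M) (g : I → M) (m : J → M) (i : I) :
    cz b s g m (la i) = g i + dm (m (b i)) (la (V := V) i) := chl_of _ _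

theorem cz_add (b : I → J) (s : V → M) (g : I → M) (m : J → M) (x : FreeGroup (V ⊕ I)) :
    cz b s g m x = cz b s g 0 x + cm b m x := by
  have h : cz b s g m = fun x => cz b s g 0 x + cm b m x := by
    refine ch_ext (cz_ch b s g m) ((cz_ch b s g 0).add (cm_ch b m)) ?_
    rintro (v | i)
    · change cz b s g m (lt v) = cz b s g 0 (lt v) + cm b m (lt v)
      rw [cz_lt, cz_lt, cm_lt, add_zero]
    · change cz b s g m (la i) = cz b s g 0 (la i) + cm b m (la i)
      rw [cz_la, cz_la, cm_la]
      simp only [Pi.zero_apply, dm, smul_zero, sub_zero, add_zero]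
  exact congrFun h x

/-- the words of the places -/
def wP (X : V → FreeGroup (V ⊕ I)) (d : I → FreeGroup (V ⊕ I)) (bl : J → List I) :
    V ⊕ J → FreeGroup (V ⊕ I) :=
  Sum.elim (fun v => ⁅(lt v : FreeGroup (V ⊕ I)), X v⁆) fun j => wd la d (bl j)

/-- the sum over the conjugations -/
theorem one_sum [Finite M] [Fintype J] [Fintype (J → M)] [Fintype I]
    (hB : Ivt (FreeGroup (V ⊕ I)) B) (Φ : Fil (FreeGroup (V ⊕ I)) M)
    {k : FreeGroup (V ⊕ I) → N} (hk : CH k) (hkt : ∀ v, k (lt v) = 0)
    (htN : ∀ (v : V) (n : N), lt (I := I) v • n = n) (htM : ∀ (v : V) (m : M), lt (I := I) v • m = m)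
    (X : V → FreeGroup (V ⊕ I)) (d : I → FreeGroup (V ⊕ I)) (pls : List (V ⊕ J))
    (hpls : pls.Nodup) (hJ : ∀ j, Sum.inr j ∈ pls) (bl : J → List I) (hbn : ∀ j, (bl j).Nodup)
    (b : I → J) (hb : ∀ j i, i ∈ bl j ↔ b i = j)
    (hW : ∀ (j : J) (y : M), wd (la (V := V)) d (bl j) • y = y) (Zs : Set V)
    (hrel : ∀ (c : FreeGroup (V ⊕ I) → M) (z : FreeGroup (V ⊕ I) → A), CH c →
      (∀ v, v ∉ Zs → c (lt v) = 0) → Zf B k c z → z (pls.map (wP X d bl)).prod = 0)
    (e : AddChar A ℂ) (hnd : ∀ n : N, n ≠ 0 → ∃ m : M, e (B n m) ≠ 1) (s : V → M)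
    (hs : ∀ v, v ∉ Zs → s v = 0) (g : I → M) :
    ∑ m : J → M, e (∑ i, B (zeta k la d (bl (b i)) i) (cz b s g m (d i) - dm (m (b i)) (d i))) =
      if ∀ j, k (wd la d (bl j)) = 0 then
        (Fintype.card (J → M) : ℂ) * e (((lfs pls).map fun v => B (k (X v)) (X v • s v)).sum -
          ∑ i, B (zet' k la d (bl (b i)) i) (g i))
      else 0 := by
  have hjs : (rts pls).Nodup := rts_nodup hpls
  have hjm : ∀ j, j ∈ rts pls := fun j => mem_rts.2 (hJ j)
  have hsum : ∀ f : I → A, ∑ i, f i = ((rts pls).map fun j => ((bl j).map f).sum).sum := by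
    intro f
    rw [blk_sum b bl hbn hb f _ hjs]
    refine Finset.sum_congr ?_ fun _ _ => rfl
    ext i
    simp only [Finset.mem_univ, Finset.mem_filter, hjm, and_self]
  have hsum' : ∀ f : J → I → A, ∑ i, f (b i) i =
      ((rts pls).map fun j => ((bl j).map (f j)).sum).sum := by
    intro f
    rw [hsum]
    congr 1
    apply List.map_congr_left
    intro j _
    congr 1
    apply List.map_congr_left
    intro i hi
    rw [(hb j i).1 hi]
  -- the relation for `cm`
  have hrel' : ∀ (m : J → M) (z : FreeGroup (V ⊕ I) → A), Zf B k (cm b m) z →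
      z ((([] : List V).map fun v => ⁅lt (I := I) v, X v⁆).prod *
        ((rts pls).map fun j => wd la d (bl j)).prod) = 0 := by
    intro m z hz
    have h1 := hrel (cm b m) z (cm_ch b m) (fun v _ => cm_lt b m v) hz
    have h2 := (zf_mix hz (cm_ch b m) (wP X d bl) (fun x => x.isRight) pls (by
      rintro (v | j) _ hq
      · obtain ⟨h3, h4⟩ := zf_triv hB hz hk (cm_ch b m) (lt v) (X v) (hkt v) (cm_lt b m v) (htN v)
        have hti : ∀ n : M, (lt (I := I) v)⁻¹ • n = n := fun n => by
          conv_lhs => rw [← htM v n]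
          rw [inv_smul_smul]
        have h5 : ∀ y : M, ⁅lt (I := I) v, X v⁆ • y = y := by
          intro y
          rw [commutatorElement_def, mul_smul, mul_smul, mul_smul, htM, hti, smul_inv_smul]
        refine ⟨h3, ?_, h4, h5⟩
        show cm b m ⁅lt (I := I) v, X v⁆ = 0
        rw [(cm_ch b m).comm, cm_lt, smul_zero, htM, h5]
        abel
      · simp at hq)).2
    rw [h1] at h2
    rw [List.map_nil, List.prod_nil, one_mul, h2]
    unfold wP
    rw [rts_map]
  have hE : ∀ m : J → M, ∑ i, B (zeta k la d (bl (b i)) i)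
      (cz b s g m (d i) - dm (m (b i)) (d i)) =
      ∑ i, B (zeta k la d (bl (b i)) i) (cz b s g 0 (d i)) +
        ((rts pls).map fun j => ((bl j).map fun i =>
          B (zeta k la d (bl j) i) (cm b m (d i) - dm (m j) (d i))).sum).sum := by
    intro m
    rw [← hsum' fun j i => B (zeta k la d (bl j) i) (cm b m (d i) - dm (m j) (d i)),
      ← Finset.sum_add_distrib]
    refine Finset.sum_congr rfl fun i _ => ?_
    rw [cz_add, ← map_add]
    congr 1
    abel
  simp_rw [hE, AddChar.map_add_eq_mul]
  rw [← Finset.mul_sum]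
  split_ifs with hh
  · -- honest
    have h0 : ∀ m : J → M, ((rts pls).map fun j => ((bl j).map fun i =>
        B (zeta k la d (bl j) i) (cm b m (d i) - dm (m j) (d i))).sum).sum = 0 := by
      intro m
      obtain ⟨z, hz, -⟩ := zf_exists hB hk (cm_ch (V := V) b m) (fun _ => (0 : A))
      rw [tav_eq hB hz hk (cm_ch b m) ([] : List V) lt X (fun v hv => by simp at hv) la d
        (rts pls) hjs bl (fun j _ => hbn j) m
        (fun j _ i hi => by rw [cm_la, (hb j i).1 hi]) (fun j _ => hW j) (hrel' m z hz)]
      refine List.sum_eq_zero ?_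
      intro x hx
      obtain ⟨j, -, rfl⟩ := List.mem_map.1 hx
      rw [hh j, map_zero, AddMonoidHom.zero_apply]
    simp_rw [h0, AddChar.map_zero_eq_one]
    rw [Finset.sum_const, Finset.card_univ, nsmul_eq_mul, mul_one, mul_comm]
    congr 2
    -- the phase
    obtain ⟨z, hz, -⟩ := zf_exists hB hk (cz_ch b s g 0) (fun _ => (0 : A))
    have h1 := hrel (cz b s g 0) z (cz_ch b s g 0) (fun v hv => by rw [cz_lt, hs v hv]) hz
    have h2 := (zf_hon hz hk (wP X d bl) pls (by
      rintro (v | j) _
      · exact (zf_tx hB hz hk (cz_ch b s g 0) (lt v) (X v) (hkt v) (htN v)).1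
      · exact hh j)).2
    have h3 : (fun x => z (wP X d bl x)) =
        Sum.elim (fun v => -B (k (X v)) (X v • s v)) fun j => ((bl j).map fun i =>
          B (zeta k la d (bl j) i) (cz b s g 0 (d i)) +
            B (zet' k la d (bl j) i) (g i)).sum := by
      funext x
      rcases x with v | j
      · show z ⁅lt (I := I) v, X v⁆ = -B (k (X v)) (X v • s v)
        rw [(zf_tx hB hz hk (cz_ch b s g 0) (lt v) (X v) (hkt v) (htN v)).2, cz_lt]
      · show z (wd la d (bl j)) = _
        rw [zf_wd2 hB hz hk (cz_ch b s g 0) la d (bl j) (hbn j)]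
        show _ = ((bl j).map fun i => _).sum
        congr 1
        apply List.map_congr_left
        intro i _
        rw [cz_la]
        simp only [Pi.zero_apply, dm, smul_zero, sub_zero, add_zero]
    rw [h1, h3, sum_split, ← hsum' fun j i => B (zeta k la d (bl j) i) (cz b s g 0 (d i)) +
      B (zet' k la d (bl j) i) (g i), Finset.sum_add_distrib] at h2
    have h4 : ((lfs pls).map fun v => -B (k (X v)) (X v • s v)).sum =
        -((lfs pls).map fun v => B (k (X v)) (X v • s v)).sum := by
      induction (lfs pls) with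
      | nil => simp
      | cons v l ih =>
        rw [List.map_cons, List.sum_cons, ih, List.map_cons, List.sum_cons, neg_add]
    rw [h4] at h2
    have h5 := h2.symm
    rw [neg_add_eq_zero] at h5
    rw [h5]
    abel
  · -- dishonest
    push Not at hh
    obtain ⟨j₀, hj₀⟩ := hh
    rw [tav hB Φ hk ([] : List V) X (fun v hv => by simp at hv) d (rts pls) hjs bl
      (fun j _ => hbn j) b (fun j _ i hi => (hb j i).1 hi) (fun j _ => hW j) hrel' e hnd j₀
      (hjm j₀) hj₀, mul_zero]

end main

end H71.S3
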