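import Pool.Agent.H71.S3.Onc

/-!
# [H71 S3 TRF] averaging over the conjugations, unified letters

`J` the letters, `W` the places, `pj` the place of a letter, `bl v` the letters of the place `v`, `bd` the bad letters, `bw` the bad places, `d j` the words, `l` the list of the
places (any order). At a good place `v ∈ l` there is one letter, which is not bad.
* `exb`: extension by `0`. `zinjU`, `zbijU`: the `ζ_j` of the crossed homomorphisms which vanish at the letters which are not bad.
* `cV g m`: the crossed homomorphism with values `g j + (1 - j) m_(pj j)` (`j` bad), `g j` (`j` not bad).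
* `avU`: the sum over `m` of `e (∑_j B (ζ_j) (c (d j) - (1 - d j) m))`.
-/

set_option autoImplicit false

open scoped commutatorElement
open scoped Classical

noncomputable section

namespace H71.S3

open H1.S3

section ext

variable {G N : Type} [AddCommGroup N]

/-- extension by zero -/
def exb (q : G → Prop) (f : {j // q j} → N) (j : G) : N := if h : q j then f ⟨j, h⟩ else 0

theorem exb_of (q : G → Prop) (f : {j // q j} → N) (j : {j // q j}) : exb q f j.1 = f j := by
  unfold exb
  rw [dif_pos j.2]

theorem exb_no (q : G → Prop) (f : {j // q j} → N) {j : G} (h : ¬ q j) : exb q f j = 0 := by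
  unfold exb
  rw [dif_neg h]

theorem exb_sub (q : G → Prop) (f f' : {j // q j} → N) (j : G) :
    exb q (f - f') j = exb q f j - exb q f' j := by
  unfold exb
  split_ifs
  · rfl
  · rw [sub_zero]

end ext

section zet

variable {J N : Type} [AddCommGroup N] [DistribMulAction (FreeGroup J) N]

theorem zinjU (Φ : Fil (FreeGroup J) N) {k : FreeGroup J → N} (hk : CH k) (bd : J → Prop)
    (hV : ∀ j, ¬ bd j → k (FreeGroup.of j) = 0) (d : J → FreeGroup J) (bl : J → List J)
    (hz : ∀ j, bd j → zeta k FreeGroup.of d (bl j) j = 0) (x : FreeGroup J) : k x = 0 := by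
  have key : ∀ r, ∀ j, k (FreeGroup.of j) ∈ Φ.G r := by
    intro r
    induction r with
    | zero =>
      intro j
      rw [Φ.top]
      exact AddSubgroup.mem_top _
    | succ r ih =>
      intro j
      by_cases hj : bd j
      · have h1 : ∀ x, k x ∈ Φ.G r := ch_mem hk (Φ.G r) (fun x n hn => Φ.stab r x n hn) ih
        have h2 := zeta_lead Φ hk r h1 FreeGroup.of d (bl j) j
        rw [hz j hj, zero_sub] at h2
        exact (AddSubgroup.neg_mem_iff _).mp h2
      · rw [hV j hj]
        exact AddSubgroup.zero_mem _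
  have h1 := ch_mem hk (Φ.G Φ.len) (fun x n hn => Φ.stab _ x n hn) (key _) x
  rw [Φ.bot, AddSubgroup.mem_bot] at h1
  exact h1

/-- (3.4), unified letters -/
theorem zbijU [Finite N] (bd : J → Prop) [Finite {j // bd j}] (Φ : Fil (FreeGroup J) N)
    (d : J → FreeGroup J) (bl : J → List J) :
    Function.Bijective (fun (f : {j // bd j} → N) (j : {j // bd j}) =>
      zeta (chl (exb bd f)) FreeGroup.of d (bl j) j.1) := by
  refine Finite.injective_iff_bijective.mp ?_
  intro f f' h
  have h2 : exb bd (f - f') = exb bd f - exb bd f' := funext fun j => exb_sub bd f f' j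
  have h1 : ∀ j, bd j → zeta (chl (exb bd (f - f'))) FreeGroup.of d (bl j) j = 0 := by
    intro j hj
    rw [h2, chl_sub, zeta_sub, sub_eq_zero]
    exact congrFun h ⟨j, hj⟩
  funext j
  have h3 := zinjU Φ (chl_ch _) bd (fun j hj => by rw [chl_of, exb_no bd _ hj]) d bl h1
    (FreeGroup.of j.1)
  rw [chl_of, exb_of] at h3
  exact sub_eq_zero.mp h3

end zet

section cv

variable {J W M : Type} [AddCommGroup M] [DistribMulAction (FreeGroup J) M]

/-- the crossed homomorphism -/
def cV (bd : J → Prop) (bw : W → Prop) (pj : J → W) (g : J → M) (m : {v // bw v} → M) :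
    FreeGroup J → M :=
  chl fun j => g j + if bd j then dm (exb bw m (pj j)) (FreeGroup.of j) else 0

variable (bd : J → Prop) (bw : W → Prop) (pj : J → W)

theorem cv_ch (g : J → M) (m : {v // bw v} → M) : CH (cV bd bw pj g m) := chl_ch _

theorem cv_of (g : J → M) (m : {v // bw v} → M) (j : J) : cV bd bw pj g m (FreeGroup.of j) =
    g j + if bd j then dm (exb bw m (pj j)) (FreeGroup.of j) else 0 := chl_of _ _

theorem exb_zero (q : W → Prop) (j : W) : exb q (0 : {j // q j} → M) j = 0 := by
  unfold exb
  split_ifs <;> rfl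

theorem cv_add (g : J → M) (m : {v // bw v} → M) (x : FreeGroup J) :
    cV bd bw pj g m x = cV bd bw pj g 0 x + cV bd bw pj 0 m x := by
  have h : cV bd bw pj g m = fun x => cV bd bw pj g 0 x + cV bd bw pj 0 m x := by
    refine ch_ext (cv_ch bd bw pj g m) ((cv_ch bd bw pj g 0).add (cv_ch bd bw pj 0 m)) ?_
    intro j
    rw [cv_of, cv_of, cv_of, exb_zero]
    simp only [dm, smul_zero, sub_zero, ite_self, add_zero, Pi.zero_apply, zero_add]
  exact congrFun h x

theorem cv_sub (m m' : {v // bw v} → M) (x : FreeGroup J) :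
    cV bd bw pj 0 (m - m') x = cV bd bw pj 0 m x - cV bd bw pj 0 m' x := by
  have h : cV bd bw pj 0 (m - m') = fun x => cV bd bw pj 0 m x - cV bd bw pj 0 m' x := by
    refine ch_ext (cv_ch bd bw pj 0 _) ((cv_ch bd bw pj 0 m).sub (cv_ch bd bw pj 0 m')) ?_
    intro j
    rw [cv_of, cv_of, cv_of, exb_sub]
    by_cases hj : bd j
    · rw [if_pos hj, if_pos hj, if_pos hj]
      simp only [dm, smul_sub, Pi.zero_apply, zero_add]
      abel
    · rw [if_neg hj, if_neg hj, if_neg hj, add_zero, Pi.zero_apply, sub_zero]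
  exact congrFun h x

theorem cv_mem (Φ : Fil (FreeGroup J) M) (m : {v // bw v} → M) (r : ℕ)
    (h : ∀ v, m v ∈ Φ.G r) (x : FreeGroup J) : cV bd bw pj 0 m x ∈ Φ.G (r + 1) := by
  refine ch_mem (cv_ch bd bw pj 0 m) _ (fun x n hn => Φ.stab _ x n hn) ?_ x
  intro j
  rw [cv_of, Pi.zero_apply, zero_add]
  split_ifs with hj
  · have h0 : exb bw m (pj j) ∈ Φ.G r := by
      unfold exb
      split_ifs
      · exact h _
      · exact AddSubgroup.zero_mem _
    have h1 := Φ.step r (FreeGroup.of j) _ h0
    have h2 := (Φ.G (r + 1)).neg_mem h1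
    rw [neg_sub] at h2
    exact h2
  · exact AddSubgroup.zero_mem _

/-- the substitution -/
def TmU (js : List W) (w : W → FreeGroup J) (m : {v // bw v} → M) (v : {v // bw v}) : M :=
  m v - ((aft js v.1).map fun i => cV bd bw pj 0 m (w i)).sum

theorem tmU_bij [Finite M] [Finite {v // bw v}] (Φ : Fil (FreeGroup J) M) (js : List W)
    (w : W → FreeGroup J) : Function.Bijective (TmU (M := M) bd bw pj js w) := by
  refine Finite.injective_iff_bijective.mp ?_
  intro m m' h
  have h1 : ∀ v, (m - m') v =
      ((aft js v.1).map fun i => cV bd bw pj 0 (m - m') (w i)).sum := by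
    intro v
    have h2 := congrFun h v
    simp only [TmU] at h2
    have h3 : ∀ l : List W, (l.map fun i => cV bd bw pj 0 (m - m') (w i)).sum =
        (l.map fun i => cV bd bw pj 0 m (w i)).sum -
          (l.map fun i => cV bd bw pj 0 m' (w i)).sum := by
      intro l
      induction l with
      | nil => simp
      | cons i l ih =>
        rw [List.map_cons, List.sum_cons, ih, List.map_cons, List.sum_cons, List.map_cons,
          List.sum_cons, cv_sub]
        abel
    rw [h3, Pi.sub_apply, sub_eq_sub_iff_add_eq_add]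
    rw [sub_eq_sub_iff_add_eq_add] at h2
    rw [h2]
    abel
  have key : ∀ r, ∀ v, (m - m') v ∈ Φ.G r := by
    intro r
    induction r with
    | zero =>
      intro v
      rw [Φ.top]
      exact AddSubgroup.mem_top _
    | succ r ih =>
      intro v
      rw [h1 v]
      refine AddSubgroup.list_sum_mem _ ?_
      intro y hy
      obtain ⟨i, -, rfl⟩ := List.mem_map.mp hy
      exact cv_mem bd bw pj Φ _ r ih _
  funext v
  have h2 := key Φ.len v
  rw [Φ.bot, AddSubgroup.mem_bot, Pi.sub_apply] at h2
  exact sub_eq_zero.mp h2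

end cv

/-- the sum over the bad letters, by blocks -/
theorem bd_sum {J W G : Type} [AddCommMonoid G] (bd : J → Prop) [Fintype {j // bd j}]
    (pj : J → W) (bl : W → List J) (js : List W) (hjs : js.Nodup)
    (hbn : ∀ v ∈ js, (bl v).Nodup)
    (hb : ∀ v ∈ js, ∀ j, j ∈ bl v ↔ pj j = v ∧ bd j) (hall : ∀ j, bd j → pj j ∈ js)
    (f : J → G) : (js.map fun v => ((bl v).map f).sum).sum = ∑ j : {j // bd j}, f j.1 := by
  have key : ∀ ks : List W, ks.Nodup → (∀ v ∈ ks, v ∈ js) →
      (ks.map fun v => ((bl v).map f).sum).sum =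
        ∑ j ∈ Finset.univ.filter fun j : {j // bd j} => pj j.1 ∈ ks, f j.1 := by
    intro ks
    induction ks with
    | nil => intro _ _; simp
    | cons v l ih =>
      intro h1 h2
      obtain ⟨h3, h4⟩ := List.nodup_cons.1 h1
      rw [List.map_cons, List.sum_cons, ih h4 fun i hi => h2 i (List.mem_cons_of_mem _ hi)]
      have h5 : ((bl v).map f).sum = ∑ j ∈ Finset.univ.filter fun j : {j // bd j} => pj j.1 = v,
          f j.1 := by
        rw [← List.sum_toFinset f (hbn v (h2 v List.mem_cons_self))]
        symm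
        refine Finset.sum_bij (fun j _ => j.1) ?_ ?_ ?_ ?_
        · intro j hj
          rw [Finset.mem_filter] at hj
          rw [List.mem_toFinset, hb v (h2 v List.mem_cons_self)]
          exact ⟨hj.2, j.2⟩
        · intro j _ j' _ h
          exact Subtype.ext h
        · intro j hj
          rw [List.mem_toFinset, hb v (h2 v List.mem_cons_self)] at hj
          exact ⟨⟨j, hj.2⟩, by rw [Finset.mem_filter]; exact ⟨Finset.mem_univ _, hj.1⟩, rfl⟩
        · intro j _
          rfl
      rw [h5, ← Finset.sum_union]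
      · refine Finset.sum_congr ?_ fun _ _ => rfl
        ext j
        simp only [Finset.mem_union, Finset.mem_filter, Finset.mem_univ, true_and, List.mem_cons]
      · rw [Finset.disjoint_left]
        intro j hj hj'
        rw [Finset.mem_filter] at hj hj'
        exact h3 (hj.2 ▸ hj'.2)
  rw [key js hjs fun _ h => h]
  refine Finset.sum_congr ?_ fun _ _ => rfl
  ext j
  simp only [Finset.mem_filter, Finset.mem_univ, true_and, iff_true]
  exact hall j.1 j.2

section main

variable {J W : Type} {M N A : Type} [AddCommGroup M] [AddCommGroup N] [AddCommGroup A]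
  [DistribMulAction (FreeGroup J) M] [DistribMulAction (FreeGroup J) N] {B : N →+ M →+ A}

/-- the frame: letters, places, words -/
structure Frm (bd : J → Prop) (bw : W → Prop) (pj : J → W) (bl : W → List J) (l : List W) :
    Prop where
  nd : l.Nodup
  bn : ∀ v, bw v → (bl v).Nodup
  bdw : ∀ j, bd j → bw (pj j)
  bwl : ∀ v, bw v → v ∈ l
  mem : ∀ v, bw v → ∀ j, j ∈ bl v ↔ pj j = v ∧ bd j
  good : ∀ v ∈ l, ¬ bw v → ∀ j ∈ bl v, ¬ bd j

/-- linear forms of the top coefficients -/
theorem lin_sum {Wb : Type} [Fintype Wb] [Fintype (Wb → M)] (e : AddChar A ℂ) (β : Wb → M →+ A)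
    (h : ∃ v m, e (β v m) ≠ 1) : ∑ m : Wb → M, e (∑ v, β v (m v)) = 0 := by
  set L : (Wb → M) →+ A :=
    { toFun := fun m => ∑ v, β v (m v)
      map_zero' := by simp
      map_add' := fun m m' => by simp [Finset.sum_add_distrib] } with hL
  have h3 : e.compAddMonoidHom L ≠ 0 := by
    obtain ⟨v₀, m₀, hm₀⟩ := h
    intro h
    apply hm₀
    have h4 : L (Pi.single v₀ m₀) = β v₀ m₀ := by
      rw [hL]
      show ∑ v, β v ((Pi.single v₀ m₀ : Wb → M) v) = _
      rw [Finset.sum_eq_single v₀]
      · rw [Pi.single_eq_same]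
      · intro v _ hv
        rw [Pi.single_eq_of_ne hv, map_zero]
      · intro hv
        exact absurd (Finset.mem_univ _) hv
    have h7 : e (L (Pi.single v₀ m₀)) = 1 := by
      have := DFunLike.congr_fun h (Pi.single v₀ m₀)
      rwa [AddChar.compAddMonoidHom_apply, AddChar.zero_apply] at this
    rw [← h4]
    exact h7
  exact AddChar.sum_eq_zero_iff_ne_zero.mpr h3

/-- THE AVERAGING, general form -/
theorem avU [Finite M] (bd : J → Prop) (bw : W → Prop) (pj : J → W) [Fintype {j // bd j}]
    [Fintype {v // bw v}] [Fintype ({v // bw v} → M)] (bl : W → List J) (l : List W)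
    (hf : Frm bd bw pj bl l) (hB : Ivt (FreeGroup J) B) (Φ : Fil (FreeGroup J) M)
    {k : FreeGroup J → N} (hk : CH k) (hkt : ∀ j, ¬ bd j → k (FreeGroup.of j) = 0)
    (htN : ∀ j, ¬ bd j → ∀ n : N, (FreeGroup.of j : FreeGroup J) • n = n)
    (htM : ∀ j, ¬ bd j → ∀ m : M, (FreeGroup.of j : FreeGroup J) • m = m)
    (d : J → FreeGroup J)
    (hW : ∀ v, bw v → ∀ y : M, wd FreeGroup.of d (bl v) • y = y) (ok : J → Prop)
    (hok : ∀ j, bd j → ok j)
    (hrel : ∀ (c : FreeGroup J → M) (z : FreeGroup J → A), CH c →
      (∀ j, ¬ ok j → c (FreeGroup.of j) = 0) → Zf B k c z → (∀ j, z (FreeGroup.of j) = 0) →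
      z (l.map fun v => wd FreeGroup.of d (bl v)).prod = 0)
    (e : AddChar A ℂ) (hnd : ∀ n : N, n ≠ 0 → ∃ m : M, e (B n m) ≠ 1) (g : J → M)
    (hg : ∀ j, ¬ ok j → g j = 0) :
    ∑ m : {v // bw v} → M, e (∑ j : {j // bd j}, B (zeta k FreeGroup.of d (bl (pj j.1)) j.1)
        (cV bd bw pj g m (d j.1) - dm (exb bw m (pj j.1)) (d j.1))) =
      if ∀ v, bw v → k (wd FreeGroup.of d (bl v)) = 0 then
        (Fintype.card ({v // bw v} → M) : ℂ) *
          e (((l.filter fun v => ¬ bw v).map fun v =>
            ((bl v).map fun j => B (k (d j)) (d j • g j)).sum).sum -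
            ∑ j : {j // bd j}, B (zet' k FreeGroup.of d (bl (pj j.1)) j.1) (g j.1))
      else 0 := by
  set js : List W := l.filter fun v => bw v with hjsdef
  have hjs : js.Nodup := hf.nd.filter _
  have hjm : ∀ v, v ∈ js ↔ bw v := fun v => by
    rw [hjsdef, List.mem_filter]
    constructor
    · rintro ⟨-, h⟩
      simpa using h
    · intro h
      exact ⟨hf.bwl v h, by simpa using h⟩
  have hsum : ∀ f : J → A, ∑ j : {j // bd j}, f j.1 = (js.map fun v => ((bl v).map f).sum).sum :=
    fun f => (bd_sum bd pj bl js hjs (fun v hv => hf.bn v ((hjm v).1 hv))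
      (fun v hv => hf.mem v ((hjm v).1 hv))
      (fun j hj => (hjm _).2 (hf.bdw j hj)) f).symm
  have hsum' : ∀ f : W → J → A, ∑ j : {j // bd j}, f (pj j.1) j.1 =
      (js.map fun v => ((bl v).map (f v)).sum).sum := by
    intro f
    rw [hsum fun j => f (pj j) j]
    congr 1
    apply List.map_congr_left
    intro v hv
    congr 1
    apply List.map_congr_left
    intro j hj
    rw [((hf.mem v ((hjm v).1 hv) j).1 hj).1]
  have hcm0 : ∀ (m : {v // bw v} → M) j, ¬ bd j → cV bd bw pj 0 m (FreeGroup.of j) = 0 := by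
    intro m j hj
    rw [cv_of, if_neg hj, add_zero, Pi.zero_apply]
  -- the relation for `cV 0 m`
  have hrel' : ∀ (m : {v // bw v} → M) (z : FreeGroup J → A), Zf B k (cV bd bw pj 0 m) z →
      (∀ j, z (FreeGroup.of j) = 0) →
      z ((([] : List J).map fun v => ⁅(FreeGroup.of v : FreeGroup J), d v⁆).prod *
        (js.map fun v => wd FreeGroup.of d (bl v)).prod) = 0 := by
    intro m z hz hz0
    have h1 := hrel (cV bd bw pj 0 m) z (cv_ch bd bw pj 0 m)
      (fun j hj => hcm0 m j fun h => hj (hok j h)) hz hz0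
    have h2 := (zf_mix hz (cv_ch bd bw pj 0 m) (fun v => wd FreeGroup.of d (bl v))
      (fun v => decide (bw v)) l (by
      intro v hv hq
      have hq' : ¬ bw v := by simpa using hq
      exact zf_tr0 hB hz hk (cv_ch bd bw pj 0 m) FreeGroup.of d (bl v) fun j hj =>
        ⟨hkt j (hf.good v hv hq' j hj), hcm0 m j (hf.good v hv hq' j hj),
          htN j (hf.good v hv hq' j hj), htM j (hf.good v hv hq' j hj)⟩)).2
    rw [h1] at h2
    rw [List.map_nil, List.prod_nil, one_mul, h2]
  have hcla : ∀ (m : {v // bw v} → M), ∀ v ∈ js, ∀ j ∈ bl v,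
      cV bd bw pj 0 m (FreeGroup.of j) = dm (exb bw m v) (FreeGroup.of j) := by
    intro m v hv j hj
    have h1 := (hf.mem v ((hjm v).1 hv) j).1 hj
    rw [cv_of, if_pos h1.2, h1.1, Pi.zero_apply, zero_add]
  -- the linear form
  have htav : ∀ m : {v // bw v} → M, (js.map fun v => ((bl v).map fun j =>
      B (zeta k FreeGroup.of d (bl v) j) (cV bd bw pj 0 m (d j) - dm (exb bw m v) (d j))).sum).sum =
      (js.map fun v => B (k (wd FreeGroup.of d (bl v)))
        (exb bw m v - ((aft js v).map fun i =>
          cV bd bw pj 0 m (wd FreeGroup.of d (bl i))).sum)).sum := by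
    intro m
    obtain ⟨z, hz, hz0⟩ := zf_exists hB hk (cv_ch bd bw pj (0 : J → M) m) (fun _ => (0 : A))
    exact tav_eq hB hz hk (cv_ch bd bw pj 0 m) ([] : List J) FreeGroup.of d
      (fun v hv => by simp at hv) FreeGroup.of d js hjs bl (fun v hv => hf.bn v ((hjm v).1 hv))
      (exb bw m) (hcla m) (fun v hv => hW v ((hjm v).1 hv)) (hrel' m z hz hz0)
  have hE : ∀ m : {v // bw v} → M, ∑ j : {j // bd j},
      B (zeta k FreeGroup.of d (bl (pj j.1)) j.1)
        (cV bd bw pj g m (d j.1) - dm (exb bw m (pj j.1)) (d j.1)) =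
      ∑ j : {j // bd j}, B (zeta k FreeGroup.of d (bl (pj j.1)) j.1) (cV bd bw pj g 0 (d j.1)) +
        (js.map fun v => B (k (wd FreeGroup.of d (bl v)))
        (exb bw m v - ((aft js v).map fun i =>
          cV bd bw pj 0 m (wd FreeGroup.of d (bl i))).sum)).sum := by
    intro m
    rw [← htav, ← hsum' fun v j => B (zeta k FreeGroup.of d (bl v) j)
      (cV bd bw pj 0 m (d j) - dm (exb bw m v) (d j)), ← Finset.sum_add_distrib]
    refine Finset.sum_congr rfl fun j _ => ?_
    rw [cv_add, ← map_add]
    congr 1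
    abel
  simp_rw [hE, AddChar.map_add_eq_mul]
  rw [← Finset.mul_sum]
  split_ifs with hh
  · -- honest
    have h0 : ∀ m : {v // bw v} → M, (js.map fun v => B (k (wd FreeGroup.of d (bl v)))
        (exb bw m v - ((aft js v).map fun i =>
          cV bd bw pj 0 m (wd FreeGroup.of d (bl i))).sum)).sum = 0 := by
      intro m
      refine List.sum_eq_zero ?_
      intro x hx
      obtain ⟨v, hv, rfl⟩ := List.mem_map.1 hx
      rw [hh v ((hjm v).1 hv), map_zero, AddMonoidHom.zero_apply]
    simp_rw [h0, AddChar.map_zero_eq_one]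
    rw [Finset.sum_const, Finset.card_univ, nsmul_eq_mul, mul_one, mul_comm]
    congr 2
    -- the phase
    obtain ⟨z, hz, hz0⟩ := zf_exists hB hk (cv_ch bd bw pj g (0 : {v // bw v} → M))
      (fun _ => (0 : A))
    have hc0 := cv_ch bd bw pj g (0 : {v // bw v} → M)
    have hc0v : ∀ j, cV bd bw pj g (0 : {v // bw v} → M) (FreeGroup.of j) = g j := by
      intro j
      rw [cv_of, exb_zero]
      simp only [dm, smul_zero, sub_zero, ite_self, add_zero]
    have h1 := hrel (cV bd bw pj g 0) z hc0 (fun j hj => by rw [hc0v, hg j hj]) hz hz0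
    have h2 := (zf_hon hz hk (fun v => wd FreeGroup.of d (bl v)) l (by
      intro v hv
      by_cases hq : bw v
      · exact hh v hq
      · exact (zf_txl hB hz hk hc0 FreeGroup.of d (bl v) fun j hj =>
          ⟨hkt j (hf.good v hv hq j hj), htN j (hf.good v hv hq j hj)⟩).1)).2
    rw [h1] at h2
    have h3 : ∀ ks : List W, (∀ v ∈ ks, v ∈ l) →
        (ks.map fun v => z (wd FreeGroup.of d (bl v))).sum =
        ((ks.filter fun v => bw v).map fun v => ((bl v).map fun j =>
          B (zeta k FreeGroup.of d (bl v) j) (cV bd bw pj g 0 (d j)) +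
            B (zet' k FreeGroup.of d (bl v) j) (g j)).sum).sum -
        ((ks.filter fun v => ¬ bw v).map fun v =>
            ((bl v).map fun j => B (k (d j)) (d j • g j)).sum).sum := by
      intro ks
      induction ks with
      | nil => intro _; simp
      | cons v ks ih =>
        intro hks
        have ih' := ih fun i hi => hks i (List.mem_cons_of_mem _ hi)
        rw [List.map_cons, List.sum_cons, ih']
        by_cases hq : bw v
        · rw [List.filter_cons_of_pos (by simpa using hq),
            List.filter_cons_of_neg (by simpa using hq), List.map_cons, List.sum_cons,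
            zf_wd2 hB hz hk hc0 FreeGroup.of d (bl v) (hf.bn v hq)]
          simp only [hc0v]
          abel
        · have hgo := hf.good v (hks v List.mem_cons_self) hq
          rw [List.filter_cons_of_neg (by simpa using hq),
            List.filter_cons_of_pos (by simpa using hq), List.map_cons, List.sum_cons]
          have h5 : z (wd FreeGroup.of d (bl v)) =
              -((bl v).map fun j => B (k (d j)) (d j • g j)).sum := by
            rw [(zf_txl hB hz hk hc0 FreeGroup.of d (bl v) fun j hj =>
              ⟨hkt j (hgo j hj), htN j (hgo j hj)⟩).2]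
            simp only [hc0v]
          rw [h5]
          abel
    rw [h3 l fun _ h => h, ← hjsdef, ← hsum' fun v j =>
      B (zeta k FreeGroup.of d (bl v) j) (cV bd bw pj g 0 (d j)) +
        B (zet' k FreeGroup.of d (bl v) j) (g j), Finset.sum_add_distrib] at h2
    have h5 := h2.symm
    rw [sub_eq_zero] at h5
    rw [← h5]
    abel
  · -- dishonest
    push Not at hh
    obtain ⟨v₀, hv₀, hkv⟩ := hh
    set T : ({v // bw v} → M) ≃ ({v // bw v} → M) := Equiv.ofBijective _
      (tmU_bij (M := M) bd bw pj Φ js fun v => wd FreeGroup.of d (bl v)) with hT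
    have h2 : ∀ m : {v // bw v} → M, (js.map fun v => B (k (wd FreeGroup.of d (bl v)))
        (exb bw m v - ((aft js v).map fun i =>
          cV bd bw pj 0 m (wd FreeGroup.of d (bl i))).sum)).sum =
        ∑ v : {v // bw v}, B (k (wd FreeGroup.of d (bl v.1))) (T m v) := by
      intro m
      have h3 : ∀ v : {v // bw v}, T m v = exb bw m v.1 - ((aft js v.1).map fun i =>
          cV bd bw pj 0 m (wd FreeGroup.of d (bl i))).sum := by
        intro v
        rw [exb_of]
        rfl
      simp_rw [h3]
      have h4 := bd_sum bw (fun v : W => v) (fun v => [v]) js hjs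
        (fun v _ => List.nodup_singleton v) (fun v hv j => by
          rw [List.mem_singleton]
          exact ⟨fun h => ⟨h, h ▸ (hjm v).1 hv⟩, fun h => h.1⟩)
        (fun v hv => (hjm v).2 hv) (fun v => B (k (wd FreeGroup.of d (bl v)))
        (exb bw m v - ((aft js v).map fun i =>
          cV bd bw pj 0 m (wd FreeGroup.of d (bl i))).sum))
      rw [← h4]
      congr 1
      apply List.map_congr_left
      intro v _
      rw [List.map_cons, List.map_nil, List.sum_cons, List.sum_nil, add_zero]
    simp_rw [h2]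
    rw [T.sum_comp fun m : {v // bw v} → M =>
      e (∑ v : {v // bw v}, B (k (wd FreeGroup.of d (bl v.1))) (m v))]
    obtain ⟨m₀, hm₀⟩ := hnd _ hkv
    rw [lin_sum e (fun v : {v // bw v} => B (k (wd FreeGroup.of d (bl v.1))))
      ⟨⟨v₀, hv₀⟩, m₀, hm₀⟩, mul_zero]

end main

end H71.S3
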