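import Pool.Agent.H1.S3.Tav

/-!
# [H71 S3 ZWD] the pairing function on a block, both parts; the relation in a mixed order

* `zet' k a d l i = k ((p ⁅a i, d i⁆ d i)⁻¹) - k (p⁻¹)`, `p` the product of the commutators before `i`.
* `zf_wd2`: `z (W) = ∑ B (ζ_i) (c (d i)) + B (ζ'_i) (c (a i))`.
* `zf_tx`: `z ⁅t, x⁆ = - B (k x) (x c(t))` if `t` acts trivially and `k t = 0`.
* `zf_hon`: for `k (w j) = 0` for all `j`: `z` of the product is the sum of the `z (w j)`.
* `zf_mix`: places with `z = 0`, `k = 0`, `c = 0` can be left out.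
-/

set_option autoImplicit false

open scoped commutatorElement

noncomputable section

namespace H71.S3

open H1.S3

section zet

variable {F : Type} [Group F] {M N A : Type} [AddCommGroup M] [AddCommGroup N] [AddCommGroup A]
  [DistribMulAction F M] [DistribMulAction F N] {B : N →+ M →+ A}

/-- `ζ'_i` -/
def zet' {I : Type} (k : F → N) (a d : I → F) (l : List I) (i : I) : N :=
  k ((wd a d (pre l i) * ⁅a i, d i⁆ * d i)⁻¹) - k ((wd a d (pre l i))⁻¹)

/-- one step, both parts -/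
theorem zf_step2 (hB : Ivt F B) {k : F → N} {c : F → M} {z : F → A} (hz : Zf B k c z)
    (hk : CH k) (hc : CH c) (p x y : F) :
    z (p * ⁅x, y⁆) = z p + (B (k ((p * ⁅x, y⁆)⁻¹) - k ((p * x)⁻¹)) (c y) +
      B (k ((p * ⁅x, y⁆ * y)⁻¹) - k (p⁻¹)) (c x)) := by
  have h1 : c ⁅x, y⁆ = c x + x • c y - (x * y * x⁻¹) • c x - ⁅x, y⁆ • c y := hc.comm x y
  have h2 : c (y * x) = c y + y • c x := hc y x
  have h0 : ⁅x, y⁆ * y = x * y * x⁻¹ := by
    rw [commutatorElement_def]
    group
  rw [hz, zf_comm hB hz hk hc, h2, h1]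
  have e1 : k ((p * ⁅x, y⁆)⁻¹) = -(⁅x, y⁆⁻¹ • k ⁅x, y⁆) - (p * ⁅x, y⁆)⁻¹ • k p := by
    rw [hk.inv, hk, smul_add, smul_smul, mul_inv_rev, mul_assoc, inv_mul_cancel, mul_one]
    abel
  have e2 : k ((p * x)⁻¹) = -(x⁻¹ • k x) - (p * x)⁻¹ • k p := by
    rw [hk.inv, hk, smul_add, smul_smul, mul_inv_rev, mul_assoc, inv_mul_cancel, mul_one]
    abel
  have e3 : k ((p * ⁅x, y⁆ * y)⁻¹) = -(y⁻¹ • k y) - (⁅x, y⁆ * y)⁻¹ • k ⁅x, y⁆ -
      (p * ⁅x, y⁆ * y)⁻¹ • k p := by
    have e4 : (p * ⁅x, y⁆ * y)⁻¹ * (p * ⁅x, y⁆) = y⁻¹ := by group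
    have e5 : (p * ⁅x, y⁆ * y)⁻¹ * p = (⁅x, y⁆ * y)⁻¹ := by group
    rw [hk.inv, hk (p * ⁅x, y⁆) y, hk p, smul_add, smul_add, smul_smul, smul_smul, e4, e5]
    abel
  have e6 : k (p⁻¹) = -(p⁻¹ • k p) := hk.inv p
  rw [e1, e2, e3, e6]
  simp only [smul_add, smul_sub, map_add, map_sub, ← mul_smul]
  have f1 := hB.left x (k x) (c y)
  have f2 := hB.left ⁅x, y⁆ (k ⁅x, y⁆) (c y)
  have f3 := hB.left (p * x) (k p) (c y)
  have f4 := hB.left (p * ⁅x, y⁆) (k p) (c y)
  have f5 := hB.left y (k y) (c x)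
  have f6 := hB.left (⁅x, y⁆ * y) (k ⁅x, y⁆) (c x)
  have f7 := hB.left (p * ⁅x, y⁆ * y) (k p) (c x)
  have f8 := hB.left p (k p) (c x)
  have f9 : p * (x * y * x⁻¹) = p * ⁅x, y⁆ * y := by rw [← h0, mul_assoc]
  rw [f9]
  simp only [map_neg, AddMonoidHom.sub_apply, AddMonoidHom.neg_apply, f1, f2, f3, f4,
    f5, f6, f7, f8]
  abel

/-- both parts -/
theorem zf_wd2 (hB : Ivt F B) {I : Type} {k : F → N} {c : F → M} {z : F → A} (hz : Zf B k c z)
    (hk : CH k) (hc : CH c) (a d : I → F) (l : List I) (hl : l.Nodup) :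
    z (wd a d l) = (l.map fun i => B (zeta k a d l i) (c (d i)) +
      B (zet' k a d l i) (c (a i))).sum := by
  have key : ∀ l2 l1 : List I, l = l1 ++ l2 →
      z (wd a d l1 * wd a d l2) = z (wd a d l1) +
        (l2.map fun i => B (zeta k a d l i) (c (d i)) + B (zet' k a d l i) (c (a i))).sum := by
    intro l2
    induction l2 with
    | nil =>
      intro l1 _
      rw [List.map_nil, List.sum_nil, add_zero, wd, wd, List.map_nil, List.prod_nil, mul_one]
    | cons i l2 ih =>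
      intro l1 h
      have h1 : l = (l1 ++ [i]) ++ l2 := by rw [h, List.append_assoc]; rfl
      have h2 := ih (l1 ++ [i]) h1
      have h3 : wd a d l1 * wd a d (i :: l2) = wd a d (l1 ++ [i]) * wd a d l2 := by
        rw [← wd_append, ← wd_append, List.append_assoc]
        rfl
      have h4 : pre l i = l1 := by
        rw [h]
        exact pre_append l1 l2 i (h ▸ hl)
      rw [h3, h2, wd_append, wd_single, zf_step2 hB hz hk hc, List.map_cons, List.sum_cons,
        zeta, zet', h4]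
      abel
  have h1 := key l [] rfl
  have h2 : wd a d ([] : List I) = 1 := by rw [wd, List.map_nil, List.prod_nil]
  rw [h2, one_mul, hz.one hk, zero_add] at h1
  exact h1

/-- a commutator with a letter which acts trivially -/
theorem zf_tx (hB : Ivt F B) {k : F → N} {c : F → M} {z : F → A} (hz : Zf B k c z) (hk : CH k)
    (hc : CH c) (t x : F) (h1 : k t = 0) (h3 : ∀ n : N, t • n = n) :
    k ⁅t, x⁆ = 0 ∧ z ⁅t, x⁆ = -B (k x) (x • c t) := by
  have hti : ∀ n : N, t⁻¹ • n = n := fun n => by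
    conv_lhs => rw [← h3 n]
    rw [inv_smul_smul]
  have hk0 : k ⁅t, x⁆ = 0 := by
    rw [hk.comm, h1, smul_zero, h3, commutatorElement_def, mul_smul, mul_smul, mul_smul, h3, hti,
      smul_inv_smul]
    abel
  refine ⟨hk0, ?_⟩
  rw [zf_comm hB hz hk hc, h1, hk0, map_zero, AddMonoidHom.zero_apply,
    AddMonoidHom.zero_apply, zero_sub, sub_zero]

/-- a product of commutators with letters which act trivially -/
theorem zf_txl (hB : Ivt F B) {I : Type} {k : F → N} {c : F → M} {z : F → A} (hz : Zf B k c z)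
    (hk : CH k) (hc : CH c) (a d : I → F) (l : List I)
    (h : ∀ i ∈ l, k (a i) = 0 ∧ ∀ n : N, a i • n = n) :
    k (wd a d l) = 0 ∧ z (wd a d l) = -(l.map fun i => B (k (d i)) (d i • c (a i))).sum := by
  induction l with
  | nil => exact ⟨hk.one, (hz.one hk).trans (by simp)⟩
  | cons i l ih =>
    obtain ⟨h1, h2⟩ := ih fun j hj => h j (List.mem_cons_of_mem _ hj)
    obtain ⟨h3, h4⟩ := h i List.mem_cons_self
    obtain ⟨h5, h6⟩ := zf_tx hB hz hk hc (a i) (d i) h3 h4
    have h7 : wd a d (i :: l) = ⁅a i, d i⁆ * wd a d l := by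
      rw [wd, List.map_cons, List.prod_cons]
      rfl
    rw [h7]
    refine ⟨by rw [hk, h5, h1, smul_zero, add_zero], ?_⟩
    rw [hz, h5, h6, h2, map_zero, AddMonoidHom.zero_apply, List.map_cons, List.sum_cons, neg_add,
      add_zero]

/-- the same with `c = 0` at the letters -/
theorem zf_tr0 (hB : Ivt F B) {I : Type} {k : F → N} {c : F → M} {z : F → A} (hz : Zf B k c z)
    (hk : CH k) (hc : CH c) (a d : I → F) (l : List I)
    (h : ∀ i ∈ l, k (a i) = 0 ∧ c (a i) = 0 ∧ (∀ n : N, a i • n = n) ∧ ∀ m : M, a i • m = m) :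
    k (wd a d l) = 0 ∧ c (wd a d l) = 0 ∧ z (wd a d l) = 0 ∧ ∀ m : M, wd a d l • m = m := by
  have h0 := zf_txl hB hz hk hc a d l fun i hi => ⟨(h i hi).1, (h i hi).2.2.1⟩
  have h1 : z (wd a d l) = 0 := by
    rw [h0.2, neg_eq_zero]
    refine List.sum_eq_zero ?_
    intro x hx
    obtain ⟨i, hi, rfl⟩ := List.mem_map.1 hx
    rw [(h i hi).2.1, smul_zero, map_zero]
  have h2 : c (wd a d l) = 0 ∧ ∀ m : M, wd a d l • m = m := by
    clear h0 h1
    induction l with
    | nil => exact ⟨hc.one, fun m => one_smul _ m⟩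
    | cons i l ih =>
      obtain ⟨h1, h2⟩ := ih fun j hj => h j (List.mem_cons_of_mem _ hj)
      obtain ⟨-, h3, -, h4⟩ := h i List.mem_cons_self
      have hti : ∀ n : M, (a i)⁻¹ • n = n := fun n => by
        conv_lhs => rw [← h4 n]
        rw [inv_smul_smul]
      have h5 : ∀ y : M, ⁅a i, d i⁆ • y = y := by
        intro y
        rw [commutatorElement_def, mul_smul, mul_smul, mul_smul, h4, hti, smul_inv_smul]
      have h6 : c ⁅a i, d i⁆ = 0 := by
        rw [hc.comm, h3, smul_zero, h4, h5]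
        abel
      have h7 : wd a d (i :: l) = ⁅a i, d i⁆ * wd a d l := by
        rw [wd, List.map_cons, List.prod_cons]
        rfl
      rw [h7]
      exact ⟨by rw [hc, h6, h1, smul_zero, add_zero], fun m => by rw [mul_smul, h2, h5]⟩
  exact ⟨h0.1, h2.1, h1, h2.2⟩

/-- no cross terms -/
theorem zf_hon {J : Type} {k : F → N} {c : F → M} {z : F → A} (hz : Zf B k c z) (hk : CH k)
    (w : J → F) (l : List J) (h : ∀ j ∈ l, k (w j) = 0) :
    k (l.map w).prod = 0 ∧ z (l.map w).prod = (l.map fun j => z (w j)).sum := by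
  induction l with
  | nil => exact ⟨hk.one, hz.one hk⟩
  | cons j l ih =>
    obtain ⟨h1, h2⟩ := ih fun i hi => h i (List.mem_cons_of_mem _ hi)
    have h3 := h j List.mem_cons_self
    rw [List.map_cons, List.prod_cons, List.map_cons, List.sum_cons]
    refine ⟨by rw [hk, h1, h3, smul_zero, add_zero], ?_⟩
    rw [hz, h2, h3, map_zero, AddMonoidHom.zero_apply, add_zero]

omit [DistribMulAction F N] in
/-- factors with `z = 0`, `k = 0`, `c = 0` can be left out -/
theorem zf_mix {J : Type} {k : F → N} {c : F → M} {z : F → A} (hz : Zf B k c z) (hc : CH c) (w : J → F) (q : J → Bool) (l : List J)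
    (h : ∀ j ∈ l, q j = false → k (w j) = 0 ∧ c (w j) = 0 ∧ z (w j) = 0 ∧ ∀ m : M, w j • m = m) :
    c (l.map w).prod = c ((l.filter q).map w).prod ∧
      z (l.map w).prod = z ((l.filter q).map w).prod := by
  induction l with
  | nil => exact ⟨rfl, rfl⟩
  | cons j l ih =>
    obtain ⟨h1, h2⟩ := ih fun i hi => h i (List.mem_cons_of_mem _ hi)
    cases hq : q j with
    | true =>
      rw [List.filter_cons_of_pos hq, List.map_cons, List.prod_cons, List.map_cons, List.prod_cons]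
      exact ⟨by rw [hc, hc, h1], by rw [hz, hz, h1, h2]⟩
    | false =>
      obtain ⟨h3, h4, h5, h6⟩ := h j List.mem_cons_self hq
      have hne : ¬ q j = true := by rw [hq]; exact Bool.false_ne_true
      rw [List.filter_cons_of_neg hne, List.map_cons, List.prod_cons]
      exact ⟨by rw [hc, h4, zero_add, h6, h1], by
        rw [hz, h5, h3, map_zero, AddMonoidHom.zero_apply, add_zero, zero_add, h2]⟩

end zet

end H71.S3
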